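import Pool.Agent.X120.BM.Mt

/-!
# Tensor powers: the action of the Lie algebra, and the symplectic Lie algebra is perfect
-/

set_option autoImplicit false
set_option linter.unusedSectionVars false

open Matrix

namespace Pool.Agent.X120.OP

open Pool.Agent.X120.BM

section
variable {n₀ k r : ℕ} {n : Fin k → ℕ} {E : Type} [Field E]

/-- the tensors in `V_0 ⊗ V_(ι 0) ⊗ ⋯ ⊗ V_(ι (r-1))` -/
abbrev Tens (n₀ : ℕ) {k r : ℕ} (n : Fin k → ℕ) (ι : Fin r → Fin k) (E : Type) : Type := Fin n₀ → (∀ s, Fin (n (ι s))) → E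

variable {ι : Fin r → Fin k}

/-- the action on the factor `V_0` -/
def act₀ (M : Matrix (Fin n₀) (Fin n₀) E) : Module.End E (Tens n₀ n ι E) where
  toFun c := fun a J => ∑ a', c a' J * M a' a
  map_add' c c' := by
    funext a J
    simp only [Pi.add_apply, add_mul, Finset.sum_add_distrib]
  map_smul' x c := by
    funext a J
    simp only [Pi.smul_apply, smul_eq_mul, RingHom.id_apply, Finset.mul_sum, mul_assoc]

/-- the action on the factor with the number `s` -/
def actS (s : Fin r) (M : Matrix (Fin (n (ι s))) (Fin (n (ι s))) E) : Module.End E (Tens n₀ n ι E) where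
  toFun c := fun a J => ∑ l, c a (Function.update J s l) * M l (J s)
  map_add' c c' := by
    funext a J
    simp only [Pi.add_apply, add_mul, Finset.sum_add_distrib]
  map_smul' x c := by
    funext a J
    simp only [Pi.smul_apply, smul_eq_mul, RingHom.id_apply, Finset.mul_sum, mul_assoc]

theorem act₀_mul (M M' : Matrix (Fin n₀) (Fin n₀) E) : (act₀ (ι := ι) (n := n) M') * act₀ M = act₀ (M * M') := by
  refine LinearMap.ext fun c => ?_
  funext a J
  show ∑ a', (∑ a'', c a'' J * M a'' a') * M' a' a = ∑ a'', c a'' J * (M * M') a'' a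
  simp only [Finset.sum_mul, Matrix.mul_apply, Finset.mul_sum]
  rw [Finset.sum_comm]
  exact Finset.sum_congr rfl fun _ _ => Finset.sum_congr rfl fun _ _ => by ring

theorem actS_mul (s : Fin r) (M M' : Matrix (Fin (n (ι s))) (Fin (n (ι s))) E) : (actS (n₀ := n₀) s M') * actS s M = actS s (M * M') := by
  refine LinearMap.ext fun c => ?_
  funext a J
  show ∑ l, (∑ l', c a (Function.update (Function.update J s l) s l') * M l' ((Function.update J s l) s)) * M' l (J s) =
    ∑ l', c a (Function.update J s l') * (M * M') l' (J s)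
  simp only [Function.update_idem, Function.update_self, Finset.sum_mul, Matrix.mul_apply, Finset.mul_sum]
  rw [Finset.sum_comm]
  exact Finset.sum_congr rfl fun _ _ => Finset.sum_congr rfl fun _ _ => by ring

theorem act_comm₀ (s : Fin r) (M₀ : Matrix (Fin n₀) (Fin n₀) E) (M : Matrix (Fin (n (ι s))) (Fin (n (ι s))) E) :
    (act₀ M₀) * actS s M = actS s M * act₀ M₀ := by
  refine LinearMap.ext fun c => ?_
  funext a J
  show ∑ a', (∑ l, c a' (Function.update J s l) * M l (J s)) * M₀ a' a = ∑ l, (∑ a', c a' (Function.update J s l) * M₀ a' a) * M l (J s)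
  simp only [Finset.sum_mul]
  rw [Finset.sum_comm]
  exact Finset.sum_congr rfl fun _ _ => Finset.sum_congr rfl fun _ _ => by ring

theorem act_commS {s s' : Fin r} (hs : s ≠ s') (M : Matrix (Fin (n (ι s))) (Fin (n (ι s))) E) (M' : Matrix (Fin (n (ι s'))) (Fin (n (ι s'))) E) :
    (actS (n₀ := n₀) s M) * actS s' M' = actS s' M' * actS s M := by
  refine LinearMap.ext fun c => ?_
  funext a J
  show ∑ l, (∑ l', c a (Function.update (Function.update J s l) s' l') * M' l' ((Function.update J s l) s')) * M l (J s) =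
    ∑ l', (∑ l, c a (Function.update (Function.update J s' l') s l) * M l ((Function.update J s' l') s)) * M' l' (J s')
  simp only [Function.update_of_ne (Ne.symm hs), Function.update_of_ne hs, Finset.sum_mul]
  rw [Finset.sum_comm]
  refine Finset.sum_congr rfl fun l' _ => Finset.sum_congr rfl fun l _ => ?_
  rw [Function.update_comm hs]
  ring

/-- the action of the block diagonal matrices on the tensors, by derivations -/
def act (ι : Fin r → Fin k) (X : Tup n₀ n E) : Module.End E (Tens n₀ n ι E) := act₀ X.1 + ∑ s, actS s (X.2 (ι s))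

theorem comm_sum {R : Type} [Ring R] {σ : Type} [Fintype σ] (a₀ b₀ : R) (a b : σ → R) (h0 : ∀ i, a₀ * b i = b i * a₀) (h0' : ∀ i, b₀ * a i = a i * b₀)
    (h : ∀ i j, i ≠ j → a i * b j = b j * a i) :
    (a₀ + ∑ i, a i) * (b₀ + ∑ i, b i) - (b₀ + ∑ i, b i) * (a₀ + ∑ i, a i) = (a₀ * b₀ - b₀ * a₀) + ∑ i, (a i * b i - b i * a i) := by
  classical
  have h1 : a₀ * ∑ i, b i = (∑ i, b i) * a₀ := by
    rw [Finset.mul_sum, Finset.sum_mul]
    exact Finset.sum_congr rfl fun i _ => h0 i
  have h2 : b₀ * ∑ i, a i = (∑ i, a i) * b₀ := by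
    rw [Finset.mul_sum, Finset.sum_mul]
    exact Finset.sum_congr rfl fun i _ => h0' i
  have h3 : (∑ i, a i) * (∑ i, b i) - (∑ i, b i) * (∑ i, a i) = ∑ i, (a i * b i - b i * a i) := by
    rw [Finset.sum_mul_sum, Finset.sum_mul_sum, Finset.sum_comm (f := fun i j => b i * a j), ← Finset.sum_sub_distrib]
    refine Finset.sum_congr rfl fun i _ => ?_
    rw [← Finset.sum_sub_distrib, Finset.sum_eq_single i]
    · intro j _ hj
      rw [h i j (Ne.symm hj), sub_self]
    · intro h
      exact absurd (Finset.mem_univ _) h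
  rw [mul_add, add_mul, add_mul, mul_add, add_mul, add_mul, h1, h2, ← h3]
  abel

theorem act_bracket (X Y : Tup n₀ n E) : act ι Y * act ι X - act ι X * act ι Y = act ι (bracket X Y) := by
  classical
  unfold act
  rw [comm_sum _ _ _ _ (fun s => act_comm₀ s _ _) (fun s => act_comm₀ s _ _) (fun s s' hs => act_commS hs _ _)]
  have h4 : (act₀ (ι := ι) (n := n) Y.1) * act₀ X.1 - act₀ X.1 * act₀ Y.1 = act₀ ((bracket X Y).1) := by
    rw [act₀_mul, act₀_mul]
    refine LinearMap.ext fun c => ?_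
    funext a J
    show ∑ l, c l J * (X.1 * Y.1) l a - ∑ l, c l J * (Y.1 * X.1) l a = ∑ l, c l J * (X.1 * Y.1 - Y.1 * X.1) l a
    rw [← Finset.sum_sub_distrib]
    exact Finset.sum_congr rfl fun l _ => by rw [Matrix.sub_apply, mul_sub]
  have h3 : ∀ s : Fin r, (actS (n₀ := n₀) s (Y.2 (ι s))) * actS s (X.2 (ι s)) - actS s (X.2 (ι s)) * actS s (Y.2 (ι s)) = actS s ((bracket X Y).2 (ι s)) := by
    intro s
    rw [actS_mul, actS_mul]
    refine LinearMap.ext fun c => ?_
    funext a J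
    show ∑ l, c a (Function.update J s l) * (X.2 (ι s) * Y.2 (ι s)) l (J s) - ∑ l, c a (Function.update J s l) * (Y.2 (ι s) * X.2 (ι s)) l (J s) =
      ∑ l, c a (Function.update J s l) * (X.2 (ι s) * Y.2 (ι s) - Y.2 (ι s) * X.2 (ι s)) l (J s)
    rw [← Finset.sum_sub_distrib]
    exact Finset.sum_congr rfl fun l _ => by rw [Matrix.sub_apply, mul_sub]
  rw [h4, Finset.sum_congr rfl fun s _ => h3 s]

theorem act_add (X Y : Tup n₀ n E) (c : Tens n₀ n ι E) : act ι (X + Y) c = act ι X c + act ι Y c := by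
  funext a J
  show ∑ a', c a' J * (X.1 + Y.1) a' a + (∑ s, actS s ((X.2 + Y.2) (ι s))) c a J =
    (∑ a', c a' J * X.1 a' a + (∑ s, actS s (X.2 (ι s))) c a J) + (∑ a', c a' J * Y.1 a' a + (∑ s, actS s (Y.2 (ι s))) c a J)
  rw [LinearMap.sum_apply, LinearMap.sum_apply, LinearMap.sum_apply, Finset.sum_apply, Finset.sum_apply, Finset.sum_apply, Finset.sum_apply, Finset.sum_apply, Finset.sum_apply]
  have h1 : ∀ s, (actS s ((X.2 + Y.2) (ι s))) c a J = actS s (X.2 (ι s)) c a J + actS s (Y.2 (ι s)) c a J := by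
    intro s
    show ∑ l, c a (Function.update J s l) * ((X.2 (ι s) + Y.2 (ι s)) l (J s)) =
      ∑ l, c a (Function.update J s l) * X.2 (ι s) l (J s) + ∑ l, c a (Function.update J s l) * Y.2 (ι s) l (J s)
    rw [← Finset.sum_add_distrib]
    exact Finset.sum_congr rfl fun l _ => by rw [Matrix.add_apply, mul_add]
  rw [Finset.sum_congr rfl fun s _ => h1 s, Finset.sum_add_distrib]
  have h2 : ∑ a', c a' J * (X.1 + Y.1) a' a = ∑ a', c a' J * X.1 a' a + ∑ a', c a' J * Y.1 a' a := by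
    rw [← Finset.sum_add_distrib]
    exact Finset.sum_congr rfl fun l _ => by rw [Matrix.add_apply, mul_add]
  rw [h2]
  ring

theorem act_smul (q : E) (X : Tup n₀ n E) (c : Tens n₀ n ι E) : act ι (q • X) c = q • act ι X c := by
  funext a J
  show ∑ a', c a' J * (q • X.1) a' a + (∑ s, actS s ((q • X.2) (ι s))) c a J =
    q * (∑ a', c a' J * X.1 a' a + (∑ s, actS s (X.2 (ι s))) c a J)
  rw [LinearMap.sum_apply, LinearMap.sum_apply, Finset.sum_apply, Finset.sum_apply, Finset.sum_apply, Finset.sum_apply, mul_add, Finset.mul_sum, Finset.mul_sum]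
  congr 1
  · exact Finset.sum_congr rfl fun l _ => by rw [Matrix.smul_apply, smul_eq_mul]; ring
  · refine Finset.sum_congr rfl fun s _ => ?_
    show ∑ l, c a (Function.update J s l) * ((q • X.2 (ι s)) l (J s)) = q * ∑ l, c a (Function.update J s l) * X.2 (ι s) l (J s)
    rw [Finset.mul_sum]
    exact Finset.sum_congr rfl fun l _ => by rw [Matrix.smul_apply, smul_eq_mul]; ring

end

section
variable {m : ℕ}

/-- the elements of rank one of the symplectic Lie algebra are brackets -/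
theorem rank_one_bracket {A : Matrix (Fin m) (Fin m) ℚ} (hA : Aᵀ = -A) (hdet : A.det ≠ 0) (u : Fin m → ℚ) :
    ∃ Y Z : Matrix (Fin m) (Fin m) ℚ, Y * A + A * Yᵀ = 0 ∧ Z * A + A * Zᵀ = 0 ∧ Y * Z - Z * Y = A * Matrix.vecMulVec u u := by
  have hsp : ∀ K : Matrix (Fin m) (Fin m) ℚ, Kᵀ = K → (A * K) * A + A * (A * K)ᵀ = 0 := by
    intro K hK
    rw [Matrix.transpose_mul, hK, hA, Matrix.mul_neg, Matrix.mul_neg, ← Matrix.mul_assoc, add_neg_cancel]
  by_cases hu : u = 0
  · refine ⟨0, 0, by simp, by simp, ?_⟩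
    subst hu
    rw [Matrix.vecMulVec_zero]
    simp
  have hA1 : ∀ x y : Fin m → ℚ, x ⬝ᵥ (A *ᵥ y) = -(y ⬝ᵥ (A *ᵥ x)) := by
    intro x y
    rw [Matrix.dotProduct_mulVec, ← Matrix.mulVec_transpose, hA, Matrix.neg_mulVec, neg_dotProduct, dotProduct_comm]
  obtain ⟨v, hv⟩ : ∃ v : Fin m → ℚ, u ⬝ᵥ (A *ᵥ v) = 1 / 2 := by
    obtain ⟨x, hx⟩ : ∃ x : Fin m → ℚ, u ⬝ᵥ (A *ᵥ x) ≠ 0 := by
      by_contra h0
      push Not at h0
      apply hu
      have h1 : Matrix.vecMul u A = 0 := by
        funext a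
        have := h0 (Pi.single a 1)
        rwa [Matrix.dotProduct_mulVec, dotProduct_single, mul_one] at this
      have h2 := congrArg (fun z => Matrix.vecMul z A⁻¹) h1
      simp only [Matrix.vecMul_vecMul, Matrix.mul_nonsing_inv _ (IsUnit.mk0 _ hdet), Matrix.vecMul_one, Matrix.zero_vecMul] at h2
      exact h2
    refine ⟨((1 / 2) / (u ⬝ᵥ (A *ᵥ x))) • x, ?_⟩
    rw [Matrix.mulVec_smul, dotProduct_smul, smul_eq_mul, div_mul_cancel₀ _ hx]
  have huu : u ⬝ᵥ (A *ᵥ u) = 0 := by
    have := hA1 u u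
    linarith
  have hvu : v ⬝ᵥ (A *ᵥ u) = -(1 / 2) := by rw [hA1, hv]
  refine ⟨A * Matrix.vecMulVec u u, A * (Matrix.vecMulVec u v + Matrix.vecMulVec v u), hsp _ (by rw [Matrix.transpose_vecMulVec]),
    hsp _ (by rw [Matrix.transpose_add, Matrix.transpose_vecMulVec, Matrix.transpose_vecMulVec, add_comm]), ?_⟩
  have hp : ∀ x y x' y' : Fin m → ℚ, Matrix.vecMulVec x y * A * Matrix.vecMulVec x' y' = (y ⬝ᵥ (A *ᵥ x')) • Matrix.vecMulVec x y' := by
    intro x y x' y'
    rw [Matrix.mul_assoc, Matrix.mul_vecMulVec, Matrix.vecMulVec_mul_vecMulVec]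
    ext i j
    simp only [Matrix.vecMulVec_apply, Matrix.smul_apply, Pi.smul_apply, smul_eq_mul]
    ring
  have h1 : A * Matrix.vecMulVec u u * (A * (Matrix.vecMulVec u v + Matrix.vecMulVec v u)) = A * ((1 / 2 : ℚ) • Matrix.vecMulVec u u) := by
    have e1 : A * Matrix.vecMulVec u u * (A * (Matrix.vecMulVec u v + Matrix.vecMulVec v u)) =
        A * (Matrix.vecMulVec u u * A * Matrix.vecMulVec u v + Matrix.vecMulVec u u * A * Matrix.vecMulVec v u) := by
      rw [← Matrix.mul_add]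
      simp only [Matrix.mul_assoc]
    rw [e1, hp, hp, huu, hv, zero_smul, zero_add]
  have h2 : A * (Matrix.vecMulVec u v + Matrix.vecMulVec v u) * (A * Matrix.vecMulVec u u) = A * ((-(1 / 2) : ℚ) • Matrix.vecMulVec u u) := by
    have e1 : A * (Matrix.vecMulVec u v + Matrix.vecMulVec v u) * (A * Matrix.vecMulVec u u) =
        A * (Matrix.vecMulVec u v * A * Matrix.vecMulVec u u + Matrix.vecMulVec v u * A * Matrix.vecMulVec u u) := by
      rw [← Matrix.add_mul, ← Matrix.add_mul]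
      simp only [Matrix.mul_assoc]
    rw [e1, hp, hp, huu, hvu, zero_smul, add_zero]
  rw [h1, h2, ← Matrix.mul_sub, ← sub_smul]
  norm_num

/-- the symplectic Lie algebra is spanned by the elements of rank one -/
theorem sp_span {A : Matrix (Fin m) (Fin m) ℚ} (hA : Aᵀ = -A) (hdet : A.det ≠ 0) {U : Submodule ℚ (Matrix (Fin m) (Fin m) ℚ)}
    (hU : ∀ u : Fin m → ℚ, A * Matrix.vecMulVec u u ∈ U) {X : Matrix (Fin m) (Fin m) ℚ} (hX : X * A + A * Xᵀ = 0) : X ∈ U := by
  classical
  have hAu : IsUnit A.det := IsUnit.mk0 _ hdet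
  obtain ⟨K, hK⟩ : ∃ K, K = A⁻¹ * X := ⟨_, rfl⟩
  have hXK : X = A * K := by rw [hK, ← Matrix.mul_assoc, Matrix.mul_nonsing_inv _ hAu, Matrix.one_mul]
  have hKt : Kᵀ = K := by
    rw [hXK, Matrix.transpose_mul, hA, Matrix.mul_neg, Matrix.mul_neg, ← Matrix.mul_assoc, ← sub_eq_add_neg, ← Matrix.sub_mul, ← Matrix.mul_sub] at hX
    have h2 := congrArg (fun M => A⁻¹ * M * A⁻¹) hX
    simp only [Matrix.mul_zero, Matrix.zero_mul, ← Matrix.mul_assoc, Matrix.nonsing_inv_mul _ hAu, Matrix.one_mul] at h2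
    rw [Matrix.mul_assoc, Matrix.mul_nonsing_inv _ hAu, Matrix.mul_one] at h2
    exact (sub_eq_zero.1 h2).symm
  have h1 : K = ∑ i, ∑ j, (K i j / 2) • (Matrix.vecMulVec (Pi.single i 1 + Pi.single j 1 : Fin m → ℚ) (Pi.single i 1 + Pi.single j 1) -
      Matrix.vecMulVec (Pi.single i 1 : Fin m → ℚ) (Pi.single i 1) - Matrix.vecMulVec (Pi.single j 1 : Fin m → ℚ) (Pi.single j 1)) := by
    have h2 : ∀ i j : Fin m, (Matrix.vecMulVec (Pi.single i 1 + Pi.single j 1 : Fin m → ℚ) (Pi.single i 1 + Pi.single j 1) -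
      Matrix.vecMulVec (Pi.single i 1 : Fin m → ℚ) (Pi.single i 1) - Matrix.vecMulVec (Pi.single j 1 : Fin m → ℚ) (Pi.single j 1)) =
        Matrix.single i j 1 + Matrix.single j i 1 := by
      intro i j
      have e1 : ∀ a b : Fin m, Matrix.vecMulVec (Pi.single a 1 : Fin m → ℚ) (Pi.single b 1) = Matrix.single a b 1 := by
        intro a b
        rw [Matrix.single_eq_single_vecMulVec_single]
      rw [Matrix.add_vecMulVec, Matrix.vecMulVec_add, Matrix.vecMulVec_add, e1, e1, e1, e1]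
      abel
    simp only [h2]
    have h3 : K = ∑ i, ∑ j, (K i j) • Matrix.single i j (1 : ℚ) := by
      conv_lhs => rw [Matrix.matrix_eq_sum_single K]
      refine Finset.sum_congr rfl fun i _ => Finset.sum_congr rfl fun j _ => ?_
      rw [Matrix.smul_single, smul_eq_mul, mul_one]
    have h4 : K = ∑ i, ∑ j, (K i j) • Matrix.single j i (1 : ℚ) := by
      rw [Finset.sum_comm]
      conv_lhs => rw [h3]
      refine Finset.sum_congr rfl fun i _ => Finset.sum_congr rfl fun j _ => ?_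
      have h5 : K j i = K i j := congrFun (congrFun hKt i) j
      rw [h5]
    have h5 : (2 : ℚ) • K = K + K := two_smul _ _
    have h6 : K = (1 / 2 : ℚ) • (K + K) := by rw [← h5, smul_smul]; norm_num
    conv_lhs => rw [h6]
    have h7 : K + K = (∑ i, ∑ j, (K i j) • Matrix.single i j (1 : ℚ)) + ∑ i, ∑ j, (K i j) • Matrix.single j i (1 : ℚ) := by rw [← h3, ← h4]
    rw [h7, ← Finset.sum_add_distrib, Finset.smul_sum]
    refine Finset.sum_congr rfl fun i _ => ?_
    rw [← Finset.sum_add_distrib, Finset.smul_sum]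
    refine Finset.sum_congr rfl fun j _ => ?_
    rw [← smul_add, smul_smul]
    congr 1
    ring
  rw [hXK, h1, Matrix.mul_sum]
  refine U.sum_mem fun i _ => ?_
  rw [Matrix.mul_sum]
  refine U.sum_mem fun j _ => ?_
  rw [Matrix.mul_smul, Matrix.mul_sub, Matrix.mul_sub]
  exact U.smul_mem _ (U.sub_mem (U.sub_mem (hU _) (hU _)) (hU _))

end

end Pool.Agent.X120.OP
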