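import Pool.Agent.X120.OR.Cnt

/-!
# Families with big orthogonal monodromy: the Lie algebra of the Mumford–Tate group
-/

set_option autoImplicit false

open Matrix

namespace Pool.Agent.X120.OR

open Pool.Agent.X120.BM Pool.Agent.X120.NF

section
variable {n w : ℕ}

/-- The upper part of the Hodge decomposition is spanned by the vectors `v_0`, `v_1`: either `H^p` is the last part which is not zero, it has dimension two and is spanned by `v_0`, `v_1`
(`p = q`), or the last two parts which are not zero, `H^p` and `H^q`, have dimension one, `H^p` is spanned by `v_0` and their sum by `v_0` and `v_1`. -/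
def IsTop (w : ℕ) (H : ℕ → Submodule ℂ (Fin n → ℂ)) (v : Fin 2 → Fin n → ℂ) : Prop :=
  LinearIndependent ℂ ![v 0, v 1] ∧ ∃ p q : ℕ, q ≤ p ∧ p ≤ w ∧ w < p + q ∧ v 0 ∈ H p ∧ H p ⊔ H q = Submodule.span ℂ {v 0, v 1} ∧
    (q < p → H p = Submodule.span ℂ {v 0}) ∧ ∀ p' ≤ w, q < p' → p' ≠ p → H p' = ⊥

theorem wedge_comb (u v : Fin n → ℂ) (a b c d : ℂ) : wedge (a • u + b • v) (c • u + d • v) = (a * d - b * c) • wedge u v := by
  ext i j
  unfold wedge
  simp only [Matrix.sub_apply, Matrix.vecMulVec_apply, Matrix.smul_apply, Pi.add_apply, Pi.smul_apply, smul_eq_mul]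
  ring

theorem wedge_zero_left (y : Fin n → ℂ) : wedge (0 : Fin n → ℂ) y = 0 := by
  ext i j
  unfold wedge
  simp

theorem wedge_zero_right (y : Fin n → ℂ) : wedge y (0 : Fin n → ℂ) = 0 := by
  ext i j
  unfold wedge
  simp

theorem wedge_swap (x y : Fin n → ℂ) : wedge x y = -wedge y x := by
  unfold wedge
  rw [neg_sub]

theorem skew_self {T : Matrix (Fin n) (Fin n) ℚ} (hT : Tᵀ = -T) (u : Fin n → ℂ) : u ⬝ᵥ (toC T *ᵥ u) = 0 := by
  have hTt : (toC T)ᵀ = -toC T := by
    show toC Tᵀ = _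
    rw [hT]
    ext a b
    show ((-(T a b) : ℚ) : ℂ) = -((T a b : ℚ) : ℂ)
    push_cast
    rfl
  have h2 : u ⬝ᵥ (toC T *ᵥ u) = -(u ⬝ᵥ (toC T *ᵥ u)) := by
    conv_lhs => rw [Matrix.dotProduct_mulVec, ← Matrix.mulVec_transpose, hTt, Matrix.neg_mulVec, neg_dotProduct, dotProduct_comm]
  linear_combination (1 / 2 : ℂ) * h2

/-- **The Lie algebra contains the orthogonal Lie algebra.** -/
theorem top_generic {A : Matrix (Fin n) (Fin n) ℚ} {H : ℕ → Submodule ℂ (Fin n → ℂ)} (hA : Aᵀ = A) (hH : IsPolarized w A H)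
    {v : Fin 2 → Fin n → ℂ} (ht : IsTop w H v) (hG : NoSkew (v 0) (v 1)) {Φ : Matrix (Fin n) (Fin n) ℂ}
    (hop : IsHodgeOperator w H Φ) {𝔪 : Submodule ℚ (Matrix (Fin n) (Fin n) ℚ)} {e : ℚ}
    (hlie : IsLie₀ 𝔪) (hΦ : Φ - (e : ℂ) • 1 ∈ extend₀ ℂ 𝔪) {X : Matrix (Fin n) (Fin n) ℚ} (hX : X * A + A * Xᵀ = 0) : X ∈ 𝔪 := by
  obtain ⟨hind, p, q, hqp, hpw, hpq, hv0, hspan, hone, hbot⟩ := ht
  rw [LinearIndependent.pair_iff] at hind
  have h0 : v 0 ≠ 0 := by
    intro h
    have := hind 1 0 (by rw [h, smul_zero, zero_smul, add_zero])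
    exact one_ne_zero this.1
  rcases Nat.lt_or_eq_of_le hqp with hlt | heq
  · -- two parts of dimension one
    have hHp := hone hlt
    have hv1 : v 1 ∈ H p ⊔ H q := by rw [hspan]; exact Submodule.subset_span (by simp)
    obtain ⟨a, ha, b, hb, hab⟩ := Submodule.mem_sup.1 hv1
    rw [hHp] at ha
    obtain ⟨κ, rfl⟩ := Submodule.mem_span_singleton.1 ha
    have hb' : b = v 1 - κ • v 0 := by rw [← hab, add_sub_cancel_left]
    have hb0 : b ≠ 0 := by
      intro h
      have h1 := hind (-κ) 1 (by rw [neg_smul, one_smul, neg_add_eq_sub, ← hb', h])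
      exact one_ne_zero h1.2
    have hwb : wedge (v 0) b = wedge (v 0) (v 1) := by
      have h1 := wedge_comb (v 0) (v 1) 1 0 (-κ) 1
      rw [one_smul, zero_smul, add_zero, one_smul, neg_smul, neg_add_eq_sub, ← hb'] at h1
      rw [h1]
      norm_num
    have hHqs : ∀ y ∈ H q, ∃ γ δ : ℂ, y = γ • v 0 + δ • v 1 := by
      intro y hy
      have h1 : y ∈ Submodule.span ℂ {v 0, v 1} := by rw [← hspan]; exact Submodule.mem_sup_right hy
      obtain ⟨γ, δ, h2⟩ := Submodule.mem_span_pair.1 h1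
      exact ⟨γ, δ, h2.symm⟩
    have hpqw : ∀ x ∈ H p, ∀ y ∈ H q, ∃ c : ℂ, wedge x y = c • wedge (v 0) b := by
      intro x hx y hy
      rw [hHp] at hx
      obtain ⟨α, rfl⟩ := Submodule.mem_span_singleton.1 hx
      obtain ⟨γ, δ, rfl⟩ := hHqs y hy
      refine ⟨α * δ, ?_⟩
      have h1 := wedge_comb (v 0) (v 1) α 0 γ δ
      rw [zero_smul, add_zero, zero_mul, sub_zero] at h1
      rw [h1, hwb]
    refine orth_generic (p₁ := p) (p₂ := q) hA hH hv0 hb hpw (by omega) hpq h0 hb0 ?_ ?_ hop hlie hΦ hX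
    · intro r hr r' hr' hrr x hx y hy
      by_cases h1 : r = p
      · subst h1
        have h2 : r' = q := by omega
        subst h2
        exact hpqw x hx y hy
      by_cases h2 : r = q
      · subst h2
        have h3 : r' = p := by omega
        subst h3
        obtain ⟨c, hc⟩ := hpqw y hy x hx
        exact ⟨-c, by rw [wedge_swap, hc, neg_smul]⟩
      by_cases h3 : q < r
      · rw [hbot r hr h3 h1, Submodule.mem_bot] at hx
        exact ⟨0, by rw [hx, wedge_zero_left, zero_smul]⟩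
      · have h4 : q < r' ∧ r' ≠ p := by omega
        rw [hbot r' hr' h4.1 h4.2, Submodule.mem_bot] at hy
        exact ⟨0, by rw [hy, wedge_zero_right, zero_smul]⟩
    · intro T hT hT0
      refine hG T hT ?_
      rw [hb', Matrix.mulVec_sub, Matrix.mulVec_smul, dotProduct_sub, dotProduct_smul, skew_self hT, smul_zero, sub_zero] at hT0
      exact hT0
  · -- one part of dimension two
    subst heq
    rw [sup_idem] at hspan
    have hv1 : v 1 ∈ H q := by rw [hspan]; exact Submodule.subset_span (by simp)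
    have h1 : v 1 ≠ 0 := by
      intro h
      have := hind 0 1 (by rw [h, smul_zero, zero_smul, add_zero])
      exact one_ne_zero this.2
    refine orth_generic (p₁ := q) (p₂ := q) hA hH hv0 hv1 hpw hpw hpq h0 h1 ?_ hG hop hlie hΦ hX
    intro r hr r' hr' hrr x hx y hy
    by_cases h2 : r = q
    · have h3 : r' = q := by omega
      subst h2
      rw [h3] at hy
      rw [hspan] at hx hy
      obtain ⟨α, β, rfl⟩ := Submodule.mem_span_pair.1 hx
      obtain ⟨γ, δ, rfl⟩ := Submodule.mem_span_pair.1 hy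
      exact ⟨_, wedge_comb _ _ _ _ _ _⟩
    · by_cases h3 : q < r
      · rw [hbot r hr h3 h2, Submodule.mem_bot] at hx
        exact ⟨0, by rw [hx, wedge_zero_left, zero_smul]⟩
      · rw [hbot r' hr' (by omega) (by omega), Submodule.mem_bot] at hy
        exact ⟨0, by rw [hy, wedge_zero_right, zero_smul]⟩

end

/-- For all Hodge structures with a symmetric form on the fibre over `b^(-t)`, with the upper part of the Hodge decomposition given by the two period vectors: every rational Lie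
algebra whose complexification contains the Hodge operator minus a rational scalar (a Tate twist) contains the orthogonal Lie algebra. -/
def Generic {G : GSystem} {n e : ℕ} (F : OPeriods G n e) (b t : ℕ) : Prop :=
  ∀ (w : ℕ) (A : Matrix (Fin n) (Fin n) ℚ) (H : ℕ → Submodule ℂ (Fin n → ℂ)), Aᵀ = A → IsPolarized w A H → IsTop w H (F.vec b t) →
    ∀ Φ, IsHodgeOperator w H Φ → ∀ 𝔪 : Submodule ℚ (Matrix (Fin n) (Fin n) ℚ), IsLie₀ 𝔪 → ∀ c : ℚ, Φ - (c : ℂ) • 1 ∈ extend₀ ℂ 𝔪 →
      ∀ X, X * A + A * Xᵀ = 0 → X ∈ 𝔪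

/-- **The counting theorem.** -/
theorem count_generic (G : GSystem) (n e b : ℕ) (hb : 2 ≤ b) :
    ∃ K : ℝ, 0 ≤ K ∧ ∀ F : OPeriods G n e, ∀ N : ℕ, 2 ≤ N →
      (({t : ℕ | 1 ≤ t ∧ t ≤ N ∧ ¬ Generic F b t}.ncard : ℕ) : ℝ) ≤ K * Real.log N := by
  obtain ⟨K, hK, hcount⟩ := count_skew G n e b hb
  refine ⟨K, hK, fun F N hN => le_trans ?_ (hcount F N hN)⟩
  refine Nat.cast_le.2 (Set.ncard_le_ncard ?_ ((Set.finite_Iic N).subset fun t ht => ht.2.1))
  rintro t ⟨ht1, htN, hnot⟩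
  refine ⟨ht1, htN, ?_⟩
  by_contra hno
  apply hnot
  intro w A H hA hH ht Φ hop 𝔪 hlie c hΦ X hX
  refine top_generic hA hH ht ?_ hop hlie hΦ hX
  by_contra h
  exact hno ⟨ht.1, h⟩

section
variable {n w : ℕ} {A : Matrix (Fin n) (Fin n) ℚ} {H : ℕ → Submodule ℂ (Fin n → ℂ)}

/-- the orthogonal Lie algebra over an extension field -/
def orthLie (E : Type) [Field E] [Algebra ℚ E] (A : Matrix (Fin n) (Fin n) ℚ) : Submodule E (Matrix (Fin n) (Fin n) E) where
  carrier := {X | X * A.map (algebraMap ℚ E) + A.map (algebraMap ℚ E) * X.transpose = 0}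
  add_mem' := fun {X Y} hX hY => by
    show (X + Y) * _ + _ * (X + Y).transpose = 0
    rw [Matrix.add_mul, Matrix.transpose_add, Matrix.mul_add, add_add_add_comm, hX, hY, add_zero]
  zero_mem' := by
    show (0 : Matrix (Fin n) (Fin n) E) * _ + _ * (0 : Matrix (Fin n) (Fin n) E).transpose = 0
    rw [Matrix.zero_mul, Matrix.transpose_zero, Matrix.mul_zero, add_zero]
  smul_mem' := fun c {X} hX => by
    show (c • X) * _ + _ * (c • X).transpose = 0
    rw [Matrix.smul_mul, Matrix.transpose_smul, Matrix.mul_smul, ← smul_add, hX, smul_zero]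

theorem mem_orthLie {X : Matrix (Fin n) (Fin n) ℚ} : X ∈ orthLie ℚ A ↔ X * A + A * Xᵀ = 0 := by
  have e2 : A.map (algebraMap ℚ ℚ) = A := by
    ext a b
    rfl
  show X * A.map (algebraMap ℚ ℚ) + A.map (algebraMap ℚ ℚ) * Xᵀ = 0 ↔ _
  rw [e2]

theorem orthLie_lie : IsLie₀ (orthLie ℚ A) := by
  intro X hX Y hY
  rw [mem_orthLie] at hX hY ⊢
  have hX' : X * A = -(A * Xᵀ) := eq_neg_of_add_eq_zero_left hX
  have hY' : Y * A = -(A * Yᵀ) := eq_neg_of_add_eq_zero_left hY
  rw [Matrix.transpose_sub, Matrix.transpose_mul, Matrix.transpose_mul, Matrix.sub_mul, Matrix.mul_sub, Matrix.mul_assoc X, hY',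
    Matrix.mul_assoc Y, hX', Matrix.mul_neg, Matrix.mul_neg, ← Matrix.mul_assoc X, hX', ← Matrix.mul_assoc Y, hY', Matrix.neg_mul,
    Matrix.neg_mul, Matrix.mul_assoc, Matrix.mul_assoc]
  abel

/-- extension of scalars of the orthogonal Lie algebra -/
theorem extend_orth (E : Type) [Field E] [Algebra ℚ E] : extend₀ E (orthLie ℚ A) = orthLie E A := by
  refine le_antisymm ?_ fun X hX => ?_
  · unfold extend₀
    rw [Submodule.span_le]
    rintro _ ⟨X, hX, rfl⟩
    have h1 := mem_orthLie.1 hX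
    have h2 := congrArg (fun M : Matrix (Fin n) (Fin n) ℚ => M.map (algebraMap ℚ E)) h1
    show X.map (algebraMap ℚ E) * A.map (algebraMap ℚ E) + A.map (algebraMap ℚ E) * (X.map (algebraMap ℚ E))ᵀ = 0
    have h3 : (X * A + A * Xᵀ).map (algebraMap ℚ E) =
        X.map (algebraMap ℚ E) * A.map (algebraMap ℚ E) + A.map (algebraMap ℚ E) * (X.map (algebraMap ℚ E))ᵀ := by
      rw [Matrix.map_add _ (map_add _), Matrix.map_mul, Matrix.map_mul]
      rfl
    rw [← h3, h1]
    ext a b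
    exact map_zero (algebraMap ℚ E)
  · refine mem_of_phM fun φ => mem_orthLie.2 ?_
    have h1 : X * A.map (algebraMap ℚ E) + A.map (algebraMap ℚ E) * Xᵀ = 0 := hX
    have h2 := congrArg (fun M : Matrix (Fin n) (Fin n) E => M.map φ) h1
    have e1 : (X * A.map (algebraMap ℚ E)).map φ = X.map φ * A := phM_mulR φ _ _
    have e2 : (A.map (algebraMap ℚ E) * Xᵀ).map φ = A * (X.map φ)ᵀ := phM_mulL φ _ _
    rw [← e1, ← e2]
    have e3 : (X * A.map (algebraMap ℚ E)).map φ + (A.map (algebraMap ℚ E) * Xᵀ).map φ =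
        (X * A.map (algebraMap ℚ E) + A.map (algebraMap ℚ E) * Xᵀ).map φ := by
      ext a b
      exact (map_add φ _ _).symm
    rw [e3, h1]
    ext a b
    exact map_zero φ

/-- **The Lie algebra of the Mumford–Tate group of `V(w / 2)` is the orthogonal Lie algebra.** -/
theorem mt_orth {G : GSystem} {e : ℕ} {F : OPeriods G n e} {b t : ℕ} (hgen : Generic F b t) (hA : Aᵀ = A) (hH : IsPolarized w A H)
    (ht : IsTop w H (F.vec b t)) {Φ : Matrix (Fin n) (Fin n) ℂ} (hop : IsHodgeOperator w H Φ) {m : ℕ} (hm : w = 2 * m) :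
    mumfordTate₀ (Φ - (m : ℂ) • 1) = orthLie ℚ A := by
  refine le_antisymm (sInf_le ⟨orthLie_lie, ?_⟩) fun X hX => ?_
  · have h1 : Φ - (m : ℂ) • 1 ∈ orthLie ℂ A := by
      have h2 := op_form hH hop
      show (Φ - (m : ℂ) • 1) * A.map (algebraMap ℚ ℂ) + A.map (algebraMap ℚ ℂ) * (Φ - (m : ℂ) • 1)ᵀ = 0
      rw [← toC_alg, Matrix.sub_mul, Matrix.transpose_sub, Matrix.mul_sub, sub_add_sub_comm, h2, Matrix.transpose_smul,
        Matrix.transpose_one, Matrix.smul_mul, Matrix.mul_smul, Matrix.one_mul, Matrix.mul_one, ← add_smul, ← sub_smul]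
      have h3 : ((w : ℕ) : ℂ) = 2 * (m : ℂ) := by rw [hm]; push_cast; ring
      rw [h3, two_mul, sub_self, zero_smul]
    rw [← extend_orth] at h1
    exact h1
  · have h1 : Φ - (((m : ℚ) : ℂ)) • 1 ∈ extend₀ ℂ (mumfordTate₀ (Φ - (m : ℂ) • 1)) := by
      have h2 := mem_mt₀ (Φ - (m : ℂ) • (1 : Matrix (Fin n) (Fin n) ℂ))
      have h3 : (((m : ℚ)) : ℂ) = (m : ℂ) := by push_cast; rfl
      rw [h3]
      exact h2
    exact hgen w A H hA hH ht Φ hop _ (lie_sInf₀ _) m h1 X (mem_orthLie.1 hX)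

end

end Pool.Agent.X120.OR
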