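import Pool.Agent.X120.OR.Grp

/-!
# Algebraic subgroups of `GL_n` over `ℚ` whose Lie algebra contains the orthogonal Lie algebra: the Cayley transform
-/

set_option autoImplicit false

open Matrix

namespace Pool.Agent.X120.OR

open Pool.Agent.X120.BM Pool.Agent.X120.NF

section
variable {n : ℕ}

/-- the homogenised polynomial -/
noncomputable def homog {S : Type} [CommRing S] (κ : ℚ →+* S) (δ : S) (Γ : Matrix (Fin n) (Fin n) S) (f : MvPolynomial (Fin n × Fin n) ℚ) : S :=
  ∑ m ∈ f.support, κ (f.coeff m) * (δ ^ (f.totalDegree - ∑ v, m v) * ∏ v, (Γ v.1 v.2) ^ (m v))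

theorem homog_eq {S : Type} [CommRing S] (κ : ℚ →+* S) (δ : S) (γ : Matrix (Fin n) (Fin n) S) (f : MvPolynomial (Fin n × Fin n) ℚ) :
    homog κ δ (δ • γ) f = δ ^ f.totalDegree * evalM κ γ f := by
  unfold homog evalM
  rw [MvPolynomial.eval₂_eq', Finset.mul_sum]
  refine Finset.sum_congr rfl fun m hm => ?_
  have h1 : ∑ v, m v ≤ f.totalDegree := by
    have h2 := MvPolynomial.le_totalDegree hm
    rwa [Finsupp.sum_fintype _ _ (fun _ => rfl)] at h2
  have h2 : ∏ v : Fin n × Fin n, ((δ • γ) v.1 v.2) ^ (m v) = δ ^ (∑ v, m v) * ∏ v, (γ v.1 v.2) ^ (m v) := by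
    rw [← Finset.prod_pow_eq_pow_sum, ← Finset.prod_mul_distrib]
    refine Finset.prod_congr rfl fun v _ => ?_
    rw [Matrix.smul_apply, smul_eq_mul, mul_pow]
  rw [h2]
  calc κ (f.coeff m) * (δ ^ (f.totalDegree - ∑ v, m v) * (δ ^ (∑ v, m v) * ∏ v, (γ v.1 v.2) ^ (m v)))
      = κ (f.coeff m) * ((δ ^ (f.totalDegree - ∑ v, m v) * δ ^ (∑ v, m v)) * ∏ v, (γ v.1 v.2) ^ (m v)) := by ring
    _ = κ (f.coeff m) * (δ ^ f.totalDegree * ∏ v, (γ v.1 v.2) ^ (m v)) := by rw [← pow_add, Nat.sub_add_cancel h1]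
    _ = δ ^ f.totalDegree * (κ (f.coeff m) * ∏ v, (γ v.1 v.2) ^ (m v)) := by ring

theorem homog_map {S S' : Type} [CommRing S] [CommRing S'] (φ : S →+* S') (κ : ℚ →+* S) (δ : S) (Γ : Matrix (Fin n) (Fin n) S)
    (f : MvPolynomial (Fin n × Fin n) ℚ) : φ (homog κ δ Γ f) = homog (φ.comp κ) (φ δ) (Γ.map φ) f := by
  unfold homog
  rw [map_sum]
  refine Finset.sum_congr rfl fun m _ => ?_
  rw [map_mul, map_mul, map_pow, map_prod]
  congr 2
  refine Finset.prod_congr rfl fun v _ => ?_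
  rw [map_pow]
  rfl

/-- the product rule -/
theorem der_mul {E : Type} [Field E] (M N : Matrix (Fin n) (Fin n) (PowerSeries E)) :
    (M * N).map (PowerSeries.derivative E) = M.map (PowerSeries.derivative E) * N + M * N.map (PowerSeries.derivative E) := by
  ext1 i j
  rw [Matrix.map_apply, Matrix.mul_apply, map_sum, Matrix.add_apply, Matrix.mul_apply, Matrix.mul_apply, ← Finset.sum_add_distrib]
  refine Finset.sum_congr rfl fun l _ => ?_
  rw [Derivation.leibniz, smul_eq_mul, smul_eq_mul, Matrix.map_apply, Matrix.map_apply]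
  ring

/-- the Cayley curve -/
theorem cayley_curve (𝒢 : AlgGroup n) {A : Matrix (Fin n) (Fin n) ℚ} (hA : Aᵀ = A) (hdet : A.det ≠ 0) (hlie : orthLie ℚ A ≤ lieAlg 𝒢)
    {E : Type} [Field E] [CharZero E] (ι : ℚ →+* E) {Y : Matrix (Fin n) (Fin n) E} (hY : Y * A.map ι + A.map ι * Yᵀ = 0) :
    ∃ γ : Matrix (Fin n) (Fin n) (PowerSeries E), γ * (1 + (PowerSeries.X : PowerSeries E) • Y.map (PowerSeries.C (R := E))) =
        1 - (PowerSeries.X : PowerSeries E) • Y.map (PowerSeries.C (R := E)) ∧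
      ∀ f ∈ 𝒢.I, evalM ((PowerSeries.C (R := E)).comp ι) γ f = 0 := by
  classical
  set C := PowerSeries.C (R := E) with hC
  obtain ⟨s, hs⟩ : ∃ s : PowerSeries E, s = PowerSeries.X := ⟨_, rfl⟩
  rw [← hs]
  obtain ⟨Z, hZ⟩ : ∃ Z : Matrix (Fin n) (Fin n) (PowerSeries E), Z = Y.map C := ⟨_, rfl⟩
  rw [← hZ]
  obtain ⟨P, hP⟩ : ∃ P, P = 1 + s • Z := ⟨_, rfl⟩
  obtain ⟨M, hM⟩ : ∃ M, M = 1 - s • Z := ⟨_, rfl⟩
  rw [← hP, ← hM]
  -- units
  have hcs : PowerSeries.constantCoeff s = 0 := by rw [hs, PowerSeries.constantCoeff_X]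
  have hPc : P.map (PowerSeries.constantCoeff (R := E)) = 1 := by
    rw [hP]
    ext i j
    rw [Matrix.map_apply, Matrix.add_apply, map_add, Matrix.smul_apply, smul_eq_mul, map_mul, hcs, zero_mul, add_zero, Matrix.one_apply, Matrix.one_apply]
    split_ifs
    · exact map_one _
    · exact map_zero _
  have hMc : M.map (PowerSeries.constantCoeff (R := E)) = 1 := by
    rw [hM]
    ext i j
    rw [Matrix.map_apply, Matrix.sub_apply, map_sub, Matrix.smul_apply, smul_eq_mul, map_mul, hcs, zero_mul, sub_zero, Matrix.one_apply, Matrix.one_apply]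
    split_ifs
    · exact map_one _
    · exact map_zero _
  have hunit : ∀ N : Matrix (Fin n) (Fin n) (PowerSeries E), N.map (PowerSeries.constantCoeff (R := E)) = 1 → IsUnit N.det := by
    intro N hN
    rw [PowerSeries.isUnit_iff_constantCoeff]
    have h1 : PowerSeries.constantCoeff N.det = (N.map (PowerSeries.constantCoeff (R := E))).det := RingHom.map_det _ _
    rw [h1, hN, Matrix.det_one]
    exact isUnit_one
  have hPd := hunit P hPc
  have hMd := hunit M hMc
  have hPQ : P * P⁻¹ = 1 := Matrix.mul_nonsing_inv _ hPd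
  have hQP : P⁻¹ * P = 1 := Matrix.nonsing_inv_mul _ hPd
  have hMR : M * M⁻¹ = 1 := Matrix.mul_nonsing_inv _ hMd
  have hRM : M⁻¹ * M = 1 := Matrix.nonsing_inv_mul _ hMd
  obtain ⟨Q, hQ⟩ : ∃ Q, Q = P⁻¹ := ⟨_, rfl⟩
  obtain ⟨R, hR⟩ : ∃ R, R = M⁻¹ := ⟨_, rfl⟩
  rw [← hQ] at hPQ hQP
  rw [← hR] at hMR hRM
  -- commutation
  have hZP : Z * P = P * Z := by
    rw [hP, Matrix.mul_add, Matrix.add_mul, Matrix.mul_one, Matrix.one_mul, Matrix.mul_smul, Matrix.smul_mul]
  have hZM : Z * M = M * Z := by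
    rw [hM, Matrix.mul_sub, Matrix.sub_mul, Matrix.mul_one, Matrix.one_mul, Matrix.mul_smul, Matrix.smul_mul]
  have hinv : ∀ {S T U : Matrix (Fin n) (Fin n) (PowerSeries E)}, T * U = 1 → U * T = 1 → S * T = T * S → S * U = U * S := by
    intro S T U h1 h2 h3
    calc S * U = (U * T) * S * U := by rw [h2, Matrix.one_mul]
      _ = U * (S * T) * U := by rw [h3]; simp only [Matrix.mul_assoc]
      _ = U * S * (T * U) := by simp only [Matrix.mul_assoc]
      _ = U * S := by rw [h1, Matrix.mul_one]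
  have hZQ : Z * Q = Q * Z := hinv hPQ hQP hZP
  have hZR : Z * R = R * Z := hinv hMR hRM hZM
  have hPM : P * M = M * P := by
    rw [hM, Matrix.mul_sub, Matrix.sub_mul, Matrix.mul_one, Matrix.one_mul, Matrix.mul_smul, Matrix.smul_mul, hZP]
  have hMQ : M * Q = Q * M := hinv hPQ hQP hPM.symm
  have hRQ : R * Q = Q * R := (hinv hMR hRM hMQ.symm).symm
  -- the curve
  refine ⟨M * Q, by rw [Matrix.mul_assoc, hQP, Matrix.mul_one], ?_⟩
  refine curve 𝒢 ι (Z := (-2 : PowerSeries E) • (Z * R * Q)) ?_ ?_ ?_ ?_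
  · exact ((Matrix.isUnit_iff_isUnit_det _).2 hMd).mul (by
      rw [hQ]
      exact IsUnit.of_mul_eq_one P (Matrix.nonsing_inv_mul _ hPd))
  · have h1 : (M * Q).map (PowerSeries.constantCoeff (R := E)) * P.map (PowerSeries.constantCoeff (R := E)) = M.map (PowerSeries.constantCoeff (R := E)) := by
      rw [← Matrix.map_mul, Matrix.mul_assoc, hQP, Matrix.mul_one]
    rw [hPc, hMc, Matrix.mul_one] at h1
    exact h1
  · -- the derivative
    have hDZ : Z.map (PowerSeries.derivative E) = 0 := by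
      ext1 i j
      rw [hZ, Matrix.map_apply, Matrix.map_apply, PowerSeries.derivative_C]
      rfl
    have hDs : PowerSeries.derivative E s = 1 := by rw [hs, PowerSeries.derivative_X]
    have hD1 : (1 : Matrix (Fin n) (Fin n) (PowerSeries E)).map (PowerSeries.derivative E) = 0 := by
      ext1 i j
      rw [Matrix.map_apply, Matrix.one_apply]
      split_ifs
      · exact Derivation.map_one_eq_zero _
      · exact map_zero _
    have hDsZ : (s • Z).map (PowerSeries.derivative E) = Z := by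
      ext1 i j
      have h1 := congrFun (congrFun hDZ i) j
      rw [Matrix.map_apply] at h1
      rw [Matrix.map_apply, Matrix.smul_apply, smul_eq_mul, Derivation.leibniz, hDs, h1, Matrix.zero_apply, smul_zero, zero_add, smul_eq_mul, mul_one]
    have hDP : P.map (PowerSeries.derivative E) = Z := by
      rw [hP, Matrix.map_add _ (map_add _), hD1, hDsZ, zero_add]
    have hDM : M.map (PowerSeries.derivative E) = -Z := by
      rw [hM, Matrix.map_sub _ (map_sub _), hD1, hDsZ, zero_sub]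
    have h1 := der_mul (M * Q) P
    rw [Matrix.mul_assoc, hQP, Matrix.mul_one, hDM, hDP] at h1
    -- `D(γ) P = - (1 + γ) Z`
    have h2 : (M * Q).map (PowerSeries.derivative E) * P = -Z - M * Q * Z := by
      rw [h1, add_sub_cancel_right]
    have h3 : (M * Q).map (PowerSeries.derivative E) = (-Z - M * Q * Z) * Q := by
      rw [← h2, Matrix.mul_assoc, hPQ, Matrix.mul_one]
    have h4 : P + M = (2 : PowerSeries E) • (1 : Matrix (Fin n) (Fin n) (PowerSeries E)) := by
      rw [hP, hM, two_smul]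
      abel
    have h5 : -Z - M * Q * Z = (-2 : PowerSeries E) • (Q * Z) := by
      have h6 : Z = P * Q * Z := by rw [hPQ, Matrix.one_mul]
      have h7 : -Z - M * Q * Z = -((P + M) * (Q * Z)) := by
        rw [Matrix.add_mul, ← Matrix.mul_assoc, ← Matrix.mul_assoc, hPQ, Matrix.one_mul, neg_add]
        abel
      rw [h7, h4, Matrix.smul_mul, Matrix.one_mul, neg_smul]
    have h6 : (M * Q).map (PowerSeries.derivative E) = M * Q * ((-2 : PowerSeries E) • (Z * R * Q)) := by
      rw [h3, h5, Matrix.smul_mul, Matrix.mul_smul]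
      congr 1
      calc Q * Z * Q = Q * Z * Q * 1 := by rw [Matrix.mul_one]
        _ = Q * (Z * Q) * (M * R) := by rw [hMR]; simp only [Matrix.mul_assoc]
        _ = Q * (Q * Z) * (M * R) := by rw [hZQ]
        _ = Q * Q * (Z * M) * R := by simp only [Matrix.mul_assoc]
        _ = Q * Q * (M * Z) * R := by rw [hZM]
        _ = Q * (Q * M) * (Z * R) := by simp only [Matrix.mul_assoc]
        _ = Q * (M * Q) * (Z * R) := by rw [hMQ]
        _ = (Q * M) * (Q * Z) * R := by simp only [Matrix.mul_assoc]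
        _ = (M * Q) * (Z * Q) * R := by rw [hMQ, hZQ]
        _ = M * Q * (Z * (Q * R)) := by simp only [Matrix.mul_assoc]
        _ = M * Q * (Z * (R * Q)) := by rw [hRQ]
        _ = M * Q * (Z * R * Q) := by simp only [Matrix.mul_assoc]
    intro i j
    exact congrFun (congrFun h6 i) j
  · -- the logarithmic derivative is orthogonal
    intro f hf
    refine lin_orth hA hdet (fun X hX => hlie hX f hf) (C.comp ι) ?_
    obtain ⟨B, hB⟩ : ∃ B : Matrix (Fin n) (Fin n) (PowerSeries E), B = A.map (C.comp ι) := ⟨_, rfl⟩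
    rw [← hB]
    have hZB : Z * B = -(B * Zᵀ) := by
      have h1 := congrArg (fun N : Matrix (Fin n) (Fin n) E => N.map C) hY
      have h2 : (Y * A.map ι + A.map ι * Yᵀ).map C = Z * B + B * Zᵀ := by
        rw [Matrix.map_add _ (map_add _), Matrix.map_mul, Matrix.map_mul, hZ, hB]
        rfl
      have h3 : (0 : Matrix (Fin n) (Fin n) E).map C = 0 := by
        ext1 i j
        exact map_zero C
      have h4 : Z * B + B * Zᵀ = 0 := h2.symm.trans (h1.trans h3)
      exact eq_neg_of_add_eq_zero_left h4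
    have hPB : P * B = B * Mᵀ := by
      rw [hP, hM, Matrix.add_mul, Matrix.one_mul, Matrix.smul_mul, hZB, Matrix.transpose_sub, Matrix.transpose_one, Matrix.transpose_smul, Matrix.mul_sub, Matrix.mul_one,
        Matrix.mul_smul, smul_neg, sub_eq_add_neg]
    have hMB : M * B = B * Pᵀ := by
      rw [hP, hM, Matrix.sub_mul, Matrix.one_mul, Matrix.smul_mul, hZB, Matrix.transpose_add, Matrix.transpose_one, Matrix.transpose_smul, Matrix.mul_add, Matrix.mul_one,
        Matrix.mul_smul, smul_neg, sub_neg_eq_add]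
    have hQB : Q * B = B * Rᵀ := by
      have h1 : Mᵀ * Rᵀ = 1 := by rw [← Matrix.transpose_mul, hRM, Matrix.transpose_one]
      calc Q * B = Q * B * (Mᵀ * Rᵀ) := by rw [h1, Matrix.mul_one]
        _ = Q * (B * Mᵀ) * Rᵀ := by simp only [Matrix.mul_assoc]
        _ = (Q * P) * B * Rᵀ := by rw [← hPB]; simp only [Matrix.mul_assoc]
        _ = B * Rᵀ := by rw [hQP, Matrix.one_mul]
    have hRB : R * B = B * Qᵀ := by
      have h1 : Pᵀ * Qᵀ = 1 := by rw [← Matrix.transpose_mul, hQP, Matrix.transpose_one]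
      calc R * B = R * B * (Pᵀ * Qᵀ) := by rw [h1, Matrix.mul_one]
        _ = R * (B * Pᵀ) * Qᵀ := by simp only [Matrix.mul_assoc]
        _ = (R * M) * B * Qᵀ := by rw [← hMB]; simp only [Matrix.mul_assoc]
        _ = B * Qᵀ := by rw [hRM, Matrix.one_mul]
    have h1 : Z * R * Q * B = -(B * (Z * R * Q)ᵀ) := by
      have h2 : Z * R * Q = Q * R * Z := by
        rw [hZR, Matrix.mul_assoc, hZQ, ← Matrix.mul_assoc, hRQ]
      calc Z * R * Q * B = Z * (R * (Q * B)) := by simp only [Matrix.mul_assoc]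
        _ = Z * (R * B) * Rᵀ := by rw [hQB]; simp only [Matrix.mul_assoc]
        _ = Z * B * (Qᵀ * Rᵀ) := by rw [hRB]; simp only [Matrix.mul_assoc]
        _ = -(B * (Zᵀ * (Qᵀ * Rᵀ))) := by rw [hZB, Matrix.neg_mul]; simp only [Matrix.mul_assoc]
        _ = -(B * (Z * R * Q)ᵀ) := by
            rw [← Matrix.transpose_mul R Q, ← Matrix.transpose_mul (R * Q) Z, hRQ, ← h2]
    rw [Matrix.smul_mul, h1, Matrix.transpose_smul, Matrix.mul_smul, smul_neg, neg_add_cancel]

/-- **The Cayley transforms are in the group.** -/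
theorem cayley_mem (𝒢 : AlgGroup n) {A : Matrix (Fin n) (Fin n) ℚ} (hA : Aᵀ = A) (hdet : A.det ≠ 0) (hlie : orthLie ℚ A ≤ lieAlg 𝒢)
    {E : Type} [Field E] [CharZero E] (ι : ℚ →+* E) {g : Matrix (Fin n) (Fin n) E} (hg : g * A.map ι * gᵀ = A.map ι)
    (hg1 : (1 + g).det ≠ 0) : 𝒢.IsPoint ι g := by
  classical
  have hAd : (A.map ι).det ≠ 0 := by
    have h1 : (A.map ι).det = ι A.det := (RingHom.map_det ι A).symm
    rw [h1]
    exact (map_ne_zero ι).2 hdet
  have hgu : IsUnit g := by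
    rw [Matrix.isUnit_iff_isUnit_det, isUnit_iff_ne_zero]
    intro h3
    have h4 := congrArg Matrix.det hg
    rw [det_mul, det_mul, h3, zero_mul, zero_mul] at h4
    exact hAd h4.symm
  refine ⟨hgu, fun f hf => ?_⟩
  have hPu : IsUnit (1 + g).det := IsUnit.mk0 _ hg1
  set Y : Matrix (Fin n) (Fin n) E := (1 + g)⁻¹ * (1 - g) with hYdef
  have hPY : (1 + g) * Y = 1 - g := by rw [hYdef, ← Matrix.mul_assoc, Matrix.mul_nonsing_inv _ hPu, Matrix.one_mul]
  have hY : Y * A.map ι + A.map ι * Yᵀ = 0 := by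
    obtain ⟨B, hB⟩ : ∃ B, B = A.map ι := ⟨_, rfl⟩
    rw [← hB] at hg ⊢
    have h1 : (1 + g) * (Y * B + B * Yᵀ) * (1 + g)ᵀ = 0 := by
      have h2 : Yᵀ * (1 + g)ᵀ = (1 - g)ᵀ := by rw [← Matrix.transpose_mul, hPY]
      have h3 : (1 + g) * (Y * B + B * Yᵀ) * (1 + g)ᵀ = ((1 + g) * Y) * B * (1 + g)ᵀ + (1 + g) * B * (Yᵀ * (1 + g)ᵀ) := by
        rw [Matrix.mul_add, Matrix.add_mul]
        simp only [Matrix.mul_assoc]
      rw [h3, h2, hPY, Matrix.transpose_add, Matrix.transpose_sub, Matrix.transpose_one]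
      have h4 : (1 - g) * B * (1 + gᵀ) + (1 + g) * B * (1 - gᵀ) = (2 : E) • (B - g * B * gᵀ) := by
        simp only [Matrix.sub_mul, Matrix.add_mul, Matrix.mul_add, Matrix.mul_sub, Matrix.one_mul, Matrix.mul_one, two_smul]
        abel
      rw [h4, hg, sub_self, smul_zero]
    have hPt : IsUnit ((1 + g)ᵀ).det := by rw [Matrix.det_transpose]; exact hPu
    have h2 := congrArg (fun M => (1 + g)⁻¹ * M * ((1 + g)ᵀ)⁻¹) h1
    simp only [Matrix.mul_zero, Matrix.zero_mul, ← Matrix.mul_assoc, Matrix.nonsing_inv_mul _ hPu, Matrix.one_mul] at h2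
    rw [Matrix.mul_assoc, Matrix.mul_nonsing_inv _ hPt, Matrix.mul_one] at h2
    exact h2
  obtain ⟨γ, hγ, hev⟩ := cayley_curve 𝒢 hA hdet hlie ι hY
  -- the polynomial curve
  obtain ⟨P, hP⟩ : ∃ P : Matrix (Fin n) (Fin n) (Polynomial E), P = 1 + (Polynomial.X : Polynomial E) • Y.map (Polynomial.C (R := E)) := ⟨_, rfl⟩
  obtain ⟨M, hM⟩ : ∃ M : Matrix (Fin n) (Fin n) (Polynomial E), M = 1 - (Polynomial.X : Polynomial E) • Y.map (Polynomial.C (R := E)) := ⟨_, rfl⟩
  let φ : Polynomial E →+* PowerSeries E := Polynomial.coeToPowerSeries.ringHom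
  let ψ : Polynomial E →+* E := Polynomial.evalRingHom 1
  have hone : ∀ {S S' : Type} [CommRing S] [CommRing S'] (θ : S →+* S'), (1 : Matrix (Fin n) (Fin n) S).map θ = 1 := by
    intro S S' _ _ θ
    exact Matrix.map_one _ (map_zero θ) (map_one θ)
  have hφP : P.map φ = 1 + (PowerSeries.X : PowerSeries E) • Y.map (PowerSeries.C (R := E)) := by
    rw [hP, Matrix.map_add _ (map_add φ), hone φ]
    congr 1
    ext1 i j
    rw [Matrix.map_apply, Matrix.smul_apply, smul_eq_mul, map_mul, Matrix.smul_apply, smul_eq_mul]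
    show ((Polynomial.X : Polynomial E) : PowerSeries E) * ((Polynomial.C (Y i j) : Polynomial E) : PowerSeries E) = _
    rw [Polynomial.coe_X, Polynomial.coe_C]
    rfl
  have hφM : M.map φ = 1 - (PowerSeries.X : PowerSeries E) • Y.map (PowerSeries.C (R := E)) := by
    rw [hM, Matrix.map_sub _ (map_sub φ), hone φ]
    congr 1
    ext1 i j
    rw [Matrix.map_apply, Matrix.smul_apply, smul_eq_mul, map_mul, Matrix.smul_apply, smul_eq_mul]
    show ((Polynomial.X : Polynomial E) : PowerSeries E) * ((Polynomial.C (Y i j) : Polynomial E) : PowerSeries E) = _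
    rw [Polynomial.coe_X, Polynomial.coe_C]
    rfl
  have hψP : P.map ψ = 1 + Y := by
    rw [hP, Matrix.map_add _ (map_add ψ), hone ψ]
    congr 1
    ext1 i j
    rw [Matrix.map_apply, Matrix.smul_apply, smul_eq_mul, map_mul]
    show Polynomial.eval 1 Polynomial.X * Polynomial.eval 1 (Polynomial.C (Y i j)) = Y i j
    rw [Polynomial.eval_X, Polynomial.eval_C, one_mul]
  have hψM : M.map ψ = 1 - Y := by
    rw [hM, Matrix.map_sub _ (map_sub ψ), hone ψ]
    congr 1
    ext1 i j
    rw [Matrix.map_apply, Matrix.smul_apply, smul_eq_mul, map_mul]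
    show Polynomial.eval 1 Polynomial.X * Polynomial.eval 1 (Polynomial.C (Y i j)) = Y i j
    rw [Polynomial.eval_X, Polynomial.eval_C, one_mul]
  -- the homogenised value
  obtain ⟨h, hh⟩ : ∃ h, h = homog ((Polynomial.C (R := E)).comp ι) P.det (M * P.adjugate) f := ⟨_, rfl⟩
  have h1 : φ h = 0 := by
    rw [hh, homog_map]
    have e1 : φ.comp ((Polynomial.C (R := E)).comp ι) = (PowerSeries.C (R := E)).comp ι := by
      refine RingHom.ext fun q => ?_
      show ((Polynomial.C (ι q) : Polynomial E) : PowerSeries E) = PowerSeries.C (ι q)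
      exact Polynomial.coe_C _
    have e2 : (M * P.adjugate).map φ = φ P.det • γ := by
      rw [Matrix.map_mul, hφM, ← hγ]
      have e3 : P.adjugate.map φ = (P.map φ).adjugate := RingHom.map_adjugate φ P
      rw [e3, hφP, Matrix.mul_assoc, Matrix.mul_adjugate, Matrix.mul_smul, Matrix.mul_one, ← hφP]
      congr 1
      exact (RingHom.map_det φ P).symm
    rw [e1, e2, homog_eq, hev f hf, mul_zero]
  have h2 : h = 0 := Polynomial.coe_injective E (by
    rw [Polynomial.coe_zero]
    exact h1)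
  have h3 : ψ h = 0 := by rw [h2, map_zero]
  rw [hh, homog_map] at h3
  have e1 : ψ.comp ((Polynomial.C (R := E)).comp ι) = ι := by
    ext q
    show Polynomial.eval 1 (Polynomial.C (ι q)) = ι q
    exact Polynomial.eval_C
  have hMg : 1 - Y = g * (1 + Y) := by
    have h4 : (1 + g) * Y = Y + g * Y := by rw [Matrix.add_mul, Matrix.one_mul]
    rw [h4] at hPY
    rw [Matrix.mul_add, Matrix.mul_one]
    have h5 : g * Y = 1 - g - Y := by rw [← hPY]; abel
    rw [h5]
    abel
  have e2 : (M * P.adjugate).map ψ = ψ P.det • g := by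
    rw [Matrix.map_mul, hψM, hMg]
    have e3 : P.adjugate.map ψ = (P.map ψ).adjugate := RingHom.map_adjugate ψ P
    rw [e3, hψP, Matrix.mul_assoc, Matrix.mul_adjugate, Matrix.mul_smul, Matrix.mul_one, ← hψP]
    congr 1
    exact (RingHom.map_det ψ P).symm
  rw [e1, e2, homog_eq] at h3
  refine (mul_eq_zero.1 h3).resolve_left (pow_ne_zero _ ?_)
  have e4 : ψ P.det = (1 + Y).det := by
    rw [← hψP]
    exact RingHom.map_det ψ P
  rw [e4]
  intro h5
  have h6 : (1 + g) * (1 + Y) = (2 : E) • (1 : Matrix (Fin n) (Fin n) E) := by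
    rw [Matrix.mul_add, Matrix.mul_one, hPY, two_smul]
    abel
  have h7 := congrArg Matrix.det h6
  rw [Matrix.det_mul, h5, mul_zero, Matrix.det_smul, Matrix.det_one, mul_one] at h7
  exact pow_ne_zero _ two_ne_zero h7.symm

end

end Pool.Agent.X120.OR
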