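import Pool.Agent.X120.NF.Aj
import Pool.Agent.X120.BM.Mt

/-!
# Rational Lie algebras which contain the Hodge operator, for orthogonal forms
-/

set_option autoImplicit false
set_option linter.unusedSectionVars false

open Matrix

namespace Pool.Agent.X120.OR

open Pool.Agent.X120.BM Pool.Agent.X120.NF

section
variable {n w : ℕ} {A : Matrix (Fin n) (Fin n) ℚ} {H : ℕ → Submodule ℂ (Fin n → ℂ)}

/-- the wedge product of two vectors -/
def wedge {K : Type} [CommRing K] (x y : Fin n → K) : Matrix (Fin n) (Fin n) K := Matrix.vecMulVec x y - Matrix.vecMulVec y x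

theorem form_ext (hH : IsPolarized w A H) {M : Matrix (Fin n) (Fin n) ℂ}
    (h : ∀ p ≤ w, ∀ p' ≤ w, ∀ x ∈ H p, ∀ y ∈ H p', x ⬝ᵥ (M *ᵥ y) = 0) : M = 0 := by
  have h1 : ∀ p' ≤ w, ∀ y ∈ H p', M *ᵥ y = 0 := by
    intro p' hp' y hy
    have h2 : ∀ x : Fin n → ℂ, x ⬝ᵥ (M *ᵥ y) = 0 := by
      intro x
      have hx : x ∈ (⨆ p : {p : ℕ // p ≤ w}, H p) := by rw [hH.span]; exact Submodule.mem_top
      induction hx using Submodule.iSup_induction' with
      | mem p x hx => exact h p p.2 p' hp' x hx y hy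
      | zero => exact zero_dotProduct _
      | add x x' _ _ hx hx' => rw [add_dotProduct, hx, hx', add_zero]
    funext i
    have := h2 (Pi.single i 1)
    rwa [single_one_dotProduct] at this
  have h2 : ∀ y : Fin n → ℂ, M *ᵥ y = 0 := by
    intro y
    have hy : y ∈ (⨆ p : {p : ℕ // p ≤ w}, H p) := by rw [hH.span]; exact Submodule.mem_top
    induction hy using Submodule.iSup_induction' with
    | mem p x hx => exact h1 p p.2 x hx
    | zero => exact Matrix.mulVec_zero _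
    | add x x' _ _ hx hx' => rw [Matrix.mulVec_add, hx, hx', add_zero]
  refine Matrix.ext_of_mulVec_single fun j => ?_
  rw [h2, Matrix.zero_mulVec]

/-- the form relation of the Hodge operator -/
theorem op_form (hH : IsPolarized w A H) {Φ : Matrix (Fin n) (Fin n) ℂ} (hop : IsHodgeOperator w H Φ) :
    Φ * toC A + toC A * Φᵀ = (w : ℂ) • toC A := by
  rw [← sub_eq_zero]
  refine form_ext hH fun p hp p' hp' x hx y hy => ?_
  have h1 : x ⬝ᵥ ((Φ * toC A) *ᵥ y) = (p : ℂ) * (x ⬝ᵥ (toC A *ᵥ y)) := by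
    rw [← Matrix.mulVec_mulVec, Matrix.dotProduct_mulVec, hop p hp x hx, smul_dotProduct, smul_eq_mul]
  have h2 : x ⬝ᵥ ((toC A * Φᵀ) *ᵥ y) = (p' : ℂ) * (x ⬝ᵥ (toC A *ᵥ y)) := by
    rw [← Matrix.mulVec_mulVec, Matrix.mulVec_transpose, hop p' hp' y hy, Matrix.mulVec_smul, dotProduct_smul, smul_eq_mul]
  rw [Matrix.sub_mulVec, Matrix.add_mulVec, Matrix.smul_mulVec, dotProduct_sub, dotProduct_add, dotProduct_smul, h1, h2, smul_eq_mul]
  by_cases hpp : p + p' = w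
  · have h3 : (p : ℂ) + (p' : ℂ) = (w : ℂ) := by exact_mod_cast congrArg (fun a : ℕ => (a : ℂ)) hpp
    linear_combination (x ⬝ᵥ (toC A *ᵥ y)) * h3
  · rw [hH.orth p hp p' hp' hpp x hx y hy]
    ring

variable {Φ : Matrix (Fin n) (Fin n) ℂ}

/-- the action on the forms -/
def act (Φ K : Matrix (Fin n) (Fin n) ℂ) : Matrix (Fin n) (Fin n) ℂ := Φ * K + K * Φᵀ

theorem ev_act (hop : IsHodgeOperator w H Φ) {K : Matrix (Fin n) (Fin n) ℂ} {p p' : ℕ} (hp : p ≤ w) (hp' : p' ≤ w)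
    {x y : Fin n → ℂ} (hx : x ∈ H p) (hy : y ∈ H p') :
    x ⬝ᵥ (act Φ K *ᵥ y) = ((p + p' : ℕ) : ℂ) * (x ⬝ᵥ (K *ᵥ y)) := by
  unfold act
  rw [Matrix.add_mulVec, dotProduct_add, ← Matrix.mulVec_mulVec, Matrix.dotProduct_mulVec, hop p hp x hx, smul_dotProduct, smul_eq_mul,
    ← Matrix.mulVec_mulVec, Matrix.mulVec_transpose, hop p' hp' y hy, Matrix.mulVec_smul, dotProduct_smul, smul_eq_mul]
  push_cast
  ring

/-- the projection to an eigenspace -/
def proj (Φ K : Matrix (Fin n) (Fin n) ℂ) : List ℕ → Matrix (Fin n) (Fin n) ℂ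
  | [] => K
  | m :: l => act Φ (proj Φ K l) - (m : ℂ) • proj Φ K l

theorem ev_proj (hop : IsHodgeOperator w H Φ) {K : Matrix (Fin n) (Fin n) ℂ} {p p' : ℕ} (hp : p ≤ w) (hp' : p' ≤ w)
    {x y : Fin n → ℂ} (hx : x ∈ H p) (hy : y ∈ H p') (l : List ℕ) :
    x ⬝ᵥ (proj Φ K l *ᵥ y) = (l.map fun m : ℕ => ((p + p' : ℕ) : ℂ) - (m : ℂ)).prod * (x ⬝ᵥ (K *ᵥ y)) := by
  induction l with
  | nil =>
    rw [List.map_nil, List.prod_nil, one_mul]
    rfl
  | cons m l ih =>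
    rw [List.map_cons, List.prod_cons]
    show x ⬝ᵥ ((act Φ (proj Φ K l) - (m : ℂ) • proj Φ K l) *ᵥ y) = _
    rw [Matrix.sub_mulVec, dotProduct_sub, ev_act hop hp hp' hx hy, Matrix.smul_mulVec, dotProduct_smul, ih, smul_eq_mul]
    ring

/-- the rational skew matrices `S` with `A S` in `𝔪` -/
def M₀ (A : Matrix (Fin n) (Fin n) ℚ) (𝔪 : Submodule ℚ (Matrix (Fin n) (Fin n) ℚ)) : Submodule ℚ (Matrix (Fin n) (Fin n) ℚ) where
  carrier := {S | Sᵀ = -S ∧ A * S ∈ 𝔪}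
  add_mem' := fun {a b} ha hb => ⟨by rw [Matrix.transpose_add, ha.1, hb.1, neg_add], by rw [Matrix.mul_add]; exact 𝔪.add_mem ha.2 hb.2⟩
  zero_mem' := ⟨by rw [Matrix.transpose_zero, neg_zero], by rw [Matrix.mul_zero]; exact 𝔪.zero_mem⟩
  smul_mem' := fun c {a} ha => ⟨by rw [Matrix.transpose_smul, ha.1, smul_neg], by rw [Matrix.mul_smul]; exact 𝔪.smul_mem c ha.2⟩

/-- the skew forms which annihilate `M₀` -/
def InK (A : Matrix (Fin n) (Fin n) ℚ) (𝔪 : Submodule ℚ (Matrix (Fin n) (Fin n) ℚ)) (K : Matrix (Fin n) (Fin n) ℂ) : Prop :=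
  Kᵀ = -K ∧ ∀ S ∈ M₀ A 𝔪, Matrix.trace (K * toC S) = 0

theorem toC_alg (S : Matrix (Fin n) (Fin n) ℚ) : toC S = S.map (algebraMap ℚ ℂ) := by
  ext a b
  exact (eq_ratCast (algebraMap ℚ ℂ) _).symm

theorem inK_ext {𝔪 : Submodule ℚ (Matrix (Fin n) (Fin n) ℚ)} {K : Matrix (Fin n) (Fin n) ℂ} (hK : InK A 𝔪 K)
    {Y : Matrix (Fin n) (Fin n) ℂ} (hY : Y ∈ extend₀ ℂ (M₀ A 𝔪)) : Matrix.trace (K * Y) = 0 := by
  unfold extend₀ at hY
  induction hY using Submodule.span_induction with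
  | mem x hx =>
    obtain ⟨S, hS, rfl⟩ := hx
    have := hK.2 S hS
    rwa [toC_alg] at this
  | zero => rw [Matrix.mul_zero, Matrix.trace_zero]
  | add x y _ _ hx hy => rw [Matrix.mul_add, Matrix.trace_add, hx, hy, add_zero]
  | smul q x _ hx => rw [Matrix.mul_smul, Matrix.trace_smul, hx, smul_zero]

theorem map_sub_rat (φ : ℂ →ₗ[ℚ] ℚ) (Z : Matrix (Fin n) (Fin n) ℂ) (c : ℚ) :
    (Z - (c : ℂ) • 1).map φ = Z.map φ - (c * φ 1) • 1 := by
  ext i j
  rw [Matrix.map_apply, Matrix.sub_apply, Matrix.sub_apply, Matrix.map_apply, Matrix.smul_apply, Matrix.smul_apply, map_sub]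
  congr 1
  by_cases hij : i = j
  · subst hij
    rw [Matrix.one_apply_eq, Matrix.one_apply_eq, smul_eq_mul, smul_eq_mul, mul_one, mul_one]
    have h1 : (c : ℂ) = c • (1 : ℂ) := by rw [Rat.smul_def, mul_one]
    rw [h1, map_smul, smul_eq_mul]
  · rw [Matrix.one_apply_ne hij, Matrix.one_apply_ne hij, smul_zero, smul_zero, map_zero]

/-- the forms are stable under the operator -/
theorem inK_act (hH : IsPolarized w A H) (hop : IsHodgeOperator w H Φ) {𝔪 : Submodule ℚ (Matrix (Fin n) (Fin n) ℚ)} {c : ℚ}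
    (hlie : IsLie₀ 𝔪) (hΦ : Φ - (c : ℂ) • 1 ∈ extend₀ ℂ 𝔪) {K : Matrix (Fin n) (Fin n) ℂ} (hK : InK A 𝔪 K) (m : ℕ) :
    InK A 𝔪 (act Φ K - (m : ℂ) • K) := by
  refine ⟨?_, fun S hS => ?_⟩
  · unfold act
    rw [Matrix.transpose_sub, Matrix.transpose_add, Matrix.transpose_mul, Matrix.transpose_mul, Matrix.transpose_transpose,
      Matrix.transpose_smul, hK.1, Matrix.neg_mul, Matrix.mul_neg, smul_neg]
    abel
  have hY : toC S * Φ + Φᵀ * toC S - (w : ℂ) • toC S ∈ extend₀ ℂ (M₀ A 𝔪) := by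
    refine mem_of_phM fun φ => ?_
    have h1 : (toC S * Φ + Φᵀ * toC S - (w : ℂ) • toC S).map φ = S * Φ.map φ + (Φ.map φ)ᵀ * S - (w * φ 1) • S := by
      have e1 : (toC S * Φ).map φ = S * Φ.map φ := by rw [toC_alg]; exact phM_mulL φ _ _
      have e2 : (Φᵀ * toC S).map φ = (Φ.map φ)ᵀ * S := by rw [toC_alg]; exact phM_mulR φ _ _
      have e3 : ((w : ℂ) • toC S).map φ = (w * φ 1) • S := by
        ext a b
        show φ ((w : ℂ) * ((S a b : ℚ) : ℂ)) = w * φ 1 * S a b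
        have e4 : (w : ℂ) * ((S a b : ℚ) : ℂ) = (w * S a b : ℚ) • (1 : ℂ) := by
          rw [Rat.smul_def]
          push_cast
          ring
        rw [e4, map_smul, smul_eq_mul]
        ring
      rw [← e1, ← e2, ← e3]
      ext a b
      show φ (_ + _ - _) = φ _ + φ _ - φ _
      rw [map_sub, map_add]
    rw [h1]
    -- the relation of the form
    have h2 : Φ.map φ * A + A * (Φ.map φ)ᵀ = (w * φ 1) • A := by
      have h3 := congrArg (fun M : Matrix (Fin n) (Fin n) ℂ => M.map φ) (op_form hH hop)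
      have e1 : (Φ * toC A).map φ = Φ.map φ * A := by rw [toC_alg]; exact phM_mulR φ _ _
      have e2 : (toC A * Φᵀ).map φ = A * (Φ.map φ)ᵀ := by rw [toC_alg]; exact phM_mulL φ _ _
      have e3 : ((w : ℂ) • toC A).map φ = (w * φ 1) • A := by
        ext a b
        show φ ((w : ℂ) * ((A a b : ℚ) : ℂ)) = w * φ 1 * A a b
        have e4 : (w : ℂ) * ((A a b : ℚ) : ℂ) = (w * A a b : ℚ) • (1 : ℂ) := by
          rw [Rat.smul_def]
          push_cast
          ring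
        rw [e4, map_smul, smul_eq_mul]
        ring
      rw [← e1, ← e2, ← e3, ← h3]
      ext a b
      show φ _ + φ _ = φ (_ + _)
      rw [map_add]
    refine ⟨?_, ?_⟩
    · rw [Matrix.transpose_sub, Matrix.transpose_add, Matrix.transpose_mul, Matrix.transpose_mul, Matrix.transpose_transpose,
        Matrix.transpose_smul, hS.1, Matrix.neg_mul, Matrix.mul_neg, smul_neg]
      abel
    · have h3 := hlie _ hS.2 _ (phM_mem hΦ φ)
      rw [map_sub_rat, Matrix.mul_sub, Matrix.sub_mul, Matrix.mul_smul, Matrix.smul_mul, Matrix.mul_one, Matrix.one_mul,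
        sub_sub_sub_cancel_right] at h3
      have h4 : A * (S * Φ.map φ + (Φ.map φ)ᵀ * S - (w * φ 1) • S) = A * S * Φ.map φ - Φ.map φ * (A * S) := by
        rw [Matrix.mul_sub, Matrix.mul_add, ← Matrix.mul_assoc, ← Matrix.mul_assoc, ← Matrix.mul_assoc, Matrix.mul_smul, ← Matrix.smul_mul, ← h2, Matrix.add_mul]
        abel
      rw [h4]
      exact h3
  have h1 := inK_ext hK hY
  have h2 : Matrix.trace (act Φ K * toC S) = Matrix.trace (K * (toC S * Φ + Φᵀ * toC S)) := by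
    unfold act
    rw [Matrix.add_mul, Matrix.mul_add, Matrix.trace_add, Matrix.trace_add, Matrix.mul_assoc, Matrix.trace_mul_comm, Matrix.mul_assoc,
      Matrix.mul_assoc]
  rw [Matrix.mul_sub, Matrix.trace_sub, Matrix.mul_smul, Matrix.trace_smul, hK.2 S hS, smul_zero, sub_zero] at h1
  rw [Matrix.sub_mul, Matrix.trace_sub, h2, h1, Matrix.smul_mul, Matrix.trace_smul, hK.2 S hS, smul_zero, sub_zero]

theorem inK_proj (hH : IsPolarized w A H) (hop : IsHodgeOperator w H Φ) {𝔪 : Submodule ℚ (Matrix (Fin n) (Fin n) ℚ)} {c : ℚ}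
    (hlie : IsLie₀ 𝔪) (hΦ : Φ - (c : ℂ) • 1 ∈ extend₀ ℂ 𝔪) {K : Matrix (Fin n) (Fin n) ℂ} (hK : InK A 𝔪 K) (l : List ℕ) :
    InK A 𝔪 (proj Φ K l) := by
  induction l with
  | nil => exact hK
  | cons m l ih => exact inK_act hH hop hlie hΦ ih m

/-- the value of a skew form depends on the wedge product only -/
theorem ev_wedge {K : Matrix (Fin n) (Fin n) ℂ} (hK : Kᵀ = -K) (x y : Fin n → ℂ) :
    Matrix.trace (K * wedge x y) = -2 * (x ⬝ᵥ (K *ᵥ y)) := by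
  have h1 : ∀ x y : Fin n → ℂ, Matrix.trace (K * Matrix.vecMulVec x y) = y ⬝ᵥ (K *ᵥ x) := by
    intro x y
    rw [Matrix.mul_vecMulVec, Matrix.trace_vecMulVec, dotProduct_comm]
  have h2 : y ⬝ᵥ (K *ᵥ x) = -(x ⬝ᵥ (K *ᵥ y)) := by
    rw [Matrix.dotProduct_mulVec, ← Matrix.mulVec_transpose, hK, Matrix.neg_mulVec, neg_dotProduct, dotProduct_comm]
  unfold wedge
  rw [Matrix.mul_sub, Matrix.trace_sub, h1, h1, h2]
  ring

/-- **The Lie algebra contains the orthogonal Lie algebra.** -/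
theorem orth_generic {p₁ p₂ : ℕ} (hA : Aᵀ = A) (hH : IsPolarized w A H) {x₁ x₂ : Fin n → ℂ} (hx₁ : x₁ ∈ H p₁) (hx₂ : x₂ ∈ H p₂)
    (hp₁ : p₁ ≤ w) (hp₂ : p₂ ≤ w) (hs : w < p₁ + p₂) (h01 : x₁ ≠ 0) (h02 : x₂ ≠ 0)
    (htop : ∀ p ≤ w, ∀ p' ≤ w, p + p' = p₁ + p₂ → ∀ x ∈ H p, ∀ y ∈ H p', ∃ c : ℂ, wedge x y = c • wedge x₁ x₂)
    (hG : ∀ T : Matrix (Fin n) (Fin n) ℚ, Tᵀ = -T → x₁ ⬝ᵥ (toC T *ᵥ x₂) = 0 → T = 0)
    (hop : IsHodgeOperator w H Φ) {𝔪 : Submodule ℚ (Matrix (Fin n) (Fin n) ℚ)} {e : ℚ}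
    (hlie : IsLie₀ 𝔪) (hΦ : Φ - (e : ℂ) • 1 ∈ extend₀ ℂ 𝔪) {X : Matrix (Fin n) (Fin n) ℚ} (hX : X * A + A * Xᵀ = 0) : X ∈ 𝔪 := by
  classical
  have hAd := hH.nondeg
  have hAu : IsUnit A.det := isUnit_iff_ne_zero.2 hAd
  have hAi : A * A⁻¹ = 1 := Matrix.mul_nonsing_inv _ hAu
  have hAi' : A⁻¹ * A = 1 := Matrix.nonsing_inv_mul _ hAu
  have hAit : (A⁻¹)ᵀ = A⁻¹ := by rw [Matrix.transpose_nonsing_inv, hA]
  -- elements of the orthogonal Lie algebra
  have hskew : ∀ X : Matrix (Fin n) (Fin n) ℚ, X * A + A * Xᵀ = 0 → (A⁻¹ * X)ᵀ = -(A⁻¹ * X) ∧ A * (A⁻¹ * X) = X := by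
    intro X hX
    refine ⟨?_, by rw [← Matrix.mul_assoc, hAi, Matrix.one_mul]⟩
    have h1 : A * Xᵀ = -(X * A) := by
      rw [add_comm] at hX
      exact eq_neg_of_add_eq_zero_left hX
    rw [Matrix.transpose_mul, hAit]
    calc Xᵀ * A⁻¹ = (A⁻¹ * A) * Xᵀ * A⁻¹ := by rw [hAi', Matrix.one_mul]
      _ = A⁻¹ * (A * Xᵀ) * A⁻¹ := by simp only [Matrix.mul_assoc]
      _ = -(A⁻¹ * X * (A * A⁻¹)) := by
          rw [h1, Matrix.mul_neg, Matrix.neg_mul]
          simp only [Matrix.mul_assoc]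
      _ = _ := by rw [hAi, Matrix.mul_one]
  by_contra hXn
  set S₀ := A⁻¹ * X with hS₀
  have hS₀n : S₀ ∉ M₀ A 𝔪 := by
    intro h
    apply hXn
    have := h.2
    rwa [(hskew X hX).2] at this
  -- a form which annihilates `M₀`
  obtain ⟨f, hf0, hf⟩ := Submodule.exists_le_ker_of_notMem hS₀n
  set K₀ : Matrix (Fin n) (Fin n) ℚ := Matrix.of fun a b => f (Matrix.single b a 1) with hK₀
  have hfK : ∀ S : Matrix (Fin n) (Fin n) ℚ, f S = Matrix.trace (K₀ * S) := by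
    intro S
    have h1 : f S = ∑ a, ∑ b, S a b * f (Matrix.single a b 1) := by
      conv_lhs => rw [Matrix.matrix_eq_sum_single S]
      rw [map_sum]
      refine Finset.sum_congr rfl fun a _ => ?_
      rw [map_sum]
      refine Finset.sum_congr rfl fun b _ => ?_
      rw [← smul_eq_mul, ← map_smul, Matrix.smul_single, smul_eq_mul, mul_one]
    rw [h1, Finset.sum_comm]
    show _ = ∑ b, ∑ a, K₀ b a * S a b
    refine Finset.sum_congr rfl fun b _ => Finset.sum_congr rfl fun a _ => ?_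
    rw [mul_comm]
    rfl
  set K₁ : Matrix (Fin n) (Fin n) ℚ := K₀ - K₀ᵀ with hK₁
  have hK₁t : K₁ᵀ = -K₁ := by
    rw [hK₁, Matrix.transpose_sub, Matrix.transpose_transpose, neg_sub]
  have hK₁S : ∀ S : Matrix (Fin n) (Fin n) ℚ, Sᵀ = -S → Matrix.trace (K₁ * S) = 2 * f S := by
    intro S hS
    have h1 : Matrix.trace (K₀ᵀ * S) = -Matrix.trace (K₀ * S) := by
      rw [← Matrix.trace_transpose, Matrix.transpose_mul, Matrix.transpose_transpose, hS, Matrix.neg_mul, Matrix.trace_neg,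
        Matrix.trace_mul_comm]
    rw [hK₁, Matrix.sub_mul, Matrix.trace_sub, h1, hfK]
    ring
  have hcastM : ∀ M N : Matrix (Fin n) (Fin n) ℚ, toC M * toC N = toC (M * N) := by
    intro M N
    rw [toC_alg, toC_alg, toC_alg, Matrix.map_mul]
  have htr : ∀ M : Matrix (Fin n) (Fin n) ℚ, Matrix.trace (toC M) = ((Matrix.trace M : ℚ) : ℂ) := by
    intro M
    show ∑ i, ((M i i : ℚ) : ℂ) = ((∑ i, M i i : ℚ) : ℂ)
    push_cast
    rfl
  have hK : InK A 𝔪 (toC K₁) := by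
    refine ⟨?_, fun S hS => ?_⟩
    · have h1 : (toC K₁)ᵀ = toC K₁ᵀ := rfl
      rw [h1, hK₁t]
      ext a b
      show ((-(K₁ a b) : ℚ) : ℂ) = -((K₁ a b : ℚ) : ℂ)
      push_cast
      rfl
    · rw [hcastM, htr, hK₁S S hS.1, LinearMap.mem_ker.1 (hf hS), mul_zero, Rat.cast_zero]
  have hK₁0 : K₁ ≠ 0 := by
    intro h
    have h1 := hK₁S S₀ (hskew X hX).1
    rw [h, Matrix.zero_mul, Matrix.trace_zero] at h1
    exact hf0 (by linarith)
  have hne : x₁ ⬝ᵥ (toC K₁ *ᵥ x₂) ≠ 0 := fun h => hK₁0 (hG K₁ hK₁t h)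
  -- the projection
  set l : List ℕ := (List.range (2 * w + 1)).filter (fun m => decide (m ≠ p₁ + p₂)) with hl
  set K' := proj Φ (toC K₁) l with hK'
  have hK'in : InK A 𝔪 K' := inK_proj hH hop hlie hΦ hK l
  have hc' : x₁ ⬝ᵥ (K' *ᵥ x₂) ≠ 0 := by
    rw [hK', ev_proj hop hp₁ hp₂ hx₁ hx₂]
    refine mul_ne_zero (List.prod_ne_zero ?_) hne
    intro h
    obtain ⟨m, hm, hm0⟩ := List.mem_map.1 h
    rw [hl, List.mem_filter] at hm
    have h1 : m ≠ p₁ + p₂ := by simpa using hm.2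
    apply h1
    have h2 : ((p₁ + p₂ : ℕ) : ℂ) = (m : ℂ) := sub_eq_zero.1 hm0
    exact_mod_cast h2.symm
  have hK'0 : ∀ p ≤ w, ∀ p' ≤ w, p + p' ≠ p₁ + p₂ → ∀ x ∈ H p, ∀ y ∈ H p', x ⬝ᵥ (K' *ᵥ y) = 0 := by
    intro p hp p' hp' hpp x hx y hy
    rw [hK', ev_proj hop hp hp' hx hy]
    have h1 : (l.map fun m : ℕ => ((p + p' : ℕ) : ℂ) - (m : ℂ)).prod = 0 := by
      refine List.prod_eq_zero (List.mem_map.2 ⟨p + p', ?_, sub_self _⟩)
      rw [hl, List.mem_filter, List.mem_range]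
      exact ⟨by omega, by simpa using hpp⟩
    rw [h1, zero_mul]
  -- the form given by the conjugates
  set y₁ : Fin n → ℂ := fun i => star (x₁ i) with hy₁
  set y₂ : Fin n → ℂ := fun i => star (x₂ i) with hy₂
  have hy₁H : y₁ ∈ H (w - p₁) := hH.conj p₁ hp₁ x₁ hx₁
  have hy₂H : y₂ ∈ H (w - p₂) := hH.conj p₂ hp₂ x₂ hx₂
  have hAt : (toC A)ᵀ = toC A := by
    show toC Aᵀ = toC A
    rw [hA]
  set K'' := toC A * wedge y₁ y₂ * toC A with hK''
  have hwt : (wedge y₁ y₂)ᵀ = -wedge y₁ y₂ := by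
    unfold wedge
    rw [Matrix.transpose_sub, Matrix.transpose_vecMulVec, Matrix.transpose_vecMulVec, neg_sub]
  have hK''t : K''ᵀ = -K'' := by
    rw [hK'', Matrix.transpose_mul, Matrix.transpose_mul, hAt, hwt, Matrix.neg_mul, Matrix.mul_neg, Matrix.mul_assoc]
  have hsymA : ∀ x y : Fin n → ℂ, x ⬝ᵥ (toC A *ᵥ y) = y ⬝ᵥ (toC A *ᵥ x) := by
    intro x y
    rw [Matrix.dotProduct_mulVec, ← Matrix.mulVec_transpose, hAt, dotProduct_comm]
  have hevK'' : ∀ x y : Fin n → ℂ, x ⬝ᵥ (K'' *ᵥ y) = (x ⬝ᵥ (toC A *ᵥ y₁)) * (y₂ ⬝ᵥ (toC A *ᵥ y)) -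
      (x ⬝ᵥ (toC A *ᵥ y₂)) * (y₁ ⬝ᵥ (toC A *ᵥ y)) := by
    intro x y
    have h1 : ∀ u v z : Fin n → ℂ, Matrix.vecMulVec u v *ᵥ z = (v ⬝ᵥ z) • u := by
      intro u v z
      funext i
      show ∑ j, u i * v j * z j = (v ⬝ᵥ z) * u i
      rw [dotProduct, Finset.sum_mul]
      exact Finset.sum_congr rfl fun j _ => by ring
    rw [hK'', ← Matrix.mulVec_mulVec, ← Matrix.mulVec_mulVec]
    unfold wedge
    rw [Matrix.sub_mulVec, h1, h1, Matrix.mulVec_sub, Matrix.mulVec_smul, Matrix.mulVec_smul, dotProduct_sub, dotProduct_smul,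
      dotProduct_smul, smul_eq_mul, smul_eq_mul]
    ring
  have hprop : (x₁ ⬝ᵥ (K' *ᵥ x₂)) • K'' - (x₁ ⬝ᵥ (K'' *ᵥ x₂)) • K' = 0 := by
    refine form_ext hH fun p hp p' hp' x hx y hy => ?_
    rw [Matrix.sub_mulVec, Matrix.smul_mulVec, Matrix.smul_mulVec, dotProduct_sub, dotProduct_smul, dotProduct_smul, smul_eq_mul, smul_eq_mul]
    by_cases hpp : p + p' = p₁ + p₂
    · obtain ⟨c, hc⟩ := htop p hp p' hp' hpp x hx y hy
      have h1 : ∀ {K : Matrix (Fin n) (Fin n) ℂ}, Kᵀ = -K → x ⬝ᵥ (K *ᵥ y) = c * (x₁ ⬝ᵥ (K *ᵥ x₂)) := by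
        intro K hK
        have h2 := ev_wedge hK x y
        rw [hc, Matrix.mul_smul, Matrix.trace_smul, ev_wedge hK, smul_eq_mul] at h2
        linear_combination (1 / 2 : ℂ) * h2
      rw [h1 hK''t, h1 hK'in.1]
      ring
    · rw [hK'0 p hp p' hp' hpp x hx y hy, mul_zero, sub_zero, hevK'']
      have h1 : (x ⬝ᵥ (toC A *ᵥ y₁)) * (y₂ ⬝ᵥ (toC A *ᵥ y)) = 0 := by
        by_cases h2 : p = p₁
        · rw [hH.orth (w - p₂) (Nat.sub_le _ _) p' hp' (by omega) y₂ hy₂H y hy, mul_zero]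
        · rw [hH.orth p hp (w - p₁) (Nat.sub_le _ _) (by omega) x hx y₁ hy₁H, zero_mul]
      have h3 : (x ⬝ᵥ (toC A *ᵥ y₂)) * (y₁ ⬝ᵥ (toC A *ᵥ y)) = 0 := by
        by_cases h2 : p = p₂
        · rw [hH.orth (w - p₁) (Nat.sub_le _ _) p' hp' (by omega) y₁ hy₁H y hy, mul_zero]
        · rw [hH.orth p hp (w - p₂) (Nat.sub_le _ _) (by omega) x hx y₂ hy₂H, zero_mul]
      rw [h1, h3, sub_zero, mul_zero]
  -- `M₀` is zero
  have hM₀ : ∀ S ∈ M₀ A 𝔪, S = 0 := by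
    intro S hS
    have h1 := congrArg (fun M => Matrix.trace (M * toC S)) hprop
    simp only [Matrix.sub_mul, Matrix.trace_sub, Matrix.smul_mul, Matrix.trace_smul, hK'in.2 S hS, mul_zero, sub_zero,
      Matrix.zero_mul, Matrix.trace_zero, smul_eq_mul] at h1
    have h2 : Matrix.trace (K'' * toC S) = 0 := (mul_eq_zero.1 h1).resolve_left hc'
    have h3 : Matrix.trace (K'' * toC S) = Matrix.trace (toC (A * S * A) * wedge y₁ y₂) := by
      rw [hK'', ← hcastM, ← hcastM, Matrix.mul_assoc (toC A * wedge y₁ y₂), Matrix.mul_assoc (toC A) (wedge y₁ y₂),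
        Matrix.trace_mul_comm, Matrix.mul_assoc, Matrix.trace_mul_comm]
    have hT : (A * S * A)ᵀ = -(A * S * A) := by
      rw [Matrix.transpose_mul, Matrix.transpose_mul, hA, hS.1, Matrix.neg_mul, Matrix.mul_neg, Matrix.mul_assoc]
    have hTC : (toC (A * S * A))ᵀ = -toC (A * S * A) := by
      show toC (A * S * A)ᵀ = _
      rw [hT]
      ext a b
      show ((-((A * S * A) a b) : ℚ) : ℂ) = -(((A * S * A) a b : ℚ) : ℂ)
      push_cast
      rfl
    rw [h3, ev_wedge hTC] at h2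
    have h4 : y₁ ⬝ᵥ (toC (A * S * A) *ᵥ y₂) = 0 := by
      rcases mul_eq_zero.1 h2 with h | h
      · norm_num at h
      · exact h
    have h5 : x₁ ⬝ᵥ (toC (A * S * A) *ᵥ x₂) = star (y₁ ⬝ᵥ (toC (A * S * A) *ᵥ y₂)) := by
      show ∑ i, x₁ i * ∑ j, (((A * S * A) i j : ℚ) : ℂ) * x₂ j = star (∑ i, star (x₁ i) * ∑ j, (((A * S * A) i j : ℚ) : ℂ) * star (x₂ j))
      rw [star_sum]
      refine Finset.sum_congr rfl fun i _ => ?_
      rw [star_mul', star_star, star_sum]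
      congr 1
      refine Finset.sum_congr rfl fun j _ => ?_
      rw [star_mul', star_star, star_ratCast]
    rw [h4, star_zero] at h5
    have h6 := hG _ hT h5
    have h7 : A⁻¹ * (A * S * A) * A⁻¹ = S := by
      rw [← Matrix.mul_assoc, ← Matrix.mul_assoc, hAi', Matrix.one_mul, Matrix.mul_assoc, hAi, Matrix.mul_one]
    rw [← h7, h6, Matrix.mul_zero, Matrix.zero_mul]
  -- the operator is rational
  have hrel : ∀ φ : ℂ →ₗ[ℚ] ℚ, φ 1 = 0 → Φ.map φ = 0 := by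
    intro φ hφ
    have h2 : Φ.map φ * A + A * (Φ.map φ)ᵀ = 0 := by
      have h3 := congrArg (fun M : Matrix (Fin n) (Fin n) ℂ => M.map φ) (op_form hH hop)
      have e1 : (Φ * toC A).map φ = Φ.map φ * A := by rw [toC_alg]; exact phM_mulR φ _ _
      have e2 : (toC A * Φᵀ).map φ = A * (Φ.map φ)ᵀ := by rw [toC_alg]; exact phM_mulL φ _ _
      have e3 : ((w : ℂ) • toC A).map φ = 0 := by
        ext a b
        show φ ((w : ℂ) * ((A a b : ℚ) : ℂ)) = 0
        have e4 : (w : ℂ) * ((A a b : ℚ) : ℂ) = (w * A a b : ℚ) • (1 : ℂ) := by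
          rw [Rat.smul_def]
          push_cast
          ring
        rw [e4, map_smul, hφ, smul_zero]
      rw [← e1, ← e2, ← e3, ← h3]
      ext a b
      show φ _ + φ _ = φ (_ + _)
      rw [map_add]
    obtain ⟨h3, h4⟩ := hskew _ h2
    have h5 := hM₀ (A⁻¹ * Φ.map φ) ⟨h3, by
      rw [h4]
      have h6 := phM_mem hΦ φ
      rwa [map_sub_rat, hφ, mul_zero, zero_smul, sub_zero] at h6⟩
    rw [← h4, h5, Matrix.mul_zero]
  have hrat : ∀ a b, ∃ q : ℚ, Φ a b = (q : ℂ) := by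
    intro a b
    by_contra hno
    have h1 : Φ a b ∉ Submodule.span ℚ {(1 : ℂ)} := by
      intro h
      obtain ⟨q, hq⟩ := Submodule.mem_span_singleton.1 h
      refine hno ⟨q, ?_⟩
      rw [← hq, Rat.smul_def, mul_one]
    obtain ⟨φ, hφ, hφ1⟩ := Submodule.exists_le_ker_of_notMem h1
    have h2 := hrel φ (LinearMap.mem_ker.1 (hφ1 (Submodule.mem_span_singleton_self 1)))
    exact hφ (congrFun (congrFun h2 a) b)
  choose Φq hΦq using hrat
  have hstar : ∀ p ≤ w, ∀ x ∈ H p, x ≠ 0 → 2 * p = w := by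
    intro p hp x hx hx0
    have h1 := hop p hp x hx
    have h2 := hop (w - p) (Nat.sub_le _ _) _ (hH.conj p hp x hx)
    have h3 : (fun i => star (x i)) ᵥ* Φ = (p : ℂ) • fun i => star (x i) := by
      funext j
      have h4 := congrArg star (congrFun h1 j)
      have h5 : star ((x ᵥ* Φ) j) = ((fun i => star (x i)) ᵥ* Φ) j := by
        show star (∑ i, x i * Φ i j) = ∑ i, star (x i) * Φ i j
        rw [star_sum]
        refine Finset.sum_congr rfl fun i _ => ?_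
        rw [star_mul', hΦq i j, star_ratCast]
      rw [← h5, h4]
      show star ((p : ℂ) * x j) = (p : ℂ) * star (x j)
      rw [star_mul', star_natCast]
    obtain ⟨i, hi⟩ : ∃ i, x i ≠ 0 := by
      by_contra h0
      push Not at h0
      exact hx0 (funext h0)
    have h4 := congrFun (h3.symm.trans h2) i
    have h5 : ((p : ℕ) : ℂ) = ((w - p : ℕ) : ℂ) := mul_right_cancel₀ (star_ne_zero.2 hi) h4
    have h6 : p = w - p := by exact_mod_cast h5
    omega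
  have h1 := hstar p₁ hp₁ x₁ hx₁ h01
  have h2 := hstar p₂ hp₂ x₂ hx₂ h02
  omega

end

end Pool.Agent.X120.OR
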