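import Pool.Agent.X120.BM.Cnt
import Pool.Agent.X120.OR.Lie

/-!
# Families with big orthogonal monodromy: the counting theorem
-/

set_option autoImplicit false

open PowerSeries Matrix

namespace Pool.Agent.X120.OR

open Pool.Agent.X120.BM Pool.Agent.X120.NF

section orth
variable {n : ℕ}

/-- `T` vanishes on the orbit of `(y₁, y₂)` under the orthogonal group -/
def Van (y₁ y₂ : Fin n → ℂ) (T : Matrix (Fin n) (Fin n) ℂ) : Prop :=
  ∀ o : Matrix (Fin n) (Fin n) ℂ, o * oᵀ = 1 → (o *ᵥ y₁) ⬝ᵥ (T *ᵥ (o *ᵥ y₂)) = 0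

theorem Van.sub {y₁ y₂ : Fin n → ℂ} {T T' : Matrix (Fin n) (Fin n) ℂ} (h : Van y₁ y₂ T) (h' : Van y₁ y₂ T') : Van y₁ y₂ (T - T') := by
  intro o ho
  rw [Matrix.sub_mulVec, dotProduct_sub, h o ho, h' o ho, sub_zero]

theorem Van.conj {y₁ y₂ : Fin n → ℂ} {T : Matrix (Fin n) (Fin n) ℂ} (h : Van y₁ y₂ T) {D : Matrix (Fin n) (Fin n) ℂ} (hD : D * Dᵀ = 1) :
    Van y₁ y₂ (Dᵀ * T * D) := by
  intro o ho
  have h1 := h (D * o) (by
    rw [Matrix.transpose_mul, Matrix.mul_assoc, ← Matrix.mul_assoc o, ho, Matrix.one_mul, hD])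
  rw [← h1, ← Matrix.mulVec_mulVec, ← Matrix.mulVec_mulVec, ← Matrix.mulVec_mulVec, ← Matrix.mulVec_mulVec, Matrix.dotProduct_mulVec,
    Matrix.vecMul_transpose]

/-- the sign change of one coordinate -/
def sgn (n : ℕ) (i : Fin n) : Matrix (Fin n) (Fin n) ℂ := Matrix.diagonal fun a => if a = i then -1 else 1

theorem sgn_orth (i : Fin n) : sgn n i * (sgn n i)ᵀ = 1 := by
  unfold sgn
  rw [Matrix.diagonal_transpose, Matrix.diagonal_mul_diagonal, ← Matrix.diagonal_one]
  congr 1
  funext a
  split_ifs <;> norm_num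

theorem sgn_conj (i : Fin n) (T : Matrix (Fin n) (Fin n) ℂ) (a b : Fin n) :
    ((sgn n i)ᵀ * T * sgn n i) a b = (if a = i then -1 else 1) * T a b * (if b = i then -1 else 1) := by
  unfold sgn
  rw [Matrix.diagonal_transpose, Matrix.mul_diagonal, Matrix.diagonal_mul]

theorem orth_zero {y₁ y₂ : Fin n → ℂ} (hy : LinearIndependent ℂ ![y₁, y₂]) {T : Matrix (Fin n) (Fin n) ℂ} (hT : Tᵀ = -T)
    (h : Van y₁ y₂ T) : T = 0 := by
  classical
  have hdiag : ∀ a, T a a = 0 := by
    intro a
    have h1 := congrFun (congrFun hT a) a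
    rw [Matrix.transpose_apply, Matrix.neg_apply] at h1
    linear_combination (1 / 2 : ℂ) * h1
  ext i j
  rw [Matrix.zero_apply]
  by_cases hij : i = j
  · subst hij
    exact hdiag i
  by_contra hne
  -- two sign changes
  set R := T - (sgn n i)ᵀ * T * sgn n i with hR
  have hRv : Van y₁ y₂ R := h.sub (h.conj (sgn_orth i))
  set R' := R - (sgn n j)ᵀ * R * sgn n j with hR'
  have hRv' : Van y₁ y₂ R' := hRv.sub (hRv.conj (sgn_orth j))
  have hR1 : ∀ a b, R a b = T a b - (if a = i then -1 else 1) * T a b * (if b = i then -1 else 1) := by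
    intro a b
    rw [hR, Matrix.sub_apply, sgn_conj]
  have hR2 : ∀ a b, R' a b = R a b - (if a = j then -1 else 1) * R a b * (if b = j then -1 else 1) := by
    intro a b
    rw [hR', Matrix.sub_apply, sgn_conj]
  have hTij : T j i = -T i j := by
    have h1 := congrFun (congrFun hT i) j
    rwa [Matrix.transpose_apply, Matrix.neg_apply] at h1
  have hR3 : R' = (4 * T i j) • (Matrix.single i j 1 - Matrix.single j i 1) := by
    ext a b
    rw [hR2, hR1, Matrix.smul_apply, Matrix.sub_apply, Matrix.single_apply, Matrix.single_apply, smul_eq_mul]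
    by_cases hai : a = i
    · subst hai
      by_cases hbj : b = j
      · subst hbj
        simp [hij, Ne.symm hij]
        ring
      · by_cases hba : b = a
        · subst hba
          simp [hij, hdiag]
        · simp [hij, hba, hbj, Ne.symm hbj, Ne.symm hij]
    · by_cases haj : a = j
      · subst haj
        by_cases hbi : b = i
        · subst hbi
          simp [hai, Ne.symm hai, hTij]
          ring
        · by_cases hba : b = a
          · subst hba
            simp [hai, hdiag]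
          · simp [hai, hbi, hba, Ne.symm hai, Ne.symm hbi]
      · by_cases hbi : b = i
        · subst hbi
          simp [hai, haj, hij, Ne.symm hai, Ne.symm haj]
        · simp [hai, haj, hbi, Ne.symm hai, Ne.symm haj]
  -- permutations
  have hperm : ∀ k l : Fin n, k ≠ l → y₁ k * y₂ l - y₁ l * y₂ k = 0 := by
    intro k l hkl
    set σ : Equiv.Perm (Fin n) := (Equiv.swap i k).trans (Equiv.swap (Equiv.swap i k j) l) with hσ
    have hσi : σ i = k := by
      rw [hσ, Equiv.trans_apply, Equiv.swap_apply_left, Equiv.swap_apply_of_ne_of_ne]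
      · intro h1
        have h2 := congrArg (Equiv.swap i k) h1
        rw [Equiv.swap_apply_right, Equiv.swap_apply_self] at h2
        exact hij h2
      · exact hkl
    have hσj : σ j = l := by
      rw [hσ, Equiv.trans_apply, Equiv.swap_apply_left]
    have ho : (Matrix.of fun a b => if b = σ a then (1 : ℂ) else 0) * (Matrix.of fun a b => if b = σ a then (1 : ℂ) else 0)ᵀ = 1 := by
      ext a b
      rw [Matrix.mul_apply, Matrix.one_apply]
      simp only [Matrix.transpose_apply, Matrix.of_apply, ite_mul, one_mul, zero_mul, Finset.sum_ite_eq', Finset.mem_univ, if_true]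
      by_cases hab : a = b
      · subst hab
        simp
      · rw [if_neg hab, if_neg (fun h => hab (σ.injective h))]
    have h1 := hRv' _ ho
    have h2 : ∀ y : Fin n → ℂ, (Matrix.of fun a b => if b = σ a then (1 : ℂ) else 0) *ᵥ y = fun a => y (σ a) := by
      intro y
      funext a
      show ∑ b, (if b = σ a then (1 : ℂ) else 0) * y b = y (σ a)
      simp
    rw [h2, h2, hR3, Matrix.smul_mulVec, dotProduct_smul, Matrix.sub_mulVec, dotProduct_sub] at h1
    have h3 : ∀ (a b : Fin n) (u v : Fin n → ℂ), u ⬝ᵥ (Matrix.single a b (1 : ℂ) *ᵥ v) = u a * v b := by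
      intro a b u v
      rw [Matrix.single_mulVec]
      show u ⬝ᵥ (Pi.single a (1 * v b) : Fin n → ℂ) = _
      rw [dotProduct_single, one_mul]
    rw [h3, h3, hσi, hσj, smul_eq_mul] at h1
    exact (mul_eq_zero.1 h1).resolve_left (mul_ne_zero (by norm_num) hne)
  -- linear dependence
  rw [LinearIndependent.pair_iff] at hy
  obtain ⟨k, hk⟩ : ∃ k, y₁ k ≠ 0 := by
    by_contra h0
    push Not at h0
    have h1 := hy 1 0 (by rw [zero_smul, add_zero, one_smul]; exact funext h0)
    exact one_ne_zero h1.1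
  have h1 := hy (y₂ k) (-(y₁ k)) (by
    funext l
    show y₂ k * y₁ l + -(y₁ k) * y₂ l = 0
    by_cases hkl : k = l
    · subst hkl
      ring
    · linear_combination -(hperm k l hkl))
  exact hk (neg_eq_zero.1 h1.2)

end orth

/-- The periods of a variation of Hodge structure of rank `n` on the projective line without finitely many points, near `x = 0`. The period matrix is
`L(log (1 / x)) P(x)`, the entries of `P(x)` are polynomials of degree at most `e` in the G-functions, and the entries of `L(u)` are polynomials of degree at most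
`e` in `u` (`L = 1` if the fibre over `x = 0` is good; `L(u) = exp(u M)` with a nilpotent matrix `M` if the monodromy around `x = 0` is unipotent). The
monodromy is big: the orthogonal group of the form `Q Qᵀ` is contained in the differential Galois group. (All nondegenerate symmetric forms over `ℂ` are of this kind.) -/
structure OPeriods (G : GSystem) (n e : ℕ) where
  /-- the polynomials in the G-functions -/
  P : Fin n → Fin n → MvPolynomial (Fin G.r) ℂ
  degP : ∀ a b, (P a b).totalDegree ≤ e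
  /-- the factor with the logarithms -/
  L : Matrix (Fin n) (Fin n) (Polynomial ℂ)
  degL : ∀ a b, (L a b).natDegree ≤ e
  unitL : ∀ u : ℂ, IsUnit (L.map (Polynomial.eval u))
  /-- the matrix of the form is `Q Qᵀ` -/
  Q : Matrix (Fin n) (Fin n) ℂ
  unitQ : IsUnit Q
  /-- big monodromy -/
  big : ∀ g : Matrix.GeneralLinearGroup (Fin n) ℂ,
    (g : Matrix (Fin n) (Fin n) ℂ) * (Q * Qᵀ) * (g : Matrix (Fin n) (Fin n) ℂ)ᵀ = Q * Qᵀ → g ∈ Gal G.h P
  /-- the columns with the periods of the two forms -/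
  c : Fin 2 → Fin n

/-- the vectors of the periods of the two forms for the fibre over `x = b^(-t)` -/
noncomputable def OPeriods.vec {G : GSystem} {n e : ℕ} (F : OPeriods G n e) (b t : ℕ) (l : Fin 2) : Fin n → ℂ := fun a =>
  (F.L.map (Polynomial.eval ((t : ℂ) * ((Real.log b : ℝ) : ℂ))) * perMat G.h F.P ((b : ℝ) ^ t)) a (F.c l)

/-- There is no skew rational bilinear relation between the two vectors. -/
def NoSkew {n : ℕ} (x₁ x₂ : Fin n → ℂ) : Prop := ∀ T : Matrix (Fin n) (Fin n) ℚ, Tᵀ = -T → x₁ ⬝ᵥ (toC T *ᵥ x₂) = 0 → T = 0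

/-- **The counting theorem.** -/
theorem count_skew (G : GSystem) (n e b : ℕ) (hb : 2 ≤ b) :
    ∃ K : ℝ, 0 ≤ K ∧ ∀ F : OPeriods G n e, ∀ N : ℕ, 2 ≤ N →
      (({t : ℕ | 1 ≤ t ∧ t ≤ N ∧ LinearIndependent ℂ ![F.vec b t 0, F.vec b t 1] ∧ ¬ NoSkew (F.vec b t 0) (F.vec b t 1)}.ncard : ℕ) : ℝ) ≤
        K * Real.log N := by
  classical
  obtain ⟨K, hK, hcount⟩ := Pool.Agent.X120.GS.rel_degV 1 1 2 e e (fun _ => G.r) (fun _ => n) (fun _ => G.h) (b := fun _ => b) (fun _ => hb)
    (fun _ => fam G.isG hb)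
  refine ⟨K, hK, ?_⟩
  intro F N hN
  set S := {t : ℕ | 1 ≤ t ∧ t ≤ N ∧ LinearIndependent ℂ ![F.vec b t 0, F.vec b t 1] ∧ ¬ NoSkew (F.vec b t 0) (F.vec b t 1)} with hS
  have hfin : S.Finite := (Set.finite_Iic N).subset fun t ht => ht.2.1
  set V₀ : Submodule ℚ ℂ := Submodule.span ℚ {1} with hV₀
  have hVf : Module.Finite ℚ V₀ := Module.Finite.span_singleton ℚ 1
  have hVr : Module.finrank ℚ V₀ ≤ 1 := (finrank_span_le_card ({1} : Set ℂ)).trans (by simp)
  have hq : ∀ q : ℚ, ((q : ℚ) : ℂ) ∈ V₀ := by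
    intro q
    have := V₀.smul_mem q (Submodule.mem_span_singleton_self (1 : ℂ))
    rwa [Rat.smul_def, mul_one] at this
  have h1 := hcount (fun _ => F.P) (fun _ => F.degP) (fun _ => F.L) (fun _ => F.degL) V₀ hVr N hN
    (hfin.toFinset.map ⟨fun t _ => t, fun x y h => congrFun h 0⟩) (by
      intro t' ht'
      rw [Finset.mem_map] at ht'
      obtain ⟨t, ht, rfl⟩ := ht'
      have ht := hfin.mem_toFinset.1 ht
      obtain ⟨ht1, htN, hind, hskew⟩ := ht
      refine ⟨fun _ => ⟨ht1, htN⟩, fun hgood => hskew ?_⟩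
      intro T hT h0
      -- the matrices
      set ℓ : Matrix (Fin n) (Fin n) ℂ := F.L.map (Polynomial.eval ((t : ℂ) * ((Real.log b : ℝ) : ℂ))) with hℓ
      set M : Matrix (Fin n) (Fin n) ℂ := perMat G.h F.P ((b : ℝ) ^ t) with hM
      have hMeq : Pool.Agent.Y120.R.pM G.h (Pool.Agent.X120.GS.soM (fun _ : Fin 1 => F.P) 0)
          (Pool.Agent.X120.GS.tp (fun _ => b) (fun _ : Fin 1 => t) 0 : ℝ) = M := by
        have e3 : (Pool.Agent.X120.GS.tp (fun _ => b) (fun _ : Fin 1 => t) 0 : ℝ) = (b : ℝ) ^ t := by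
          unfold Pool.Agent.X120.GS.tp
          push_cast
          rfl
        rw [e3]
        exact (perMat_eq _ _ _).symm
      set z₁ : Fin n → ℂ := fun a => M a (F.c 0) with hz₁
      set z₂ : Fin n → ℂ := fun a => M a (F.c 1) with hz₂
      have hv₁ : F.vec b t 0 = ℓ *ᵥ z₁ := rfl
      have hv₂ : F.vec b t 1 = ℓ *ᵥ z₂ := rfl
      -- the relation is stable
      have hstab : ∀ g : Matrix (Fin n) (Fin n) ℂ, g * (F.Q * F.Qᵀ) * gᵀ = F.Q * F.Qᵀ →
          (ℓ *ᵥ (g *ᵥ z₁)) ⬝ᵥ (toC T *ᵥ (ℓ *ᵥ (g *ᵥ z₂))) = 0 := by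
        intro g hg
        have hQd : IsUnit F.Q.det := (Matrix.isUnit_iff_isUnit_det _).1 F.unitQ
        have hgu : IsUnit g := by
          rw [Matrix.isUnit_iff_isUnit_det, isUnit_iff_ne_zero]
          intro h3
          have h4 := congrArg Matrix.det hg
          rw [det_mul, det_mul, h3, zero_mul, zero_mul, det_mul, det_transpose] at h4
          exact (mul_ne_zero hQd.ne_zero hQd.ne_zero) h4.symm
        set R : MvPolynomial (Σ _ : Fin 1, Fin n × Fin n) ℂ :=
          ∑ j, ∑ l, MvPolynomial.C ((T j l : ℚ) : ℂ) * (MvPolynomial.X ⟨0, (j, F.c 0)⟩ * MvPolynomial.X ⟨0, (l, F.c 1)⟩) with hR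
        have hev : ∀ X : Fin 1 → Matrix (Fin n) (Fin n) ℂ,
            MvPolynomial.aeval (fun v : Σ _ : Fin 1, Fin n × Fin n => X v.1 v.2.1 v.2.2) R =
              (fun a => X 0 a (F.c 0)) ⬝ᵥ (toC T *ᵥ fun a => X 0 a (F.c 1)) := by
          intro X
          rw [hR, map_sum]
          show _ = ∑ j, X 0 j (F.c 0) * ∑ l, ((T j l : ℚ) : ℂ) * X 0 l (F.c 1)
          refine Finset.sum_congr rfl fun j _ => ?_
          rw [map_sum, Finset.mul_sum]
          refine Finset.sum_congr rfl fun l _ => ?_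
          rw [map_mul, map_mul, MvPolynomial.aeval_C, MvPolynomial.aeval_X, MvPolynomial.aeval_X, Algebra.algebraMap_self_apply]
          ring
        have h1 := hgood R (by
            refine (MvPolynomial.totalDegree_finsetSum_le fun j _ => ?_)
            refine (MvPolynomial.totalDegree_finsetSum_le fun l _ => ?_)
            refine (MvPolynomial.totalDegree_mul _ _).trans ?_
            rw [MvPolynomial.totalDegree_C, zero_add]
            refine (MvPolynomial.totalDegree_mul _ _).trans ?_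
            rw [MvPolynomial.totalDegree_X, MvPolynomial.totalDegree_X]) (fun s => by
            rw [hR, MvPolynomial.coeff_sum]
            refine V₀.sum_mem fun j _ => ?_
            rw [MvPolynomial.coeff_sum]
            refine V₀.sum_mem fun l _ => ?_
            rw [MvPolynomial.coeff_C_mul, MvPolynomial.X, MvPolynomial.X, MvPolynomial.monomial_mul, MvPolynomial.coeff_monomial]
            split_ifs
            · rw [mul_one, mul_one]
              exact hq _
            · rw [mul_zero]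
              exact V₀.zero_mem) (by
            have h2 := hev (fun i => Pool.Agent.X120.GS.lamT (fun _ : Fin 1 => F.L) (fun _ => b) (fun _ => t) i *
              Pool.Agent.Y120.R.pM G.h (Pool.Agent.X120.GS.soM (fun _ : Fin 1 => F.P) i)
                (Pool.Agent.X120.GS.tp (fun _ => b) (fun _ : Fin 1 => t) i : ℝ))
            refine h2.trans ?_
            rw [hMeq]
            exact h0) (fun _ => hgu.unit) (fun i => by
            have h2 := F.big hgu.unit (by rw [IsUnit.unit_spec]; exact hg)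
            rw [gal_eq] at h2
            exact h2)
        have h2 := hev (fun i => Pool.Agent.X120.GS.lamT (fun _ : Fin 1 => F.L) (fun _ => b) (fun _ => t) i *
          ((hgu.unit : Matrix (Fin n) (Fin n) ℂ) *
              Pool.Agent.Y120.R.pM G.h (Pool.Agent.X120.GS.soM (fun _ : Fin 1 => F.P) i)
                (Pool.Agent.X120.GS.tp (fun _ => b) (fun _ : Fin 1 => t) i : ℝ)))
        have h3 := h2.symm.trans h1
        rw [hMeq, IsUnit.unit_spec] at h3
        have h4 : ∀ c : Fin n, (fun a => (Pool.Agent.X120.GS.lamT (fun _ : Fin 1 => F.L) (fun _ => b) (fun _ => t) 0 * (g * M)) a c) =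
            ℓ *ᵥ (g *ᵥ fun a => M a c) := by
          intro c
          rw [Matrix.mulVec_mulVec, ← Matrix.mul_assoc]
          rfl
        rw [h4, h4] at h3
        exact h3
      -- the orthogonal group
      have hℓu : IsUnit ℓ := F.unitL _
      obtain ⟨W, hW⟩ : ∃ W : Matrix (Fin n) (Fin n) ℂ, W = ℓ * F.Q := ⟨_, rfl⟩
      have hWu : IsUnit W := by rw [hW]; exact hℓu.mul F.unitQ
      have hWd : IsUnit W.det := (Matrix.isUnit_iff_isUnit_det _).1 hWu
      have hQd : IsUnit F.Q.det := (Matrix.isUnit_iff_isUnit_det _).1 F.unitQ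
      have hQt : IsUnit (F.Qᵀ).det := by rw [det_transpose]; exact hQd
      set y₁ : Fin n → ℂ := F.Q⁻¹ *ᵥ z₁ with hy₁
      set y₂ : Fin n → ℂ := F.Q⁻¹ *ᵥ z₂ with hy₂
      have hWy : ∀ z : Fin n → ℂ, W *ᵥ (F.Q⁻¹ *ᵥ z) = ℓ *ᵥ z := by
        intro z
        rw [hW, Matrix.mulVec_mulVec, Matrix.mul_assoc, Matrix.mul_nonsing_inv _ hQd, Matrix.mul_one]
      have hindy : LinearIndependent ℂ ![y₁, y₂] := by
        rw [LinearIndependent.pair_iff] at hind ⊢
        intro α β hαβ
        refine hind α β ?_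
        have e1 : W *ᵥ (α • y₁ + β • y₂) = α • (ℓ *ᵥ z₁) + β • (ℓ *ᵥ z₂) := by
          rw [Matrix.mulVec_add, Matrix.mulVec_smul, Matrix.mulVec_smul, hy₁, hy₂, hWy, hWy]
        rw [hv₁, hv₂, ← e1, hαβ, Matrix.mulVec_zero]
      have hTt : (toC T)ᵀ = -toC T := by
        show toC Tᵀ = _
        rw [hT]
        ext a b
        show ((-(T a b) : ℚ) : ℂ) = -((T a b : ℚ) : ℂ)
        push_cast
        rfl
      have hT'' : (Wᵀ * toC T * W)ᵀ = -(Wᵀ * toC T * W) := by
        rw [Matrix.transpose_mul, Matrix.transpose_mul, Matrix.transpose_transpose, hTt, Matrix.neg_mul, Matrix.mul_neg, Matrix.mul_assoc]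
      have hvan : Van y₁ y₂ (Wᵀ * toC T * W) := by
        intro o ho
        have h1 := hstab (F.Q * o * F.Q⁻¹) (by
          have e1 : F.Q * o * F.Q⁻¹ * (F.Q * F.Qᵀ) * (F.Q * o * F.Q⁻¹)ᵀ = F.Q * (o * ((F.Q⁻¹ * F.Q) * (F.Qᵀ * (F.Q⁻¹)ᵀ)) * oᵀ) * F.Qᵀ := by
            rw [Matrix.transpose_mul, Matrix.transpose_mul]
            simp only [Matrix.mul_assoc]
          rw [e1, Matrix.nonsing_inv_mul _ hQd, Matrix.transpose_nonsing_inv, Matrix.mul_nonsing_inv _ hQt, Matrix.one_mul, Matrix.mul_one, ho,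
            Matrix.mul_one])
        have e2 : ∀ z : Fin n → ℂ, ℓ *ᵥ ((F.Q * o * F.Q⁻¹) *ᵥ z) = W *ᵥ (o *ᵥ (F.Q⁻¹ *ᵥ z)) := by
          intro z
          rw [hW, Matrix.mulVec_mulVec, Matrix.mulVec_mulVec, Matrix.mulVec_mulVec]
          simp only [Matrix.mul_assoc]
        rw [e2, e2] at h1
        rw [← Matrix.mulVec_mulVec, ← Matrix.mulVec_mulVec, Matrix.dotProduct_mulVec, Matrix.vecMul_transpose]
        exact h1
      have h2 := orth_zero hindy hT'' hvan
      have hWt : IsUnit (Wᵀ).det := by rw [det_transpose]; exact hWd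
      have h3 : toC T = 0 := by
        have h4 := congrArg (fun M => (Wᵀ)⁻¹ * M * W⁻¹) h2
        simp only [Matrix.mul_zero, Matrix.zero_mul, ← Matrix.mul_assoc, Matrix.nonsing_inv_mul _ hWt, Matrix.one_mul] at h4
        rw [Matrix.mul_assoc, Matrix.mul_nonsing_inv _ hWd, Matrix.mul_one] at h4
        exact h4
      ext a b
      have h4 := congrFun (congrFun h3 a) b
      have h5 : ((T a b : ℚ) : ℂ) = 0 := h4
      exact_mod_cast h5)
  rw [Finset.card_map, pow_one] at h1
  rw [Set.ncard_eq_toFinset_card S hfin]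
  have hN0 : (0 : ℝ) < N := by
    have : 0 < N := by omega
    exact_mod_cast this
  have h2 : ((hfin.toFinset.card : ℕ) : ℝ) * N ≤ (K * Real.log N) * N := by
    calc ((hfin.toFinset.card : ℕ) : ℝ) * N ≤ K * N * Real.log N := h1
      _ = _ := by ring
  exact le_of_mul_le_mul_right h2 hN0

end Pool.Agent.X120.OR
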