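import Pool.Agent.X120.OR.One

/-!
# Algebraic subgroups of `GL_n` over `ℚ` whose Lie algebra contains the orthogonal Lie algebra
-/

set_option autoImplicit false

open Matrix

namespace Pool.Agent.X120.OR

open Pool.Agent.X120.BM Pool.Agent.X120.NF

section
variable {n : ℕ}

/-- the value of a rational polynomial in the entries of a matrix over `R` -/
noncomputable def evalM {R : Type} [CommRing R] (ι : ℚ →+* R) (Z : Matrix (Fin n) (Fin n) R) (f : MvPolynomial (Fin n × Fin n) ℚ) : R :=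
  MvPolynomial.eval₂ ι (fun v => Z v.1 v.2) f

/-- A closed subgroup scheme of `GL_n` over `ℚ`, given by a set of polynomial equations: for all commutative rings `R ⊇ ℚ` the invertible matrices over `R` which satisfy the equations are a group. -/
structure AlgGroup (n : ℕ) where
  /-- the equations -/
  I : Set (MvPolynomial (Fin n × Fin n) ℚ)
  one : ∀ (R : Type) [CommRing R] (ι : ℚ →+* R), ∀ f ∈ I, evalM ι 1 f = 0
  mul : ∀ (R : Type) [CommRing R] (ι : ℚ →+* R) (Z Z' : Matrix (Fin n) (Fin n) R), IsUnit Z → IsUnit Z' →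
    (∀ f ∈ I, evalM ι Z f = 0) → (∀ f ∈ I, evalM ι Z' f = 0) → ∀ f ∈ I, evalM ι (Z * Z') f = 0
  inv : ∀ (R : Type) [CommRing R] (ι : ℚ →+* R) (Z : Matrix (Fin n) (Fin n) R), IsUnit Z →
    (∀ f ∈ I, evalM ι Z f = 0) → ∀ f ∈ I, evalM ι Z⁻¹ f = 0

/-- the points of the algebraic group over `R` -/
def AlgGroup.IsPoint (𝒢 : AlgGroup n) {R : Type} [CommRing R] (ι : ℚ →+* R) (Z : Matrix (Fin n) (Fin n) R) : Prop :=
  IsUnit Z ∧ ∀ f ∈ 𝒢.I, evalM ι Z f = 0

theorem AlgGroup.IsPoint.mul {𝒢 : AlgGroup n} {R : Type} [CommRing R] {ι : ℚ →+* R} {Z Z' : Matrix (Fin n) (Fin n) R}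
    (h : 𝒢.IsPoint ι Z) (h' : 𝒢.IsPoint ι Z') : 𝒢.IsPoint ι (Z * Z') :=
  ⟨h.1.mul h'.1, 𝒢.mul R ι Z Z' h.1 h'.1 h.2 h'.2⟩

/-- Taylor's formula -/
theorem taylor {σ : Type} [Fintype σ] {R : Type} [CommRing R] (ι : ℚ →+* R) {η : R} (hη : η * η = 0) (x z : σ → R)
    (f : MvPolynomial σ ℚ) : MvPolynomial.eval₂ ι (fun v => x v + η * z v) f =
      MvPolynomial.eval₂ ι x f + η * ∑ v, MvPolynomial.eval₂ ι x (MvPolynomial.pderiv v f) * z v := by
  classical
  induction f using MvPolynomial.induction_on with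
  | C a => simp [MvPolynomial.eval₂_C]
  | add p q hp hq =>
    rw [MvPolynomial.eval₂_add, MvPolynomial.eval₂_add, hp, hq]
    simp only [map_add, MvPolynomial.eval₂_add, add_mul, Finset.sum_add_distrib]
    ring
  | mul_X p u hp =>
    rw [MvPolynomial.eval₂_mul, MvPolynomial.eval₂_mul, MvPolynomial.eval₂_X, MvPolynomial.eval₂_X, hp]
    have h1 : ∑ v, MvPolynomial.eval₂ ι x (MvPolynomial.pderiv v (p * MvPolynomial.X u)) * z v =
        (∑ v, MvPolynomial.eval₂ ι x (MvPolynomial.pderiv v p) * z v) * x u + MvPolynomial.eval₂ ι x p * z u := by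
      have h2 : ∀ v, MvPolynomial.eval₂ ι x (MvPolynomial.pderiv v (p * MvPolynomial.X u)) * z v =
          MvPolynomial.eval₂ ι x (MvPolynomial.pderiv v p) * z v * x u + (if v = u then MvPolynomial.eval₂ ι x p * z u else 0) := by
        intro v
        rw [MvPolynomial.pderiv_mul, MvPolynomial.eval₂_add, MvPolynomial.eval₂_mul, MvPolynomial.eval₂_mul, MvPolynomial.eval₂_X]
        by_cases hvu : v = u
        · subst hvu
          rw [MvPolynomial.pderiv_X_self, MvPolynomial.eval₂_one, if_pos rfl]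
          ring
        · rw [MvPolynomial.pderiv_X_of_ne (Ne.symm hvu), MvPolynomial.eval₂_zero, if_neg hvu]
          ring
      rw [Finset.sum_congr rfl fun v _ => h2 v, Finset.sum_add_distrib, Finset.sum_ite_eq' Finset.univ u, if_pos (Finset.mem_univ u), Finset.sum_mul]
    rw [h1]
    linear_combination (∑ v, MvPolynomial.eval₂ ι x (MvPolynomial.pderiv v p) * z v) * z u * hη

/-- the chain rule for power series -/
theorem chain {σ : Type} [Fintype σ] {E : Type} [Field E] (ι : ℚ →+* E) (x : σ → PowerSeries E) (f : MvPolynomial σ ℚ) :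
    PowerSeries.derivative E (MvPolynomial.eval₂ ((PowerSeries.C (R := E)).comp ι) x f) =
      ∑ v, MvPolynomial.eval₂ ((PowerSeries.C (R := E)).comp ι) x (MvPolynomial.pderiv v f) * PowerSeries.derivative E (x v) := by
  classical
  induction f using MvPolynomial.induction_on with
  | C a => simp [MvPolynomial.eval₂_C]
  | add p q hp hq =>
    rw [MvPolynomial.eval₂_add, map_add, hp, hq, ← Finset.sum_add_distrib]
    refine Finset.sum_congr rfl fun v _ => ?_
    rw [map_add, MvPolynomial.eval₂_add, add_mul]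
  | mul_X p u hp =>
    rw [MvPolynomial.eval₂_mul, MvPolynomial.eval₂_X, Derivation.leibniz, hp, smul_eq_mul, smul_eq_mul, Finset.mul_sum]
    have h2 : ∀ v, MvPolynomial.eval₂ ((PowerSeries.C (R := E)).comp ι) x (MvPolynomial.pderiv v (p * MvPolynomial.X u)) * PowerSeries.derivative E (x v) =
        x u * (MvPolynomial.eval₂ ((PowerSeries.C (R := E)).comp ι) x (MvPolynomial.pderiv v p) * PowerSeries.derivative E (x v)) +
          (if v = u then MvPolynomial.eval₂ ((PowerSeries.C (R := E)).comp ι) x p * PowerSeries.derivative E (x u) else 0) := by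
      intro v
      rw [MvPolynomial.pderiv_mul, MvPolynomial.eval₂_add, MvPolynomial.eval₂_mul, MvPolynomial.eval₂_mul, MvPolynomial.eval₂_X]
      by_cases hvu : v = u
      · subst hvu
        rw [MvPolynomial.pderiv_X_self, MvPolynomial.eval₂_one, if_pos rfl]
        ring
      · rw [MvPolynomial.pderiv_X_of_ne (Ne.symm hvu), MvPolynomial.eval₂_zero, if_neg hvu]
        ring
    rw [Finset.sum_congr rfl fun v _ => h2 v, Finset.sum_add_distrib, Finset.sum_ite_eq' Finset.univ u, if_pos (Finset.mem_univ u)]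
    ring

/-- the coefficients of the linear part of `f` at `1` -/
noncomputable def lin (f : MvPolynomial (Fin n × Fin n) ℚ) (v : Fin n × Fin n) : ℚ :=
  MvPolynomial.eval₂ (RingHom.id ℚ) (fun u => (1 : Matrix (Fin n) (Fin n) ℚ) u.1 u.2) (MvPolynomial.pderiv v f)

theorem eval_one {R : Type} [CommRing R] (ι : ℚ →+* R) (f : MvPolynomial (Fin n × Fin n) ℚ) :
    MvPolynomial.eval₂ ι (fun u => (1 : Matrix (Fin n) (Fin n) R) u.1 u.2) f =
      ι (MvPolynomial.eval₂ (RingHom.id ℚ) (fun u => (1 : Matrix (Fin n) (Fin n) ℚ) u.1 u.2) f) := by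
  rw [MvPolynomial.eval₂_comp_left ι (RingHom.id ℚ)]
  congr 1
  funext u
  show (1 : Matrix (Fin n) (Fin n) R) u.1 u.2 = ι ((1 : Matrix (Fin n) (Fin n) ℚ) u.1 u.2)
  rw [Matrix.one_apply, Matrix.one_apply]
  split_ifs
  · exact (map_one ι).symm
  · exact (map_zero ι).symm

/-- points near `1` -/
theorem near_one (𝒢 : AlgGroup n) {R : Type} [CommRing R] (ι : ℚ →+* R) {η : R} (hη : η * η = 0) {X : Matrix (Fin n) (Fin n) R}
    (hX : ∀ f ∈ 𝒢.I, ∑ v, ι (lin f v) * X v.1 v.2 = 0) : 𝒢.IsPoint ι (1 + η • X) := by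
  constructor
  · refine IsUnit.of_mul_eq_one (1 - η • X) ?_
    rw [Matrix.add_mul, Matrix.one_mul, Matrix.mul_sub, Matrix.mul_one, Matrix.smul_mul, Matrix.mul_smul, smul_smul, hη, zero_smul, sub_zero, sub_add_cancel]
  · intro f hf
    have h1 := taylor ι hη (fun u : Fin n × Fin n => (1 : Matrix (Fin n) (Fin n) R) u.1 u.2) (fun u => X u.1 u.2) f
    have h2 : (∑ v, MvPolynomial.eval₂ ι (fun u : Fin n × Fin n => (1 : Matrix (Fin n) (Fin n) R) u.1 u.2) (MvPolynomial.pderiv v f) * X v.1 v.2) = 0 := by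
      rw [← hX f hf]
      exact Finset.sum_congr rfl fun v _ => by rw [eval_one]; rfl
    rw [h2, mul_zero, add_zero] at h1
    exact h1.trans (𝒢.one R ι f hf)

/-- the Lie algebra of an algebraic group -/
def lieAlg (𝒢 : AlgGroup n) : Submodule ℚ (Matrix (Fin n) (Fin n) ℚ) where
  carrier := {X | ∀ f ∈ 𝒢.I, ∑ v, lin f v * X v.1 v.2 = 0}
  add_mem' := fun {X Y} hX hY f hf => by
    have h1 : ∀ v : Fin n × Fin n, lin f v * (X + Y) v.1 v.2 = lin f v * X v.1 v.2 + lin f v * Y v.1 v.2 := fun v => by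
      rw [Matrix.add_apply, mul_add]
    rw [Finset.sum_congr rfl fun v _ => h1 v, Finset.sum_add_distrib, hX f hf, hY f hf, add_zero]
  zero_mem' := fun f _ => Finset.sum_eq_zero fun v _ => by rw [Matrix.zero_apply, mul_zero]
  smul_mem' := fun c {X} hX f hf => by
    have h1 : ∀ v : Fin n × Fin n, lin f v * (c • X) v.1 v.2 = c * (lin f v * X v.1 v.2) := fun v => by
      rw [Matrix.smul_apply, smul_eq_mul]
      ring
    rw [Finset.sum_congr rfl fun v _ => h1 v, ← Finset.mul_sum, hX f hf, mul_zero]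

theorem comm_expand {S : Type} [Ring S] {x y : S} (hx : x * x = 0) (hy : y * y = 0) (hxyx : x * y * x = 0) (hyxy : y * x * y = 0) :
    (1 + x) * (1 + y) * (1 - x) * (1 - y) = 1 + (x * y - y * x) := by
  have h1 : (1 + x) * (1 + y) * (1 - x) * (1 - y) = 1 + (x * y - y * x) - x * x - y * y + x * x * y + y * x * y - x * y * x - x * (y * y) + x * y * x * y := by
    noncomm_ring
  rw [h1, hx, hy, hxyx, hyxy]
  simp

theorem exists_ring : ∃ (R : Type) (_ : CommRing R) (ι : ℚ →+* R) (a c : R), a * a = 0 ∧ c * c = 0 ∧ ∀ q : ℚ, (a * c) * ι q = 0 → q = 0 := by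
  refine ⟨DualNumber (DualNumber ℚ), inferInstance, (TrivSqZeroExt.inlHom (DualNumber ℚ) (DualNumber ℚ)).comp (TrivSqZeroExt.inlHom ℚ ℚ),
    TrivSqZeroExt.inl DualNumber.eps, DualNumber.eps, ?_, DualNumber.eps_mul_eps, ?_⟩
  · rw [TrivSqZeroExt.inl_mul_inl, DualNumber.eps_mul_eps, TrivSqZeroExt.inl_zero]
  · intro q hq
    have h1 : ((TrivSqZeroExt.inl DualNumber.eps * DualNumber.eps : DualNumber (DualNumber ℚ)) * TrivSqZeroExt.inl (TrivSqZeroExt.inl q)) =
        TrivSqZeroExt.inr (TrivSqZeroExt.inr q) := by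
      unfold DualNumber.eps
      rw [TrivSqZeroExt.inl_mul_inr, TrivSqZeroExt.inr_mul_inl, op_smul_eq_mul, smul_eq_mul, mul_one, TrivSqZeroExt.inr_mul_inl,
        op_smul_eq_mul, one_mul]
    have h2 : (TrivSqZeroExt.inr (TrivSqZeroExt.inr q) : DualNumber (DualNumber ℚ)) = 0 := h1.symm.trans hq
    have h12 := congrArg (fun r : DualNumber (DualNumber ℚ) => TrivSqZeroExt.snd (TrivSqZeroExt.snd r)) h2
    exact h12

theorem lie_aux (𝒢 : AlgGroup n) {R : Type} [CommRing R] (ι : ℚ →+* R) {a c : R} (ha : a * a = 0) (hc : c * c = 0)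
    (hq : ∀ q : ℚ, (a * c) * ι q = 0 → q = 0) : IsLie₀ (lieAlg 𝒢) := by
  intro X hX Y hY f hf
  have hpt : ∀ (Z : Matrix (Fin n) (Fin n) ℚ), Z ∈ lieAlg 𝒢 → ∀ g ∈ 𝒢.I, ∑ v, ι (lin g v) * (Z.map ι) v.1 v.2 = 0 := by
    intro Z hZ g hg
    have h1 : ∀ v : Fin n × Fin n, ι (lin g v) * (Z.map ι) v.1 v.2 = ι (lin g v * Z v.1 v.2) := fun v => by
      rw [map_mul]
      rfl
    rw [Finset.sum_congr rfl fun v _ => h1 v, ← map_sum, hZ g hg, map_zero]
  have hneg : ∀ (Z : Matrix (Fin n) (Fin n) ℚ) (η : R), (1 : Matrix (Fin n) (Fin n) R) + η • ((-Z).map ι) = 1 - η • (Z.map ι) := by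
    intro Z η
    have : (-Z).map ι = -(Z.map ι) := Matrix.ext fun i j => map_neg ι _
    rw [this, smul_neg, sub_eq_add_neg]
  have hXm : X ∈ lieAlg 𝒢 := hX
  have hYm : Y ∈ lieAlg 𝒢 := hY
  have h1 := near_one 𝒢 ι ha (hpt X hXm)
  have h2 := near_one 𝒢 ι hc (hpt Y hYm)
  have h3 := near_one 𝒢 ι ha (hpt (-X) ((lieAlg 𝒢).neg_mem hXm))
  have h4 := near_one 𝒢 ι hc (hpt (-Y) ((lieAlg 𝒢).neg_mem hYm))
  rw [hneg] at h3 h4
  have h5 := ((h1.mul h2).mul h3).mul h4
  have hs : ∀ (η θ : R) (P Q : Matrix (Fin n) (Fin n) R), (η • P) * (θ • Q) = (η * θ) • (P * Q) := by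
    intro η θ P Q
    rw [Matrix.smul_mul, Matrix.mul_smul, smul_smul]
  rw [comm_expand (by rw [hs, ha, zero_smul]) (by rw [hs, hc, zero_smul]) (by rw [hs, hs, mul_right_comm, ha, zero_mul, zero_smul])
    (by rw [hs, hs, mul_right_comm, hc, zero_mul, zero_smul])] at h5
  have h6 : (1 : Matrix (Fin n) (Fin n) R) + ((a • X.map ι) * (c • Y.map ι) - (c • Y.map ι) * (a • X.map ι)) = 1 + (a * c) • ((X * Y - Y * X).map ι) := by
    rw [hs, hs, mul_comm c a, ← smul_sub]
    congr 2
    have e1 : ∀ P Q : Matrix (Fin n) (Fin n) ℚ, (P * Q).map ι = P.map ι * Q.map ι := fun P Q => Matrix.map_mul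
    have e2 : (X * Y - Y * X).map ι = (X * Y).map ι - (Y * X).map ι := Matrix.ext fun i j => map_sub ι _ _
    rw [e2, e1, e1]
  rw [h6] at h5
  have h7 := h5.2 f hf
  have hac : (a * c) * (a * c) = 0 := by
    have : (a * c) * (a * c) = (a * a) * (c * c) := by ring
    rw [this, ha, zero_mul]
  have h8 := taylor ι hac (fun u : Fin n × Fin n => (1 : Matrix (Fin n) (Fin n) R) u.1 u.2) (fun u => ((X * Y - Y * X).map ι) u.1 u.2) f
  have h9 : (∑ v, MvPolynomial.eval₂ ι (fun u : Fin n × Fin n => (1 : Matrix (Fin n) (Fin n) R) u.1 u.2) (MvPolynomial.pderiv v f) * ((X * Y - Y * X).map ι) v.1 v.2) =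
      ι (∑ v, lin f v * (X * Y - Y * X) v.1 v.2) := by
    rw [map_sum]
    refine Finset.sum_congr rfl fun v _ => ?_
    rw [eval_one, map_mul]
    rfl
  rw [h9] at h8
  refine hq _ ?_
  have h11 : MvPolynomial.eval₂ ι (fun u : Fin n × Fin n => (1 : Matrix (Fin n) (Fin n) R) u.1 u.2) f = 0 := 𝒢.one R ι f hf
  rw [h11, zero_add] at h8
  exact h8.symm.trans h7

theorem lieAlg_lie (𝒢 : AlgGroup n) : IsLie₀ (lieAlg 𝒢) := by
  obtain ⟨R, hR, ι, a, c, ha, hc, hq⟩ := exists_ring
  exact lie_aux 𝒢 ι ha hc hq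

/-- a linear form which is zero on the orthogonal Lie algebra over `ℚ` is zero on it over `R` -/
theorem lin_orth {A : Matrix (Fin n) (Fin n) ℚ} (hA : Aᵀ = A) (hdet : A.det ≠ 0) {c : Fin n × Fin n → ℚ}
    (hc : ∀ X ∈ orthLie ℚ A, ∑ v, c v * X v.1 v.2 = 0) {R : Type} [CommRing R] (ι : ℚ →+* R) {Z : Matrix (Fin n) (Fin n) R}
    (hZ : Z * A.map ι + A.map ι * Zᵀ = 0) : ∑ v, ι (c v) * Z v.1 v.2 = 0 := by
  classical
  -- the symmetric matrix
  set C : Matrix (Fin n) (Fin n) ℚ := Matrix.of fun l b => ∑ a, c (a, b) * A a l with hC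
  have hsum : ∀ (R : Type) [CommRing R] (ι : ℚ →+* R) (K : Matrix (Fin n) (Fin n) R),
      ∑ v, ι (c v) * (A.map ι * K) v.1 v.2 = ∑ l, ∑ b, ι (C l b) * K l b := by
    intro R _ ι K
    rw [Fintype.sum_prod_type]
    have h1 : ∀ a b, ι (c (a, b)) * (A.map ι * K) a b = ∑ l, ι (c (a, b) * A a l) * K l b := by
      intro a b
      rw [Matrix.mul_apply, Finset.mul_sum]
      refine Finset.sum_congr rfl fun l _ => ?_
      rw [map_mul, Matrix.map_apply]
      ring
    have h2 : ∀ l b, ι (C l b) * K l b = ∑ a, ι (c (a, b) * A a l) * K l b := by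
      intro l b
      rw [hC, Matrix.of_apply, map_sum, Finset.sum_mul]
    simp only [h1, h2]
    rw [Finset.sum_comm]
    rw [Finset.sum_comm (f := fun l b => ∑ a, ι (c (a, b) * A a l) * K l b)]
    refine Finset.sum_congr rfl fun b _ => ?_
    rw [Finset.sum_comm]
  have hCs : ∀ l b, C l b = C b l := by
    intro l b
    have h1 := hc (A * (Matrix.single l b 1 - Matrix.single b l 1)) (by
      rw [mem_orthLie, Matrix.transpose_mul, Matrix.transpose_sub, Matrix.transpose_single, Matrix.transpose_single, hA]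
      rw [Matrix.mul_assoc, ← Matrix.mul_add, ← Matrix.add_mul]
      rw [sub_add_sub_cancel, sub_self, Matrix.zero_mul, Matrix.mul_zero])
    have h2 := hsum ℚ (RingHom.id ℚ) (Matrix.single l b 1 - Matrix.single b l 1)
    have h3 : A.map (RingHom.id ℚ) = A := by
      ext i j
      rfl
    rw [h3] at h2
    simp only [RingHom.id_apply] at h2
    rw [h1] at h2
    have h4 : ∀ l b : Fin n, ∑ i, ∑ j, C i j * (Matrix.single l b (1 : ℚ)) i j = C l b := by
      intro l b
      rw [Finset.sum_eq_single l, Finset.sum_eq_single b]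
      · rw [Matrix.single_apply_same, mul_one]
      · intro j _ hj
        rw [Matrix.single_apply, if_neg (fun h => hj h.2.symm), mul_zero]
      · intro h
        exact absurd (Finset.mem_univ _) h
      · intro i _ hi
        refine Finset.sum_eq_zero fun j _ => ?_
        rw [Matrix.single_apply, if_neg (fun h => hi h.1.symm), mul_zero]
      · intro h
        exact absurd (Finset.mem_univ _) h
    have h5 : ∑ i, ∑ j, C i j * (Matrix.single l b (1 : ℚ) - Matrix.single b l (1 : ℚ) : Matrix (Fin n) (Fin n) ℚ) i j = C l b - C b l := by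
      rw [← h4 l b, ← h4 b l, ← Finset.sum_sub_distrib]
      refine Finset.sum_congr rfl fun i _ => ?_
      rw [← Finset.sum_sub_distrib]
      refine Finset.sum_congr rfl fun j _ => ?_
      rw [Matrix.sub_apply, mul_sub]
    rw [h5] at h2
    exact (sub_eq_zero.1 h2.symm)
  -- `Z = A K`
  have hAd : IsUnit (A.map ι).det := by
    have h1 : (A.map ι).det = ι A.det := (RingHom.map_det ι A).symm
    rw [h1]
    exact (IsUnit.mk0 _ hdet).map ι
  have hAt : (A.map ι)ᵀ = A.map ι := by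
    rw [← Matrix.transpose_map, hA]
  obtain ⟨K, hK⟩ : ∃ K : Matrix (Fin n) (Fin n) R, K = (A.map ι)⁻¹ * Z := ⟨_, rfl⟩
  have hZK : Z = A.map ι * K := by rw [hK, ← Matrix.mul_assoc, Matrix.mul_nonsing_inv _ hAd, Matrix.one_mul]
  have hKs : K + Kᵀ = 0 := by
    have h1 : A.map ι * (K + Kᵀ) * A.map ι = 0 := by
      rw [← hZ, hZK, Matrix.transpose_mul, hAt]
      rw [Matrix.mul_add, Matrix.add_mul, Matrix.mul_assoc (A.map ι) Kᵀ]
    have h2 := congrArg (fun M => (A.map ι)⁻¹ * M * (A.map ι)⁻¹) h1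
    simp only [Matrix.mul_zero, Matrix.zero_mul, ← Matrix.mul_assoc, Matrix.nonsing_inv_mul _ hAd, Matrix.one_mul] at h2
    rw [Matrix.mul_assoc, Matrix.mul_nonsing_inv _ hAd, Matrix.mul_one] at h2
    exact h2
  rw [hZK, hsum R ι K]
  set S : R := ∑ l, ∑ b, ι (C l b) * K l b with hS
  have h1 : S = -S := by
    have h2 : S = ∑ b, ∑ l, ι (C l b) * K l b := Finset.sum_comm
    have h3 : S = ∑ l, ∑ b, -(ι (C l b) * K l b) := by
      rw [h2]
      refine Finset.sum_congr rfl fun l _ => Finset.sum_congr rfl fun b _ => ?_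
      rw [hCs b l]
      have h4 : K b l = -K l b := by
        have h5 := congrFun (congrFun hKs b) l
        rw [Matrix.add_apply, Matrix.transpose_apply, Matrix.zero_apply] at h5
        exact eq_neg_of_add_eq_zero_left h5
      rw [h4]
      ring
    refine h3.trans ?_
    simp only [Finset.sum_neg_distrib]
    rfl
  have h2 : ι 2 * S = 0 := by
    have h3 : ι 2 = 2 := by rw [show (2 : ℚ) = ((2 : ℕ) : ℚ) by norm_num, map_natCast]; norm_num
    rw [h3, two_mul]
    nth_rewrite 2 [h1]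
    exact add_neg_cancel _
  have h3 : ι (1 / 2) * (ι 2 * S) = S := by
    rw [← mul_assoc, ← map_mul]
    norm_num
  rw [← h3, h2, mul_zero]

theorem exists_trunc (E : Type) [Field E] (N : ℕ) : ∃ (R : Type) (_ : CommRing R) (j : PowerSeries E →+* R) (η : R), η * η = 0 ∧
    (∀ F : PowerSeries E, (PowerSeries.X : PowerSeries E) ^ N ∣ F → j F = 0) ∧ ∀ F : PowerSeries E, η * j F = 0 → (PowerSeries.X : PowerSeries E) ^ N ∣ F := by
  let q : PowerSeries E →+* PowerSeries E ⧸ Ideal.span {(PowerSeries.X : PowerSeries E) ^ N} := Ideal.Quotient.mk _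
  refine ⟨DualNumber (PowerSeries E ⧸ Ideal.span {(PowerSeries.X : PowerSeries E) ^ N}), inferInstance, (TrivSqZeroExt.inlHom _ _).comp q,
    DualNumber.eps, DualNumber.eps_mul_eps, ?_, ?_⟩
  · intro F hF
    have h1 : q F = 0 := Ideal.Quotient.eq_zero_iff_mem.2 (Ideal.mem_span_singleton.2 hF)
    show TrivSqZeroExt.inl (q F) = 0
    rw [h1, TrivSqZeroExt.inl_zero]
  · intro F hF
    have h7 : (DualNumber.eps * TrivSqZeroExt.inl (q F) : DualNumber (PowerSeries E ⧸ Ideal.span {(PowerSeries.X : PowerSeries E) ^ N})) = 0 := hF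
    unfold DualNumber.eps at h7
    rw [TrivSqZeroExt.inr_mul_inl, op_smul_eq_mul, one_mul] at h7
    exact Ideal.mem_span_singleton.1 (Ideal.Quotient.eq_zero_iff_mem.1 (congrArg TrivSqZeroExt.snd h7))

theorem curve_aux (𝒢 : AlgGroup n) {E : Type} [Field E] (ι : ℚ →+* E) {γ Z : Matrix (Fin n) (Fin n) (PowerSeries E)} (hγ : IsUnit γ)
    (hd : ∀ i j, PowerSeries.derivative E (γ i j) = (γ * Z) i j)
    (hZ : ∀ f ∈ 𝒢.I, ∑ v, ((PowerSeries.C (R := E)).comp ι) (lin f v) * Z v.1 v.2 = 0) {N : ℕ}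
    (ih : ∀ f ∈ 𝒢.I, (PowerSeries.X : PowerSeries E) ^ N ∣ evalM ((PowerSeries.C (R := E)).comp ι) γ f) {R : Type} [CommRing R]
    (j : PowerSeries E →+* R) {η : R} (hη : η * η = 0) (h1 : ∀ F : PowerSeries E, (PowerSeries.X : PowerSeries E) ^ N ∣ F → j F = 0)
    (f : MvPolynomial (Fin n × Fin n) ℚ) (hf : f ∈ 𝒢.I) :
    η * j (PowerSeries.derivative E (evalM ((PowerSeries.C (R := E)).comp ι) γ f)) = 0 := by
  classical
  set ιC : ℚ →+* PowerSeries E := (PowerSeries.C (R := E)).comp ι with hιC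
  have hmap : ∀ g : MvPolynomial (Fin n × Fin n) ℚ, evalM (j.comp ιC) (γ.map j) g = j (evalM ιC γ g) := by
    intro g
    unfold evalM
    rw [MvPolynomial.eval₂_comp_left j ιC]
    rfl
  have hp1 : 𝒢.IsPoint (j.comp ιC) (γ.map j) := by
    refine ⟨hγ.map j.mapMatrix, fun g hg => ?_⟩
    rw [hmap]
    exact h1 _ (ih g hg)
  have hp2 : 𝒢.IsPoint (j.comp ιC) (1 + η • (Z.map j)) := by
    refine near_one 𝒢 (j.comp ιC) hη fun g hg => ?_
    have h1 := congrArg j (hZ g hg)
    rw [map_sum, map_zero] at h1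
    rw [← h1]
    refine Finset.sum_congr rfl fun v _ => ?_
    rw [map_mul]
    rfl
  have hp3 := (hp1.mul hp2).2 f hf
  have h1 : γ.map j * (1 + η • (Z.map j)) = γ.map j + η • ((γ * Z).map j) := by
    rw [Matrix.mul_add, Matrix.mul_one, Matrix.mul_smul, Matrix.map_mul]
  rw [h1] at hp3
  have h2 := taylor (j.comp ιC) hη (fun u : Fin n × Fin n => (γ.map j) u.1 u.2) (fun u => ((γ * Z).map j) u.1 u.2) f
  have h3 : MvPolynomial.eval₂ (j.comp ιC) (fun u : Fin n × Fin n => (γ.map j) u.1 u.2) f = 0 := hp1.2 f hf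
  rw [h3, zero_add] at h2
  have h4 : (∑ v, MvPolynomial.eval₂ (j.comp ιC) (fun u : Fin n × Fin n => (γ.map j) u.1 u.2) (MvPolynomial.pderiv v f) * ((γ * Z).map j) v.1 v.2) =
      j (PowerSeries.derivative E (evalM ιC γ f)) := by
    have h5 : PowerSeries.derivative E (evalM ιC γ f) = _ := chain ι (fun v : Fin n × Fin n => γ v.1 v.2) f
    rw [h5, map_sum]
    refine Finset.sum_congr rfl fun v _ => ?_
    rw [map_mul, hd]
    congr 1
    exact hmap (MvPolynomial.pderiv v f)
  rw [h4] at h2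
  exact h2.symm.trans hp3

/-- **Curves in the group.** A formal curve through `1` whose logarithmic derivative is in the Lie algebra is in the group. -/
theorem curve (𝒢 : AlgGroup n) {E : Type} [Field E] [CharZero E] (ι : ℚ →+* E) {γ Z : Matrix (Fin n) (Fin n) (PowerSeries E)} (hγ : IsUnit γ)
    (h0 : γ.map (PowerSeries.constantCoeff (R := E)) = 1) (hd : ∀ i j, PowerSeries.derivative E (γ i j) = (γ * Z) i j)
    (hZ : ∀ f ∈ 𝒢.I, ∑ v, ((PowerSeries.C (R := E)).comp ι) (lin f v) * Z v.1 v.2 = 0) :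
    ∀ f ∈ 𝒢.I, evalM ((PowerSeries.C (R := E)).comp ι) γ f = 0 := by
  classical
  set ιC : ℚ →+* PowerSeries E := (PowerSeries.C (R := E)).comp ι with hιC
  have hconst : ∀ f ∈ 𝒢.I, PowerSeries.constantCoeff (evalM ιC γ f) = 0 := by
    intro f hf
    have h1 := 𝒢.one E ι f hf
    rw [← h1]
    unfold evalM
    rw [MvPolynomial.eval₂_comp_left (PowerSeries.constantCoeff (R := E)) ιC]
    have e1 : (PowerSeries.constantCoeff (R := E)).comp ιC = ι := by
      ext q
      exact PowerSeries.constantCoeff_C _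
    rw [e1]
    congr 1
    funext v
    exact congrFun (congrFun h0 v.1) v.2
  have key : ∀ N : ℕ, ∀ f ∈ 𝒢.I, (PowerSeries.X : PowerSeries E) ^ N ∣ evalM ιC γ f := by
    intro N
    induction N with
    | zero =>
      intro f _
      rw [pow_zero]
      exact one_dvd _
    | succ N ih =>
      intro f hf
      obtain ⟨R, hR, j, η, hη, h1, h2⟩ := exists_trunc E N
      have h7 := h2 _ (curve_aux 𝒢 ι hγ hd hZ ih j hη h1 f hf)
      rw [PowerSeries.X_pow_dvd_iff] at h7 ⊢
      intro m hm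
      rcases m with _ | m
      · rw [PowerSeries.coeff_zero_eq_constantCoeff_apply]
        exact hconst f hf
      · have h8 := h7 m (by omega)
        rw [PowerSeries.coeff_derivative] at h8
        have h9 : ((m : E) + 1) ≠ 0 := by exact_mod_cast Nat.succ_ne_zero m
        exact (mul_eq_zero.1 h8).resolve_right h9
  intro f hf
  ext m
  have h1 := key (m + 1) f hf
  rw [PowerSeries.X_pow_dvd_iff] at h1
  rw [h1 m (Nat.lt_succ_self m), map_zero]

end

end Pool.Agent.X120.OR
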