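import Mathlib

/-!
# The special orthogonal group is generated by the elements `g` with `det (1 + g) ≠ 0`
-/

set_option autoImplicit false

open Matrix

namespace Pool.Agent.X120.OR

section
variable {n : ℕ} {E : Type} [Field E]

/-- the bilinear form -/
def bil (S : Matrix (Fin n) (Fin n) E) (x y : Fin n → E) : E := x ⬝ᵥ (S *ᵥ y)

variable {S : Matrix (Fin n) (Fin n) E}

theorem bil_comm (hS : Sᵀ = S) (x y : Fin n → E) : bil S x y = bil S y x := by
  unfold bil
  conv_lhs => rw [Matrix.dotProduct_mulVec, ← Matrix.mulVec_transpose, hS, dotProduct_comm]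

theorem bil_add_left (x y z : Fin n → E) : bil S (x + y) z = bil S x z + bil S y z := by unfold bil; rw [add_dotProduct]
theorem bil_sub_left (x y z : Fin n → E) : bil S (x - y) z = bil S x z - bil S y z := by unfold bil; rw [sub_dotProduct]
theorem bil_smul_left (c : E) (x z : Fin n → E) : bil S (c • x) z = c * bil S x z := by unfold bil; rw [smul_dotProduct, smul_eq_mul]
theorem bil_add_right (x y z : Fin n → E) : bil S z (x + y) = bil S z x + bil S z y := by unfold bil; rw [Matrix.mulVec_add, dotProduct_add]
theorem bil_sub_right (x y z : Fin n → E) : bil S z (x - y) = bil S z x - bil S z y := by unfold bil; rw [Matrix.mulVec_sub, dotProduct_sub]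
theorem bil_smul_right (c : E) (x z : Fin n → E) : bil S z (c • x) = c * bil S z x := by
  unfold bil; rw [Matrix.mulVec_smul, dotProduct_smul, smul_eq_mul]

/-- the reflection, acting on row vectors -/
def refl (S : Matrix (Fin n) (Fin n) E) (u : Fin n → E) : Matrix (Fin n) (Fin n) E :=
  1 - (2 / bil S u u) • Matrix.vecMulVec (S *ᵥ u) u

theorem vecMul_refl (u x : Fin n → E) : Matrix.vecMul x (refl S u) = x - (2 * bil S x u / bil S u u) • u := by
  unfold refl bil
  rw [Matrix.vecMul_sub, Matrix.vecMul_one, Matrix.vecMul_smul, Matrix.vecMul_vecMulVec, smul_smul]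
  congr 2
  ring

theorem bil_refl (hS : Sᵀ = S) {u : Fin n → E} (hu : bil S u u ≠ 0) (x y : Fin n → E) :
    bil S (Matrix.vecMul x (refl S u)) (Matrix.vecMul y (refl S u)) = bil S x y := by
  rw [vecMul_refl, vecMul_refl, bil_sub_left, bil_sub_right, bil_sub_right, bil_smul_left, bil_smul_right, bil_smul_left, bil_smul_right,
    bil_comm hS u y]
  field_simp
  ring

theorem orth_of_bil {g : Matrix (Fin n) (Fin n) E} (h : ∀ x y, bil S (Matrix.vecMul x g) (Matrix.vecMul y g) = bil S x y) : g * S * gᵀ = S := by
  ext i j
  have h1 := h (Pi.single i 1) (Pi.single j 1)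
  unfold bil at h1
  rw [← Matrix.mulVec_transpose g (Pi.single j 1), Matrix.mulVec_mulVec, ← Matrix.dotProduct_mulVec, Matrix.mulVec_mulVec, single_one_dotProduct, single_one_dotProduct,
    Matrix.mulVec_single_one, Matrix.mulVec_single_one] at h1
  rw [Matrix.mul_assoc]
  exact h1

theorem bil_of_orth {g : Matrix (Fin n) (Fin n) E} (h : g * S * gᵀ = S) (x y : Fin n → E) :
    bil S (Matrix.vecMul x g) (Matrix.vecMul y g) = bil S x y := by
  unfold bil
  rw [← Matrix.mulVec_transpose g y, Matrix.mulVec_mulVec, ← Matrix.dotProduct_mulVec, Matrix.mulVec_mulVec, ← Matrix.mul_assoc, h]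

theorem refl_orth (hS : Sᵀ = S) {u : Fin n → E} (hu : bil S u u ≠ 0) : refl S u * S * (refl S u)ᵀ = S := orth_of_bil (bil_refl hS hu)

theorem refl_sq {u : Fin n → E} (hu : bil S u u ≠ 0) : refl S u * refl S u = 1 := by
  refine Matrix.ext_of_single_vecMul fun i => ?_
  rw [← Matrix.vecMul_vecMul, vecMul_refl, vecMul_refl, bil_sub_left, bil_smul_left, Matrix.vecMul_one, sub_sub, ← add_smul]
  have h1 : 2 * bil S (Pi.single i 1) u / bil S u u + 2 * (bil S (Pi.single i 1) u - 2 * bil S (Pi.single i 1) u / bil S u u * bil S u u) / bil S u u = 0 := by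
    field_simp
    ring
  rw [h1, zero_smul, sub_zero]

theorem det_refl {u : Fin n → E} (hu : bil S u u ≠ 0) : (refl S u).det = -1 := by
  have h1 : refl S u = 1 + Matrix.replicateCol Unit (-(2 / bil S u u) • (S *ᵥ u)) * Matrix.replicateRow Unit u := by
    rw [← Matrix.vecMulVec_eq Unit]
    unfold refl
    rw [Matrix.smul_vecMulVec, neg_smul, sub_eq_add_neg]
  rw [h1, Matrix.det_one_add_replicateCol_mul_replicateRow, dotProduct_smul, smul_eq_mul]
  have h2 : u ⬝ᵥ (S *ᵥ u) = bil S u u := rfl
  rw [h2, neg_mul, div_mul_cancel₀ _ hu]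
  norm_num

/-- the elements which are products of elements `g` of the orthogonal group with `det (1 + g) ≠ 0` -/
def Cay (S : Matrix (Fin n) (Fin n) E) : Submonoid (Matrix (Fin n) (Fin n) E) :=
  Submonoid.closure {g | g * S * gᵀ = S ∧ (1 + g).det ≠ 0}

theorem two_refl_aux [CharZero E] (hS : Sᵀ = S) {u v : Fin n → E} (hu : bil S u u ≠ 0) (hv : bil S v v ≠ 0) (huv : bil S u v ≠ 0) :
    refl S u * refl S v ∈ Cay S := by
  refine Submonoid.subset_closure ⟨orth_of_bil fun x y => ?_, fun h0 => ?_⟩
  · rw [← Matrix.vecMul_vecMul, ← Matrix.vecMul_vecMul, bil_refl hS hv, bil_refl hS hu]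
  · obtain ⟨w, hw0, hw⟩ := Matrix.exists_vecMul_eq_zero_iff.2 h0
    rw [Matrix.vecMul_add, Matrix.vecMul_one, ← Matrix.vecMul_vecMul, vecMul_refl, vecMul_refl] at hw
    obtain ⟨α, hα⟩ : ∃ α, α = 2 * bil S w u / bil S u u := ⟨_, rfl⟩
    rw [← hα] at hw
    obtain ⟨β, hβ⟩ : ∃ β, β = 2 * bil S (w - α • u) v / bil S v v := ⟨_, rfl⟩
    rw [← hβ] at hw
    have hα' : 2 * bil S w u = α * bil S u u := by rw [hα, div_mul_cancel₀ _ hu]
    have hβ' : 2 * (bil S w v - α * bil S u v) = β * bil S v v := by
      rw [hβ, div_mul_cancel₀ _ hv, bil_sub_left, bil_smul_left]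
    have hw2 : (2 : E) • w = α • u + β • v := by
      rw [two_smul]
      have h1 : w + w - (α • u + β • v) = w + (w - α • u - β • v) := by abel
      rw [← sub_eq_zero, h1, hw]
    have h1 : 2 * bil S w u = α * bil S u u + β * bil S u v := by
      have h2 := congrArg (fun z => bil S z u) hw2
      simp only [bil_smul_left, bil_add_left] at h2
      rw [h2, bil_comm hS v u]
    have h2 : 2 * bil S w v = α * bil S u v + β * bil S v v := by
      have h3 := congrArg (fun z => bil S z v) hw2
      simp only [bil_smul_left, bil_add_left] at h3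
      exact h3
    have hβ0 : β = 0 := by
      have h3 : β * bil S u v = 0 := by linear_combination hα' - h1
      exact (mul_eq_zero.1 h3).resolve_right huv
    have hα0 : α = 0 := by
      rw [hβ0] at h2 hβ'
      have h3 : α * bil S u v = 0 := by linear_combination h2 - hβ'
      exact (mul_eq_zero.1 h3).resolve_right huv
    rw [hα0, hβ0, zero_smul, zero_smul, add_zero] at hw2
    exact hw0 ((smul_eq_zero.1 hw2).resolve_left two_ne_zero)

theorem two_refl [CharZero E] (hS : Sᵀ = S) {u v : Fin n → E} (hu : bil S u u ≠ 0) (hv : bil S v v ≠ 0) :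
    refl S u * refl S v ∈ Cay S := by
  by_cases huv : bil S u v = 0
  · obtain ⟨t, ht, hw⟩ : ∃ t : E, t ≠ 0 ∧ bil S (u + t • v) (u + t • v) ≠ 0 := by
      have hq : ∀ t : E, bil S (u + t • v) (u + t • v) = bil S u u + t * t * bil S v v := by
        intro t
        rw [bil_add_left, bil_add_right, bil_add_right, bil_smul_left, bil_smul_right, bil_smul_left, bil_smul_right, bil_comm hS v u, huv]
        ring
      by_cases h1 : bil S (u + (1 : E) • v) (u + (1 : E) • v) = 0
      · refine ⟨2, two_ne_zero, fun h2 => hv ?_⟩
        rw [hq] at h1 h2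
        have h3 : (3 : E) * bil S v v = 0 := by linear_combination h2 - h1
        exact (mul_eq_zero.1 h3).resolve_left three_ne_zero
      · exact ⟨1, one_ne_zero, h1⟩
    have h1 : bil S u (u + t • v) ≠ 0 := by
      rw [bil_add_right, bil_smul_right, huv, mul_zero, add_zero]
      exact hu
    have h2 : bil S (u + t • v) v ≠ 0 := by
      rw [bil_add_left, bil_smul_left, huv, zero_add]
      exact mul_ne_zero ht hv
    have h3 : refl S u * refl S v = (refl S u * refl S (u + t • v)) * (refl S (u + t • v) * refl S v) := by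
      rw [Matrix.mul_assoc, ← Matrix.mul_assoc (refl S (u + t • v)), refl_sq hw, Matrix.one_mul]
    rw [h3]
    exact (Cay S).mul_mem (two_refl_aux hS hu hw h1) (two_refl_aux hS hw hv h2)
  · exact two_refl_aux hS hu hv huv

/-- `g` is a product of `k` reflections -/
def IsProd (S : Matrix (Fin n) (Fin n) E) (g : Matrix (Fin n) (Fin n) E) : Prop :=
  ∃ l : List (Fin n → E), (∀ u ∈ l, bil S u u ≠ 0) ∧ g = (l.map (refl S)).prod

theorem det_list (l : List (Fin n → E)) (hl : ∀ u ∈ l, bil S u u ≠ 0) : ((l.map (refl S)).prod).det = (-1) ^ l.length := by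
  induction l with
  | nil => simp
  | cons u l ih =>
    rw [List.map_cons, List.prod_cons, Matrix.det_mul, det_refl (hl u (by simp)), ih (fun v hv => hl v (by simp [hv])), List.length_cons, pow_succ]
    ring

theorem even_list [CharZero E] (hS : Sᵀ = S) : ∀ (k : ℕ) (l : List (Fin n → E)), l.length = 2 * k → (∀ u ∈ l, bil S u u ≠ 0) → (l.map (refl S)).prod ∈ Cay S := by
  intro k
  induction k with
  | zero =>
    intro l hl _
    have h0 : l = [] := List.length_eq_zero_iff.1 (by omega)
    subst h0
    exact (Cay S).one_mem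
  | succ k ih =>
    intro l hl hu
    match l, hl, hu with
    | [], hl, _ => simp at hl
    | [_], hl, _ => simp at hl; omega
    | u :: v :: l, hl, hu =>
      rw [List.map_cons, List.map_cons, List.prod_cons, List.prod_cons, ← mul_assoc]
      exact (Cay S).mul_mem (two_refl hS (hu u (by simp)) (hu v (by simp)))
        (ih l (by simp at hl; omega) (fun w hw => hu w (by simp [hw])))

/-- Cartan–Dieudonné -/
theorem cartan [CharZero E] (hS : Sᵀ = S) {N : ℕ} {x : Fin N → Fin n → E} (hspan : Submodule.span E (Set.range x) = ⊤)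
    (horth : ∀ i j, i ≠ j → bil S (x i) (x j) = 0) (hx : ∀ i, bil S (x i) (x i) ≠ 0) :
    ∀ k ≤ N, ∀ g : Matrix (Fin n) (Fin n) E, g * S * gᵀ = S → (∀ i : Fin N, (i : ℕ) < N - k → Matrix.vecMul (x i) g = x i) → IsProd S g := by
  intro k
  induction k with
  | zero =>
    intro _ g _ hfix
    have h1 : g = 1 := by
      refine Matrix.ext_of_single_vecMul fun i => ?_
      have h2 : ∀ y : Fin n → E, Matrix.vecMul y g = y := by
        intro y
        have hy : y ∈ Submodule.span E (Set.range x) := by rw [hspan]; exact Submodule.mem_top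
        induction hy using Submodule.span_induction with
        | mem y hy =>
          obtain ⟨i, rfl⟩ := hy
          exact hfix i (by omega)
        | zero => exact Matrix.zero_vecMul _
        | add y z _ _ hy hz => rw [Matrix.add_vecMul, hy, hz]
        | smul c y _ hy => rw [Matrix.smul_vecMul, hy]
      rw [h2, Matrix.vecMul_one]
    exact ⟨[], by simp, by simpa using h1⟩
  | succ k ih =>
    intro hk g hg hfix
    have hj : N - (k + 1) < N := by omega
    obtain ⟨j, hjv⟩ : ∃ j : Fin N, (j : ℕ) = N - (k + 1) := ⟨⟨_, hj⟩, rfl⟩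
    -- multiplication by reflections which move `x_j g` to `x_j`
    have hred : ∀ h : Matrix (Fin n) (Fin n) E, h * S * hᵀ = S → (∀ i : Fin N, (i : ℕ) < N - (k + 1) → Matrix.vecMul (x i) h = x i) →
        Matrix.vecMul (Matrix.vecMul (x j) g) h = x j → IsProd S (g * h) := by
      intro h hh hhfix hhj
      refine ih (by omega) (g * h) ?_ ?_
      · rw [Matrix.transpose_mul]
        have : g * h * S * (hᵀ * gᵀ) = g * (h * S * hᵀ) * gᵀ := by simp only [Matrix.mul_assoc]
        rw [this, hh, hg]
      · intro i hi
        rw [← Matrix.vecMul_vecMul]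
        by_cases hij : i = j
        · rw [hij, hhj]
        · have hi' : (i : ℕ) < N - (k + 1) := by
            have h1 : (i : ℕ) ≠ (j : ℕ) := fun h => hij (Fin.ext h)
            omega
          rw [hfix i hi', hhfix i hi']
    obtain ⟨y, hy⟩ : ∃ y, y = Matrix.vecMul (x j) g := ⟨_, rfl⟩
    have hyy : bil S y y = bil S (x j) (x j) := by rw [hy, bil_of_orth hg]
    have hyi : ∀ i : Fin N, (i : ℕ) < N - (k + 1) → bil S (x i) y = 0 := by
      intro i hi
      have h1 := bil_of_orth hg (x i) (x j)
      rw [hfix i hi, ← hy] at h1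
      rw [h1]
      exact horth i j (fun h => by rw [h] at hi; omega)
    have hxi : ∀ i : Fin N, (i : ℕ) < N - (k + 1) → bil S (x i) (x j) = 0 := fun i hi => horth i j (fun h => by rw [h] at hi; omega)
    by_cases hq : bil S (y - x j) (y - x j) = 0
    · -- use `y + x_j`
      have hq' : bil S (y + x j) (y + x j) ≠ 0 := by
        rw [bil_sub_left, bil_sub_right, bil_sub_right, hyy, bil_comm hS (x j) y] at hq
        rw [bil_add_left, bil_add_right, bil_add_right, hyy, bil_comm hS (x j) y]
        intro h
        have h1 : (4 : E) * bil S (x j) (x j) = 0 := by linear_combination hq + h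
        exact hx j ((mul_eq_zero.1 h1).resolve_left (by exact_mod_cast (show (4 : ℕ) ≠ 0 by norm_num)))
      have hmove : Matrix.vecMul y (refl S (y + x j)) = -x j := by
        rw [vecMul_refl]
        have h1 : 2 * bil S y (y + x j) / bil S (y + x j) (y + x j) = 1 := by
          rw [div_eq_one_iff_eq hq', bil_add_left, bil_add_right, bil_add_right, hyy, bil_comm hS (x j) y]
          ring
        rw [h1, one_smul]
        abel
      have hmove' : Matrix.vecMul (-x j) (refl S (x j)) = x j := by
        rw [Matrix.neg_vecMul, vecMul_refl, mul_div_assoc, div_self (hx j), mul_one, two_smul]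
        abel
      have h1 := hred (refl S (y + x j) * refl S (x j)) (orth_of_bil fun a b => by
          rw [← Matrix.vecMul_vecMul, ← Matrix.vecMul_vecMul, bil_refl hS (hx j), bil_refl hS hq']) (by
          intro i hi
          rw [← Matrix.vecMul_vecMul, vecMul_refl (S := S) (y + x j), bil_add_right, hyi i hi, hxi i hi, add_zero, mul_zero, zero_div, zero_smul, sub_zero, vecMul_refl,
            hxi i hi, mul_zero, zero_div, zero_smul, sub_zero]) (by
          rw [← hy, ← Matrix.vecMul_vecMul, hmove, hmove'])
      obtain ⟨l, hl, hgl⟩ := h1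
      refine ⟨l ++ [x j, y + x j], ?_, ?_⟩
      · intro u hu
        rw [List.mem_append] at hu
        rcases hu with hu | hu
        · exact hl u hu
        · simp only [List.mem_cons, List.not_mem_nil, or_false] at hu
          rcases hu with rfl | rfl
          · exact hx j
          · exact hq'
      · rw [List.map_append, List.prod_append, ← hgl]
        simp only [List.map_cons, List.map_nil, List.prod_cons, List.prod_nil, mul_one]
        have h2 : g * (refl S (y + x j) * refl S (x j)) * (refl S (x j) * refl S (y + x j)) =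
            g * (refl S (y + x j) * (refl S (x j) * refl S (x j)) * refl S (y + x j)) := by simp only [Matrix.mul_assoc]
        rw [h2, refl_sq (hx j), Matrix.mul_one, refl_sq hq', Matrix.mul_one]
    · have hmove : Matrix.vecMul y (refl S (y - x j)) = x j := by
        rw [vecMul_refl]
        have h1 : 2 * bil S y (y - x j) / bil S (y - x j) (y - x j) = 1 := by
          rw [div_eq_one_iff_eq hq, bil_sub_left, bil_sub_right, bil_sub_right, hyy, bil_comm hS (x j) y]
          ring
        rw [h1, one_smul]
        abel
      have h1 := hred (refl S (y - x j)) (refl_orth hS hq) (by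
          intro i hi
          rw [vecMul_refl, bil_sub_right, hyi i hi, hxi i hi, sub_zero, mul_zero, zero_div, zero_smul, sub_zero]) (by
          rw [← hy, hmove])
      obtain ⟨l, hl, hgl⟩ := h1
      refine ⟨l ++ [y - x j], ?_, ?_⟩
      · intro u hu
        rw [List.mem_append] at hu
        rcases hu with hu | hu
        · exact hl u hu
        · simp only [List.mem_cons, List.not_mem_nil, or_false] at hu
          rw [hu]
          exact hq
      · rw [List.map_append, List.prod_append, ← hgl]
        simp only [List.map_cons, List.map_nil, List.prod_cons, List.prod_nil, mul_one]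
        rw [Matrix.mul_assoc, refl_sq hq, Matrix.mul_one]

/-- **The special orthogonal group is generated by the elements with `det (1 + g) ≠ 0`.** -/
theorem so_cay [CharZero E] (hS : Sᵀ = S) (hdet : S.det ≠ 0) {g : Matrix (Fin n) (Fin n) E} (hg : g * S * gᵀ = S) (hg1 : g.det = 1) : g ∈ Cay S := by
  classical
  have : Invertible (2 : E) := invertibleOfNonzero two_ne_zero
  let B : LinearMap.BilinForm E (Fin n → E) := Matrix.toBilin' S
  have hB : ∀ x y, B x y = bil S x y := fun x y => Matrix.toBilin'_apply' S x y
  have hsymm : LinearMap.IsSymm B := ⟨fun x y => by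
    show B x y = B y x
    rw [hB, hB, bil_comm hS]⟩
  obtain ⟨v, hv⟩ := LinearMap.BilinForm.exists_orthogonal_basis hsymm
  have horth : ∀ i j, i ≠ j → bil S (v i) (v j) = 0 := by
    intro i j hij
    rw [← hB]
    exact hv hij
  have hx : ∀ i, bil S (v i) (v i) ≠ 0 := by
    intro i h0
    have h1 : ∀ y : Fin n → E, bil S y (v i) = 0 := by
      intro y
      have hy : y ∈ Submodule.span E (Set.range v) := by rw [v.span_eq]; exact Submodule.mem_top
      induction hy using Submodule.span_induction with
      | mem y hy =>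
        obtain ⟨l, rfl⟩ := hy
        by_cases hl : l = i
        · rw [hl, h0]
        · exact horth l i hl
      | zero => exact zero_dotProduct _
      | add y z _ _ hy hz => rw [bil_add_left, hy, hz, add_zero]
      | smul c y _ hy => rw [bil_smul_left, hy, mul_zero]
    have h2 : S *ᵥ (v i) = 0 := by
      funext l
      have h3 := h1 (Pi.single l 1)
      unfold bil at h3
      rwa [single_one_dotProduct] at h3
    have h3 : v i = 0 := by
      have h4 := congrArg (fun z => S⁻¹ *ᵥ z) h2
      simp only [Matrix.mulVec_mulVec, Matrix.nonsing_inv_mul _ (IsUnit.mk0 _ hdet), Matrix.one_mulVec, Matrix.mulVec_zero] at h4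
      exact h4
    exact v.ne_zero i h3
  obtain ⟨l, hl, hgl⟩ := cartan hS v.span_eq horth hx _ le_rfl g hg (fun i hi => by omega)
  have h1 := det_list l hl
  rw [← hgl, hg1] at h1
  have h2 : Even l.length := by
    by_contra h3
    rw [Nat.not_even_iff_odd] at h3
    rw [h3.neg_one_pow] at h1
    have h4 : (2 : E) = 0 := by linear_combination h1
    exact two_ne_zero h4
  obtain ⟨k, hk⟩ := h2
  rw [hgl]
  exact even_list hS k l (by omega) hl

end

end Pool.Agent.X120.OR
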