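import Pool.Agent.X120.OR.Cay
import Pool.Agent.X120.OR.Ref

/-!
# Algebraic groups which contain the image of the homomorphism of a Hodge structure
-/

set_option autoImplicit false

open Matrix

namespace Pool.Agent.X120.OR

open Pool.Agent.X120.BM Pool.Agent.X120.NF

section
variable {n w : ℕ} {A : Matrix (Fin n) (Fin n) ℚ} {H : ℕ → Submodule ℂ (Fin n → ℂ)}

/-- The complexification of the group contains the image of the cocharacter `μ` of the Hodge structure `V(m)`: `μ(z)` is the multiplication by `z^(p-m)` on `H^(p,w-p)`. (For `w = 2m` the weight of `V(m)` is zero, and the homomorphism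
`h` of the Deligne torus `𝕊_ℂ = 𝔾_m × 𝔾_m` is `h(z, z') = μ(z / z')` or its inverse.) -/
def AlgGroup.ContainsHodge (𝒢 : AlgGroup n) (w m : ℕ) (H : ℕ → Submodule ℂ (Fin n → ℂ)) : Prop :=
  ∀ (R : Type) [CommRing R] (κ : ℂ →+* R) (z : Rˣ) (M : Matrix (Fin n) (Fin n) R),
    (∀ p ≤ w, ∀ v ∈ H p, Matrix.vecMul (fun i => κ (v i)) M = ((z ^ ((p : ℤ) - m) : Rˣ) : R) • fun i => κ (v i)) →
      𝒢.IsPoint (κ.comp (algebraMap ℚ ℂ)) M

theorem exists_dual : ∃ (R : Type) (_ : CommRing R) (κ : ℂ →+* R) (η : R), η * η = 0 ∧ ∀ c : ℂ, η * κ c = 0 → c = 0 := by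
  refine ⟨DualNumber ℂ, inferInstance, TrivSqZeroExt.inlHom ℂ ℂ, DualNumber.eps, DualNumber.eps_mul_eps, ?_⟩
  intro c hc
  have h7 : (DualNumber.eps * TrivSqZeroExt.inl c : DualNumber ℂ) = 0 := hc
  unfold DualNumber.eps at h7
  rw [TrivSqZeroExt.inr_mul_inl, op_smul_eq_mul, one_mul] at h7
  exact congrArg TrivSqZeroExt.snd h7

theorem zpow_near {R : Type} [CommRing R] {η : R} (hη : η * η = 0) {z : Rˣ} (hz : (z : R) = 1 + η) (hz' : ((z⁻¹ : Rˣ) : R) = 1 - η) (k : ℤ) :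
    ((z ^ k : Rˣ) : R) = 1 + (k : R) * η := by
  induction k using Int.induction_on with
  | zero => simp
  | succ i ih =>
    rw [_root_.zpow_add_one, Units.val_mul, ih, hz]
    push_cast
    linear_combination (i : R) * hη
  | pred i ih =>
    rw [_root_.zpow_sub_one, Units.val_mul, ih, hz']
    push_cast
    linear_combination (i : R) * hη

theorem hodge_lie {𝒢 : AlgGroup n} {m : ℕ} (hc : 𝒢.ContainsHodge w m H) {Φ : Matrix (Fin n) (Fin n) ℂ} (hop : IsHodgeOperator w H Φ) :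
    Φ - (m : ℂ) • 1 ∈ extend₀ ℂ (lieAlg 𝒢) := by
  classical
  obtain ⟨R, hR, κ, η, hη, hinj⟩ := exists_dual
  obtain ⟨X, hX⟩ : ∃ X : Matrix (Fin n) (Fin n) ℂ, X = Φ - (m : ℂ) • 1 := ⟨_, rfl⟩
  rw [← hX]
  let z : Rˣ := ⟨1 + η, 1 - η, by linear_combination -hη, by linear_combination -hη⟩
  have hp := hc R κ z (1 + η • X.map κ) (by
    intro p hp v hv
    rw [zpow_near hη (z := z) rfl rfl, Matrix.vecMul_add, Matrix.vecMul_one, Matrix.vecMul_smul, add_smul, one_smul]
    congr 1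
    have h1 : Matrix.vecMul (fun i => κ (v i)) (X.map κ) = fun i => κ (Matrix.vecMul v X i) := by
      funext i
      exact (RingHom.map_vecMul κ X v i).symm
    have h2 : Matrix.vecMul v X = ((p : ℂ) - m) • v := by
      rw [hX, Matrix.vecMul_sub, hop p hp v hv, Matrix.vecMul_smul, Matrix.vecMul_one, sub_smul]
    rw [h1, h2]
    funext i
    show η * κ (((p : ℂ) - m) * v i) = (((p : ℤ) - m : ℤ) : R) * η * κ (v i)
    rw [map_mul, map_sub, map_natCast, map_natCast]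
    push_cast
    ring)
  refine mem_of_phM fun φ => ?_
  intro f hf
  have h1 := taylor (κ.comp (algebraMap ℚ ℂ)) hη (fun u : Fin n × Fin n => (1 : Matrix (Fin n) (Fin n) R) u.1 u.2) (fun u => (X.map κ) u.1 u.2) f
  have h2 : MvPolynomial.eval₂ (κ.comp (algebraMap ℚ ℂ)) (fun u : Fin n × Fin n => (1 : Matrix (Fin n) (Fin n) R) u.1 u.2) f = 0 := 𝒢.one R _ f hf
  have h3 : (∑ v, MvPolynomial.eval₂ (κ.comp (algebraMap ℚ ℂ)) (fun u : Fin n × Fin n => (1 : Matrix (Fin n) (Fin n) R) u.1 u.2) (MvPolynomial.pderiv v f) * (X.map κ) v.1 v.2) =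
      κ (∑ v, ((lin f v : ℚ) : ℂ) * X v.1 v.2) := by
    rw [map_sum]
    refine Finset.sum_congr rfl fun v _ => ?_
    rw [eval_one, map_mul]
    congr 1
  rw [h2, h3, zero_add] at h1
  have h4 : ∑ v, ((lin f v : ℚ) : ℂ) * X v.1 v.2 = 0 := hinj _ (h1.symm.trans (hp.2 f hf))
  have h5 := congrArg φ h4
  rw [map_zero, map_sum] at h5
  rw [← h5]
  refine Finset.sum_congr rfl fun v _ => ?_
  have h6 : ((lin f v : ℚ) : ℂ) * X v.1 v.2 = (lin f v) • X v.1 v.2 := by rw [Rat.smul_def]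
  rw [h6, map_smul, smul_eq_mul]
  rfl

/-- the equations of the orthogonal group -/
noncomputable def orthEq (A : Matrix (Fin n) (Fin n) ℚ) (ij : Fin n × Fin n) : MvPolynomial (Fin n × Fin n) ℚ :=
  (∑ b, (∑ a, MvPolynomial.X (ij.1, a) * MvPolynomial.C (A a b)) * MvPolynomial.X (ij.2, b)) - MvPolynomial.C (A ij.1 ij.2)

theorem eval_orthEq (A : Matrix (Fin n) (Fin n) ℚ) {R : Type} [CommRing R] (ι : ℚ →+* R) (Z : Matrix (Fin n) (Fin n) R) (ij : Fin n × Fin n) :
    evalM ι Z (orthEq A ij) = (Z * A.map ι * Zᵀ) ij.1 ij.2 - (A.map ι) ij.1 ij.2 := by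
  unfold evalM orthEq
  rw [MvPolynomial.eval₂_sub, MvPolynomial.eval₂_sum, MvPolynomial.eval₂_C, Matrix.mul_apply]
  congr 1
  refine Finset.sum_congr rfl fun b _ => ?_
  rw [MvPolynomial.eval₂_mul, MvPolynomial.eval₂_X, MvPolynomial.eval₂_sum, Matrix.mul_apply, Matrix.transpose_apply]
  congr 1
  refine Finset.sum_congr rfl fun a _ => ?_
  rw [MvPolynomial.eval₂_mul, MvPolynomial.eval₂_X, MvPolynomial.eval₂_C]
  rfl

theorem orth_iff (A : Matrix (Fin n) (Fin n) ℚ) {R : Type} [CommRing R] (ι : ℚ →+* R) (Z : Matrix (Fin n) (Fin n) R) :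
    (∀ f ∈ Set.range (orthEq A), evalM ι Z f = 0) ↔ Z * A.map ι * Zᵀ = A.map ι := by
  constructor
  · intro h
    ext i j
    have h1 := h _ ⟨(i, j), rfl⟩
    rw [eval_orthEq] at h1
    exact sub_eq_zero.1 h1
  · rintro h _ ⟨ij, rfl⟩
    rw [eval_orthEq, h, sub_self]

/-- the orthogonal group of the form `A` -/
noncomputable def orthGroup (A : Matrix (Fin n) (Fin n) ℚ) : AlgGroup n where
  I := Set.range (orthEq A)
  one := fun R _ ι => by
    rw [orth_iff, Matrix.one_mul, Matrix.transpose_one, Matrix.mul_one]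
  mul := fun R _ ι Z Z' _ _ h h' => by
    rw [orth_iff] at h h' ⊢
    rw [Matrix.transpose_mul]
    have h1 : Z * Z' * A.map ι * (Z'ᵀ * Zᵀ) = Z * (Z' * A.map ι * Z'ᵀ) * Zᵀ := by simp only [Matrix.mul_assoc]
    rw [h1, h', h]
  inv := fun R _ ι Z hZ h => by
    rw [orth_iff] at h ⊢
    have hd : IsUnit Z.det := (Matrix.isUnit_iff_isUnit_det _).1 hZ
    have hdt : IsUnit (Zᵀ).det := by rw [Matrix.det_transpose]; exact hd
    rw [Matrix.transpose_nonsing_inv]
    calc Z⁻¹ * A.map ι * (Zᵀ)⁻¹ = Z⁻¹ * (Z * A.map ι * Zᵀ) * (Zᵀ)⁻¹ := by rw [h]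
      _ = (Z⁻¹ * Z) * A.map ι * (Zᵀ * (Zᵀ)⁻¹) := by simp only [Matrix.mul_assoc]
      _ = A.map ι := by rw [Matrix.nonsing_inv_mul _ hd, Matrix.mul_nonsing_inv _ hdt, Matrix.one_mul, Matrix.mul_one]

theorem orth_contains (hH : IsPolarized w A H) {m : ℕ} (hm : w = 2 * m) : (orthGroup A).ContainsHodge w m H := by
  classical
  intro R _ κ z M hM
  set ι : ℚ →+* R := κ.comp (algebraMap ℚ ℂ) with hι
  have hAι : A.map ι = (toC A).map κ := by
    rw [toC_alg]
    rfl
  -- the pairing of two vectors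
  have hpair : ∀ v u : Fin n → ℂ, (fun i => κ (v i)) ⬝ᵥ ((A.map ι) *ᵥ fun i => κ (u i)) = κ (v ⬝ᵥ (toC A *ᵥ u)) := by
    intro v u
    rw [hAι]
    have h1 : ((toC A).map κ) *ᵥ (fun i => κ (u i)) = fun i => κ ((toC A *ᵥ u) i) := by
      funext i
      exact (RingHom.map_mulVec κ (toC A) u i).symm
    rw [h1]
    exact (RingHom.map_dotProduct κ v (toC A *ᵥ u)).symm
  obtain ⟨N, hN⟩ : ∃ N, N = M * A.map ι * Mᵀ - A.map ι := ⟨_, rfl⟩
  have hNv : ∀ v u : Fin n → ℂ, (fun i => κ (v i)) ⬝ᵥ (N *ᵥ fun i => κ (u i)) =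
      (Matrix.vecMul (fun i => κ (v i)) M) ⬝ᵥ ((A.map ι) *ᵥ (Matrix.vecMul (fun i => κ (u i)) M)) -
        (fun i => κ (v i)) ⬝ᵥ ((A.map ι) *ᵥ fun i => κ (u i)) := by
    intro v u
    rw [hN, Matrix.sub_mulVec, dotProduct_sub, ← Matrix.mulVec_transpose M (fun i => κ (u i)), ← Matrix.dotProduct_mulVec, Matrix.mulVec_mulVec, Matrix.mulVec_mulVec]
  have hzero : ∀ p ≤ w, ∀ p' ≤ w, ∀ v ∈ H p, ∀ u ∈ H p', (fun i => κ (v i)) ⬝ᵥ (N *ᵥ fun i => κ (u i)) = 0 := by
    intro p hp p' hp' v hv u hu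
    rw [hNv, hM p hp v hv, hM p' hp' u hu, Matrix.mulVec_smul, dotProduct_smul, smul_dotProduct, hpair, smul_eq_mul, smul_eq_mul]
    by_cases hpp : p + p' = w
    · have h1 : ((p' : ℤ) - m) + ((p : ℤ) - m) = 0 := by omega
      rw [← mul_assoc, ← Units.val_mul, ← _root_.zpow_add, h1, _root_.zpow_zero, Units.val_one, one_mul, sub_self]
    · rw [hH.orth p hp p' hp' hpp v hv u hu, map_zero, mul_zero, mul_zero, sub_zero]
  have hN0 : N = 0 := by
    have h1 : ∀ p' ≤ w, ∀ u ∈ H p', ∀ v : Fin n → ℂ, (fun i => κ (v i)) ⬝ᵥ (N *ᵥ fun i => κ (u i)) = 0 := by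
      intro p' hp' u hu v
      have hv : v ∈ (⨆ p : {p : ℕ // p ≤ w}, H p) := by rw [hH.span]; exact Submodule.mem_top
      induction hv using Submodule.iSup_induction' with
      | mem p x hx => exact hzero p p.2 p' hp' x hx u hu
      | zero =>
        have h2 : (fun i => κ ((0 : Fin n → ℂ) i)) = 0 := funext fun i => map_zero κ
        rw [h2, zero_dotProduct]
      | add x x' _ _ hx hx' =>
        have h2 : (fun i => κ ((x + x') i)) = (fun i => κ (x i)) + fun i => κ (x' i) := funext fun i => map_add κ _ _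
        rw [h2, add_dotProduct, hx, hx', add_zero]
    have h2 : ∀ v u : Fin n → ℂ, (fun i => κ (v i)) ⬝ᵥ (N *ᵥ fun i => κ (u i)) = 0 := by
      intro v u
      have hu : u ∈ (⨆ p : {p : ℕ // p ≤ w}, H p) := by rw [hH.span]; exact Submodule.mem_top
      induction hu using Submodule.iSup_induction' with
      | mem p x hx => exact h1 p p.2 x hx v
      | zero =>
        have h2 : (fun i => κ ((0 : Fin n → ℂ) i)) = 0 := funext fun i => map_zero κ
        rw [h2, Matrix.mulVec_zero, dotProduct_zero]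
      | add x x' _ _ hx hx' =>
        have h2 : (fun i => κ ((x + x') i)) = (fun i => κ (x i)) + fun i => κ (x' i) := funext fun i => map_add κ _ _
        rw [h2, Matrix.mulVec_add, dotProduct_add, hx, hx', add_zero]
    have hs : ∀ i : Fin n, (fun l => κ ((Pi.single i 1 : Fin n → ℂ) l)) = Pi.single i 1 := by
      intro i
      funext l
      by_cases h : l = i
      · subst h
        simp
      · simp [h]
    ext i j
    have h3 := h2 (Pi.single i 1) (Pi.single j 1)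
    rw [hs, hs, single_one_dotProduct, Matrix.mulVec_single_one] at h3
    exact h3
  have hMo : M * A.map ι * Mᵀ = A.map ι := by rw [hN] at hN0; exact sub_eq_zero.1 hN0
  refine ⟨?_, (orth_iff A ι M).2 hMo⟩
  have hAd : IsUnit (A.map ι).det := by
    have h1 : (A.map ι).det = ι A.det := (RingHom.map_det ι A).symm
    rw [h1]
    exact (IsUnit.mk0 _ hH.nondeg).map ι
  rw [Matrix.isUnit_iff_isUnit_det]
  have h1 := congrArg Matrix.det hMo
  rw [Matrix.det_mul, Matrix.det_mul, Matrix.det_transpose] at h1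
  rw [← h1] at hAd
  exact isUnit_of_mul_isUnit_right hAd

/-- **All algebraic subgroups of `GL_n` over `ℚ` which contain the image of `h` contain `SO(A)`.** -/
theorem so_mem {G : GSystem} {e : ℕ} {F : OPeriods G n e} {b t : ℕ} (hgen : Generic F b t) (hA : Aᵀ = A) (hH : IsPolarized w A H)
    (ht : IsTop w H (F.vec b t)) {Φ : Matrix (Fin n) (Fin n) ℂ} (hop : IsHodgeOperator w H Φ) {m : ℕ} {𝒢 : AlgGroup n}
    (hc : 𝒢.ContainsHodge w m H) {E : Type} [Field E] [CharZero E] (ι : ℚ →+* E) {g : Matrix (Fin n) (Fin n) E} (hg : g * A.map ι * gᵀ = A.map ι)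
    (hg1 : g.det = 1) : 𝒢.IsPoint ι g := by
  have hlie : orthLie ℚ A ≤ lieAlg 𝒢 := by
    intro X hX
    refine hgen w A H hA hH ht Φ hop (lieAlg 𝒢) (lieAlg_lie 𝒢) m ?_ X (mem_orthLie.1 hX)
    rw [Rat.cast_natCast]
    exact hodge_lie hc hop
  have hS : (A.map ι)ᵀ = A.map ι := by rw [← Matrix.transpose_map, hA]
  have hSd : (A.map ι).det ≠ 0 := by
    have h1 : (A.map ι).det = ι A.det := (RingHom.map_det ι A).symm
    rw [h1]
    exact (map_ne_zero ι).2 hH.nondeg
  have h1 := so_cay hS hSd hg hg1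
  clear hg hg1
  unfold Cay at h1
  induction h1 using Submonoid.closure_induction with
  | mem g hg => exact cayley_mem 𝒢 hA hH.nondeg hlie ι hg.1 hg.2
  | one => exact ⟨isUnit_one, 𝒢.one E ι⟩
  | mul x y _ _ hx hy => exact hx.mul hy

end

end Pool.Agent.X120.OR
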