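import Mathlib

/-!
# The orthogonal Lie algebra is perfect
-/

set_option autoImplicit false

open Matrix

namespace Pool.Agent.X120.OR

section
variable {n : ℕ}

theorem exists_third (hn : 3 ≤ n) (j b : Fin n) : ∃ i : Fin n, i ≠ j ∧ i ≠ b := by
  classical
  by_contra h
  push Not at h
  have h1 : (Finset.univ : Finset (Fin n)) ⊆ {j, b} := by
    intro i _
    rw [Finset.mem_insert, Finset.mem_singleton]
    by_cases hi : i = j
    · exact Or.inl hi
    · exact Or.inr (h i hi)
  have h2 := (Finset.card_le_card h1).trans Finset.card_le_two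
  rw [Finset.card_univ, Fintype.card_fin] at h2
  omega

theorem scalar_of_comm (hn : 3 ≤ n) {A : Matrix (Fin n) (Fin n) ℚ} (hA : Aᵀ = A) (hdet : A.det ≠ 0) {D : Matrix (Fin n) (Fin n) ℚ}
    (h : ∀ X, X * A + A * Xᵀ = 0 → X * D = D * X) : ∃ q : ℚ, D = q • 1 := by
  classical
  have hAu : IsUnit A.det := IsUnit.mk0 _ hdet
  obtain ⟨P, hP⟩ : ∃ P, P = A⁻¹ * D * A := ⟨_, rfl⟩
  have hK : ∀ i j : Fin n, ∀ a b : Fin n, (if a = i then D j b else 0) - (if a = j then D i b else 0) =
      (if b = j then P a i else 0) - (if b = i then P a j else 0) := by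
    intro i j a b
    obtain ⟨K, hKd⟩ : ∃ K : Matrix (Fin n) (Fin n) ℚ, K = Matrix.single i j 1 - Matrix.single j i 1 := ⟨_, rfl⟩
    have hKt : Kᵀ = -K := by rw [hKd, Matrix.transpose_sub, Matrix.transpose_single, Matrix.transpose_single, neg_sub]
    have h1 := h (A * K) (by
      rw [Matrix.transpose_mul, hKt, hA, Matrix.neg_mul, Matrix.mul_neg, ← Matrix.mul_assoc, add_neg_cancel])
    have h2 : K * D = P * K := by
      have h3 := congrArg (fun M => A⁻¹ * M) h1
      simp only [← Matrix.mul_assoc, Matrix.nonsing_inv_mul _ hAu, Matrix.one_mul] at h3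
      rw [h3, hP]
    have h3 := congrFun (congrFun h2 a) b
    rw [hKd, Matrix.sub_mul, Matrix.mul_sub, Matrix.sub_apply, Matrix.sub_apply] at h3
    have e1 : ∀ i j : Fin n, ((Matrix.single i j (1 : ℚ)) * D) a b = if a = i then D j b else 0 := by
      intro i j
      by_cases hai : a = i
      · subst hai
        rw [Matrix.single_mul_apply_same, one_mul, if_pos rfl]
      · rw [Matrix.single_mul_apply_of_ne _ _ _ _ _ hai, if_neg hai]
    have e2 : ∀ i j : Fin n, (P * (Matrix.single i j (1 : ℚ))) a b = if b = j then P a i else 0 := by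
      intro i j
      by_cases hbj : b = j
      · subst hbj
        rw [Matrix.mul_single_apply_same, mul_one, if_pos rfl]
      · rw [Matrix.mul_single_apply_of_ne _ _ _ _ _ hbj, if_neg hbj]
    rw [e1, e1, e2, e2] at h3
    exact h3
  have hoff : ∀ j b : Fin n, b ≠ j → D j b = 0 := by
    intro j b hbj
    obtain ⟨i, hij, hib⟩ := exists_third hn j b
    have h1 := hK i j i b
    rw [if_pos rfl, if_neg hij, if_neg hbj, if_neg (Ne.symm hib)] at h1
    linear_combination h1
  have hdiag : ∀ i j : Fin n, i ≠ j → P i i = D j j := by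
    intro i j hij
    have h1 := hK i j i j
    rw [if_pos rfl, if_neg hij, if_pos rfl, if_neg (Ne.symm hij)] at h1
    linear_combination -h1
  have hall : ∀ j k : Fin n, D j j = D k k := by
    intro j k
    obtain ⟨i, hij, hik⟩ := exists_third hn j k
    rw [← hdiag i j hij, ← hdiag i k hik]
  refine ⟨D ⟨0, by omega⟩ ⟨0, by omega⟩, ?_⟩
  ext j b
  rw [Matrix.smul_apply, Matrix.one_apply, smul_eq_mul]
  by_cases hjb : j = b
  · subst hjb
    rw [if_pos rfl, mul_one]
    exact hall _ _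
  · rw [if_neg hjb, mul_zero]
    exact hoff j b (Ne.symm hjb)

theorem skew_of_orth {A X : Matrix (Fin n) (Fin n) ℚ} (hA : Aᵀ = A) (hdet : A.det ≠ 0) (hX : X * A + A * Xᵀ = 0) :
    (A⁻¹ * X)ᵀ = -(A⁻¹ * X) ∧ A * (A⁻¹ * X) = X := by
  have hAu : IsUnit A.det := IsUnit.mk0 _ hdet
  refine ⟨?_, by rw [← Matrix.mul_assoc, Matrix.mul_nonsing_inv _ hAu, Matrix.one_mul]⟩
  have h1 : A * Xᵀ = -(X * A) := eq_neg_of_add_eq_zero_right hX
  have h2 : Xᵀ = -(A⁻¹ * X * A) := by
    have h3 := congrArg (fun M => A⁻¹ * M) h1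
    simp only [← Matrix.mul_assoc, Matrix.nonsing_inv_mul _ hAu, Matrix.one_mul, Matrix.mul_neg] at h3
    exact h3
  rw [Matrix.transpose_mul, Matrix.transpose_nonsing_inv, hA, h2, Matrix.neg_mul, Matrix.mul_assoc, Matrix.mul_nonsing_inv _ hAu, Matrix.mul_one]

theorem so_perfect (hn : 3 ≤ n) {A : Matrix (Fin n) (Fin n) ℚ} (hA : Aᵀ = A) (hdet : A.det ≠ 0) {U : Submodule ℚ (Matrix (Fin n) (Fin n) ℚ)}
    (hU : ∀ X Y : Matrix (Fin n) (Fin n) ℚ, X * A + A * Xᵀ = 0 → Y * A + A * Yᵀ = 0 → X * Y - Y * X ∈ U) {X : Matrix (Fin n) (Fin n) ℚ}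
    (hX : X * A + A * Xᵀ = 0) : X ∈ U := by
  classical
  have hAu : IsUnit A.det := IsUnit.mk0 _ hdet
  by_contra hXU
  obtain ⟨f, hfX, hfU⟩ := U.exists_dual_map_eq_bot_of_notMem hXU inferInstance
  have hf : ∀ Z ∈ U, f Z = 0 := by
    intro Z hZ
    have h1 : f Z ∈ U.map f := Submodule.mem_map_of_mem hZ
    rw [hfU] at h1
    exact (Submodule.mem_bot ℚ).1 h1
  obtain ⟨B, hB⟩ : ∃ B : Matrix (Fin n) (Fin n) ℚ, B = Matrix.of fun i j => f (A * (Matrix.single i j 1 - Matrix.single j i 1)) := ⟨_, rfl⟩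
  have hg : ∀ Z : Matrix (Fin n) (Fin n) ℚ, f (A * (Z - Zᵀ)) = ∑ i, ∑ j, Z i j * B i j := by
    intro Z
    have h1 : Z - Zᵀ = ∑ i, ∑ j, Z i j • (Matrix.single i j (1 : ℚ) - Matrix.single j i 1) := by
      have h2 : ∀ i j, Z i j • (Matrix.single i j (1 : ℚ) - Matrix.single j i 1) = Matrix.single i j (Z i j) - (Matrix.single i j (Z i j))ᵀ := by
        intro i j
        rw [smul_sub, Matrix.smul_single, Matrix.smul_single, smul_eq_mul, mul_one, Matrix.transpose_single]
      simp only [h2, Finset.sum_sub_distrib, ← Matrix.transpose_sum]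
      rw [← Matrix.matrix_eq_sum_single Z]
    rw [h1, Matrix.mul_sum, map_sum]
    refine Finset.sum_congr rfl fun i _ => ?_
    rw [Matrix.mul_sum, map_sum]
    refine Finset.sum_congr rfl fun j _ => ?_
    rw [Matrix.mul_smul, map_smul, smul_eq_mul, hB]
    rfl
  have hBt : Bᵀ = -B := by
    ext i j
    rw [hB]
    show f (A * (Matrix.single j i 1 - Matrix.single i j 1)) = -f (A * (Matrix.single i j 1 - Matrix.single j i 1))
    rw [← map_neg, ← Matrix.mul_neg, neg_sub]
  have h0 : ∀ K K' : Matrix (Fin n) (Fin n) ℚ, Kᵀ = -K → K'ᵀ = -K' → Matrix.trace (B * K * A * K') = 0 := by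
    intro K K' hK hK'
    have h1 : A * K * (A * K') - A * K' * (A * K) ∈ U := by
      refine hU _ _ ?_ ?_
      · rw [Matrix.transpose_mul, hK, hA, Matrix.neg_mul, Matrix.mul_neg, ← Matrix.mul_assoc, add_neg_cancel]
      · rw [Matrix.transpose_mul, hK', hA, Matrix.neg_mul, Matrix.mul_neg, ← Matrix.mul_assoc, add_neg_cancel]
    have h2 : A * K * (A * K') - A * K' * (A * K) = A * (K * A * K' - (K * A * K')ᵀ) := by
      rw [Matrix.transpose_mul, Matrix.transpose_mul, hA, hK, hK', Matrix.mul_sub]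
      simp only [Matrix.neg_mul, Matrix.mul_neg, neg_neg, Matrix.mul_assoc]
    rw [h2] at h1
    have h3 := hf _ h1
    rw [hg] at h3
    have h4 : Matrix.trace (B * K * A * K') = -∑ i, ∑ j, (K * A * K') i j * B i j := by
      rw [Matrix.mul_assoc B K A, Matrix.mul_assoc B, Matrix.trace_mul_comm]
      show ∑ i, (K * A * K' * B) i i = _
      rw [← Finset.sum_neg_distrib]
      refine Finset.sum_congr rfl fun i _ => ?_
      rw [Matrix.mul_apply, ← Finset.sum_neg_distrib]
      refine Finset.sum_congr rfl fun j _ => ?_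
      have h5 : B j i = -B i j := congrFun (congrFun hBt i) j
      rw [h5, mul_neg]
    rw [h4, h3, neg_zero]
  have hsym : ∀ K : Matrix (Fin n) (Fin n) ℚ, Kᵀ = -K → A * K * B = B * K * A := by
    intro K hK
    have h1 : (B * K * A)ᵀ = A * K * B := by
      rw [Matrix.transpose_mul, Matrix.transpose_mul, hA, hK, hBt]
      simp only [Matrix.neg_mul, Matrix.mul_neg, neg_neg, Matrix.mul_assoc]
    rw [← h1]
    ext a b
    have h2 := h0 K (Matrix.single a b 1 - Matrix.single b a 1) hK (by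
      rw [Matrix.transpose_sub, Matrix.transpose_single, Matrix.transpose_single, neg_sub])
    have h3 : ∀ (M : Matrix (Fin n) (Fin n) ℚ) (a b : Fin n), Matrix.trace (M * Matrix.single a b (1 : ℚ)) = M b a := by
      intro M a b
      show ∑ i, (M * Matrix.single a b (1 : ℚ)) i i = _
      rw [Finset.sum_eq_single b]
      · rw [Matrix.mul_single_apply_same, mul_one]
      · intro c _ hc
        exact Matrix.mul_single_apply_of_ne _ _ _ _ _ hc _
      · intro h
        exact absurd (Finset.mem_univ _) h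
    rw [Matrix.mul_sub, Matrix.trace_sub, h3, h3] at h2
    rw [Matrix.transpose_apply]
    linear_combination h2
  obtain ⟨q, hq⟩ := scalar_of_comm hn hA hdet (D := B * A⁻¹) (by
    intro X hX
    obtain ⟨hs1, hs2⟩ := skew_of_orth hA hdet hX
    have h1 := hsym _ hs1
    rw [hs2] at h1
    have h2 : X * (B * A⁻¹) = B * (A⁻¹ * X) := by
      rw [← Matrix.mul_assoc, h1, Matrix.mul_assoc, Matrix.mul_nonsing_inv _ hAu, Matrix.mul_one]
    rw [h2, Matrix.mul_assoc])
  have hB0 : B = 0 := by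
    have h1 : B = q • A := by
      have h2 := congrArg (fun M => M * A) hq
      simp only [Matrix.mul_assoc, Matrix.nonsing_inv_mul _ hAu, Matrix.mul_one, Matrix.smul_mul, Matrix.one_mul] at h2
      exact h2
    have h2 : Bᵀ = B := by rw [h1, Matrix.transpose_smul, hA]
    rw [hBt] at h2
    ext i j
    have h3 : -B i j = B i j := congrFun (congrFun h2 i) j
    show B i j = 0
    linarith
  apply hfX
  obtain ⟨hs1, hs2⟩ := skew_of_orth hA hdet hX
  have h1 : X = A * (((1 / 2 : ℚ) • (A⁻¹ * X)) - ((1 / 2 : ℚ) • (A⁻¹ * X))ᵀ) := by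
    rw [Matrix.transpose_smul, hs1, smul_neg, sub_neg_eq_add, ← add_smul]
    norm_num
    exact hs2.symm
  rw [h1, hg, hB0]
  simp

end

end Pool.Agent.X120.OR
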