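import Pool.Agent.X120.OR.Hod

/-!
# Hodge tensors of a Hodge structure with big orthogonal Mumford–Tate group
-/

set_option autoImplicit false

open Matrix

namespace Pool.Agent.X120.OR

open Pool.Agent.X120.BM Pool.Agent.X120.NF

section
variable {n w r : ℕ} {A : Matrix (Fin n) (Fin n) ℚ} {H : ℕ → Submodule ℂ (Fin n → ℂ)}

/-- the action of a matrix on the tensor power `(R^n)^{⊗ r}` -/
def tact {R : Type} [CommRing R] (c : (Fin r → Fin n) → R) (Z : Matrix (Fin n) (Fin n) R) : (Fin r → Fin n) → R :=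
  fun J => ∑ I, c I * ∏ k, Z (I k) (J k)

theorem tact_one {R : Type} [CommRing R] (c : (Fin r → Fin n) → R) : tact c 1 = c := by
  classical
  funext J
  unfold tact
  rw [Finset.sum_eq_single J]
  · have h1 : ∏ k, (1 : Matrix (Fin n) (Fin n) R) (J k) (J k) = 1 := Finset.prod_eq_one fun k _ => Matrix.one_apply_eq _
    rw [h1, mul_one]
  · intro I _ hI
    obtain ⟨k, hk⟩ := Function.ne_iff.1 hI
    have h1 : ∏ k, (1 : Matrix (Fin n) (Fin n) R) (I k) (J k) = 0 := Finset.prod_eq_zero (Finset.mem_univ k) (Matrix.one_apply_ne hk)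
    rw [h1, mul_zero]
  · intro h
    exact absurd (Finset.mem_univ _) h

theorem tact_mul {R : Type} [CommRing R] (c : (Fin r → Fin n) → R) (Z Z' : Matrix (Fin n) (Fin n) R) : tact c (Z * Z') = tact (tact c Z) Z' := by
  classical
  funext J
  unfold tact
  have h1 : ∀ I : Fin r → Fin n, ∏ k, (Z * Z') (I k) (J k) = ∑ K : Fin r → Fin n, (∏ k, Z (I k) (K k)) * ∏ k, Z' (K k) (J k) := by
    intro I
    have h2 : ∀ k, (Z * Z') (I k) (J k) = ∑ l, Z (I k) l * Z' l (J k) := fun k => Matrix.mul_apply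
    rw [Finset.prod_congr rfl fun k _ => h2 k, Finset.prod_univ_sum, Fintype.piFinset_univ]
    exact Finset.sum_congr rfl fun K _ => Finset.prod_mul_distrib
  simp only [h1, Finset.mul_sum, Finset.sum_mul]
  rw [Finset.sum_comm]
  refine Finset.sum_congr rfl fun K _ => Finset.sum_congr rfl fun I _ => ?_
  ring

theorem zpow_prod {G : Type} [CommGroup G] (z : G) (q : Fin r → ℤ) : ∏ k, z ^ (q k) = z ^ (∑ k, q k) := by
  classical
  have h1 : ∀ s : Finset (Fin r), ∏ k ∈ s, z ^ (q k) = z ^ (∑ k ∈ s, q k) := by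
    intro s
    induction s using Finset.induction_on with
    | empty => simp
    | insert a s ha ih => rw [Finset.prod_insert ha, Finset.sum_insert ha, ih, _root_.zpow_add]
  exact h1 Finset.univ

/-- the equations of the stabiliser of a rational tensor -/
noncomputable def stabEq (c : (Fin r → Fin n) → ℚ) (J : Fin r → Fin n) : MvPolynomial (Fin n × Fin n) ℚ :=
  (∑ I, MvPolynomial.C (c I) * ∏ k, MvPolynomial.X (I k, J k)) - MvPolynomial.C (c J)

theorem stab_iff (c : (Fin r → Fin n) → ℚ) {R : Type} [CommRing R] (ι : ℚ →+* R) (Z : Matrix (Fin n) (Fin n) R) :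
    (∀ f ∈ Set.range (stabEq c), evalM ι Z f = 0) ↔ tact (fun I => ι (c I)) Z = fun I => ι (c I) := by
  have h1 : ∀ J, evalM ι Z (stabEq c J) = tact (fun I => ι (c I)) Z J - ι (c J) := by
    intro J
    unfold evalM stabEq tact
    rw [MvPolynomial.eval₂_sub, MvPolynomial.eval₂_sum, MvPolynomial.eval₂_C]
    congr 1
    refine Finset.sum_congr rfl fun I _ => ?_
    rw [MvPolynomial.eval₂_mul, MvPolynomial.eval₂_C, MvPolynomial.eval₂_prod]
    congr 1
    refine Finset.prod_congr rfl fun k _ => ?_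
    rw [MvPolynomial.eval₂_X]
  constructor
  · intro h
    funext J
    have h2 := h _ ⟨J, rfl⟩
    rw [h1] at h2
    exact sub_eq_zero.1 h2
  · rintro h _ ⟨J, rfl⟩
    rw [h1, h, sub_self]

/-- the stabiliser of a rational tensor -/
noncomputable def stabGroup (c : (Fin r → Fin n) → ℚ) : AlgGroup n where
  I := Set.range (stabEq c)
  one := fun R _ ι => by
    rw [stab_iff, tact_one]
  mul := fun R _ ι Z Z' _ _ h h' => by
    rw [stab_iff] at h h' ⊢
    rw [tact_mul, h, h']
  inv := fun R _ ι Z hZ h => by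
    rw [stab_iff] at h ⊢
    have hd : IsUnit Z.det := (Matrix.isUnit_iff_isUnit_det _).1 hZ
    calc tact (fun I => ι (c I)) Z⁻¹ = tact (tact (fun I => ι (c I)) Z) Z⁻¹ := by rw [h]
      _ = fun I => ι (c I) := by rw [← tact_mul, Matrix.mul_nonsing_inv _ hd, tact_one]

/-- A rational tensor in `V^{⊗ r}` is a Hodge class (in `V^{⊗ r}(m r)`): it is in the span of the tensors `v_1 ⊗ ⋯ ⊗ v_r` with `v_k ∈ H^{p_k}`, `p_1 + ⋯ + p_r = m r`. -/
def IsHodgeTensor (w m : ℕ) (H : ℕ → Submodule ℂ (Fin n → ℂ)) (c : (Fin r → Fin n) → ℚ) : Prop :=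
  (fun I => ((c I : ℚ) : ℂ)) ∈ Submodule.span ℂ {T : (Fin r → Fin n) → ℂ | ∃ p : Fin r → ℕ, (∀ k, p k ≤ w) ∧ ∑ k, p k = r * m ∧
    ∃ v : Fin r → Fin n → ℂ, (∀ k, v k ∈ H (p k)) ∧ T = fun I => ∏ k, v k (I k)}

theorem tact_prod {R : Type} [CommRing R] (v : Fin r → Fin n → R) (M : Matrix (Fin n) (Fin n) R) :
    tact (fun I => ∏ k, v k (I k)) M = fun J => ∏ k, Matrix.vecMul (v k) M (J k) := by
  classical
  funext J
  unfold tact
  have h1 : ∀ k, Matrix.vecMul (v k) M (J k) = ∑ l, v k l * M l (J k) := fun k => rfl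
  rw [Finset.prod_congr rfl fun k _ => h1 k, Finset.prod_univ_sum, Fintype.piFinset_univ]
  exact Finset.sum_congr rfl fun K _ => Finset.prod_mul_distrib.symm

theorem stab_contains {m : ℕ} {c : (Fin r → Fin n) → ℚ} (hc : IsHodgeTensor w m H c) (hH : IsPolarized w A H) (hm : w = 2 * m) :
    (stabGroup c).ContainsHodge w m H := by
  classical
  intro R _ κ z M hM
  refine ⟨(orth_contains hH hm R κ z M hM).1, (stab_iff c _ M).2 ?_⟩
  have h1 : ∀ T : (Fin r → Fin n) → ℂ, T ∈ Submodule.span ℂ {T : (Fin r → Fin n) → ℂ | ∃ p : Fin r → ℕ, (∀ k, p k ≤ w) ∧ ∑ k, p k = r * m ∧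
      ∃ v : Fin r → Fin n → ℂ, (∀ k, v k ∈ H (p k)) ∧ T = fun I => ∏ k, v k (I k)} → tact (fun I => κ (T I)) M = fun I => κ (T I) := by
    intro T hT
    induction hT using Submodule.span_induction with
    | mem T hT =>
      obtain ⟨p, hp, hs, v, hv, rfl⟩ := hT
      have h2 : (fun I : Fin r → Fin n => κ (∏ k, v k (I k))) = fun I => ∏ k, κ (v k (I k)) := funext fun I => map_prod κ _ _
      rw [h2]
      refine (tact_prod (fun k l => κ (v k l)) M).trans ?_
      funext J
      have h3 : ∀ k, Matrix.vecMul (fun l => κ (v k l)) M (J k) = ((z ^ ((p k : ℤ) - m) : Rˣ) : R) * κ (v k (J k)) := by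
        intro k
        rw [hM (p k) (hp k) (v k) (hv k)]
        rfl
      rw [Finset.prod_congr rfl fun k _ => h3 k, Finset.prod_mul_distrib]
      have h4 : ∏ k, ((z ^ ((p k : ℤ) - m) : Rˣ) : R) = 1 := by
        rw [← Units.coe_prod, zpow_prod]
        have h5 : ∑ k, ((p k : ℤ) - m) = 0 := by
          rw [Finset.sum_sub_distrib, Finset.sum_const, Finset.card_univ, Fintype.card_fin]
          have h6 : ((∑ k, p k : ℕ) : ℤ) = ((r * m : ℕ) : ℤ) := by rw [hs]
          push_cast at h6
          rw [h6, nsmul_eq_mul, sub_self]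
        rw [h5, _root_.zpow_zero, Units.val_one]
      rw [h4, one_mul]
    | zero =>
      funext J
      simp [tact]
    | add S T _ _ hS hT =>
      have h2 : tact (fun I => κ ((S + T) I)) M = tact (fun I => κ (S I)) M + tact (fun I => κ (T I)) M := by
        funext J
        unfold tact
        rw [Pi.add_apply, ← Finset.sum_add_distrib]
        refine Finset.sum_congr rfl fun I _ => ?_
        show κ (S I + T I) * _ = κ (S I) * _ + κ (T I) * _
        rw [map_add, add_mul]
      rw [h2, hS, hT]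
      funext J
      rw [Pi.add_apply, Pi.add_apply, map_add]
    | smul a T _ hT =>
      have h2 : tact (fun I => κ ((a • T) I)) M = κ a • tact (fun I => κ (T I)) M := by
        funext J
        unfold tact
        rw [Pi.smul_apply, smul_eq_mul, Finset.mul_sum]
        refine Finset.sum_congr rfl fun I _ => ?_
        show κ (a * T I) * _ = κ a * (κ (T I) * _)
        rw [map_mul, mul_assoc]
      rw [h2, hT]
      funext J
      rw [Pi.smul_apply, Pi.smul_apply, smul_eq_mul, smul_eq_mul, map_mul]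
  have h2 := h1 _ hc
  have h3 : (fun I => (κ.comp (algebraMap ℚ ℂ)) (c I)) = fun I => κ ((c I : ℚ) : ℂ) := by
    funext I
    rw [RingHom.comp_apply, eq_ratCast]
  rw [h3]
  exact h2

end

end Pool.Agent.X120.OR
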